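import Mathlib

/-!
# A 24 point subset of the six dimensional demihypercube: data and first order analysis
-/

set_option autoImplicit false

namespace Pool.Agent.H29Z.SJ

/-- the 24 sign vectors -/
def sT : List (List ℤ) :=
  [[1, 1, 1, 1, -1, -1],
   [1, 1, 1, -1, 1, -1],
   [1, 1, 1, -1, -1, 1],
   [1, 1, -1, 1, 1, -1],
   [1, 1, -1, 1, -1, 1],
   [1, 1, -1, -1, 1, 1],
   [1, 1, -1, -1, -1, -1],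
   [1, -1, 1, 1, 1, -1],
   [1, -1, 1, 1, -1, 1],
   [1, -1, 1, -1, 1, 1],
   [1, -1, -1, 1, -1, -1],
   [1, -1, -1, -1, -1, 1],
   [-1, 1, 1, 1, 1, -1],
   [-1, 1, 1, -1, 1, 1],
   [-1, 1, -1, 1, 1, 1],
   [-1, 1, -1, 1, -1, -1],
   [-1, 1, -1, -1, -1, 1],
   [-1, -1, 1, 1, 1, 1],
   [-1, -1, 1, 1, -1, -1],
   [-1, -1, 1, -1, 1, -1],
   [-1, -1, 1, -1, -1, 1],
   [-1, -1, -1, 1, 1, -1],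
   [-1, -1, -1, -1, 1, 1],
   [-1, -1, -1, -1, -1, -1]]

/-- first order change of the Gram matrix along the unique flex -/
def dT : List (List ℤ) :=
  [[0, 0, 0, 0, 0, 0, 0, 0, 0, 0, 0, 0, 0, 0, 1, 0, 0, 1, 0, -1, 0, 0, 0, -1],
   [0, 0, 0, 0, 0, 0, 0, 0, 0, 0, 1, 1, 0, 0, 0, -1, -1, 0, 1, 0, 1, -1, -1, 0],
   [0, 0, 0, 0, 0, 0, 0, 0, 0, 0, 0, 0, 0, 0, 1, 0, 0, 1, 0, -1, 0, 0, 0, -1],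
   [0, 0, 0, 0, 0, 0, 0, 0, -1, 0, 0, 0, 0, 0, 0, 0, 0, -1, 0, 1, 0, 0, 0, 1],
   [0, 0, 0, 0, 0, 0, 0, 1, 0, 1, 0, 0, -1, -1, 0, 0, 0, 0, -1, 0, -1, 1, 1, 0],
   [0, 0, 0, 0, 0, 0, 0, 0, -1, 0, 0, 0, 0, 0, 0, 0, 0, -1, 0, 1, 0, 0, 0, 1],
   [0, 0, 0, 0, 0, 0, 0, -1, 0, -1, 0, 0, 1, 1, 0, 0, 0, 0, 1, 0, 1, -1, -1, 0],
   [0, 0, 0, 0, 1, 0, -1, 0, 0, 0, 0, 0, 0, 0, 1, 0, 0, 0, 0, 0, 0, 0, 0, -1],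
   [0, 0, 0, -1, 0, -1, 0, 0, 0, 0, 0, 0, -1, -1, 0, 1, 1, 0, 0, 0, 0, 1, 1, 0],
   [0, 0, 0, 0, 1, 0, -1, 0, 0, 0, 0, 0, 0, 0, 1, 0, 0, 0, 0, 0, 0, 0, 0, -1],
   [0, 1, 0, 0, 0, 0, 0, 0, 0, 0, 0, 0, 0, 0, -1, 0, 0, -1, 0, 1, 0, 0, 0, 0],
   [0, 1, 0, 0, 0, 0, 0, 0, 0, 0, 0, 0, 0, 0, -1, 0, 0, -1, 0, 1, 0, 0, 0, 0],
   [0, 0, 0, 0, -1, 0, 1, 0, -1, 0, 0, 0, 0, 0, 0, 0, 0, 0, 0, 0, 0, 0, 0, 1],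
   [0, 0, 0, 0, -1, 0, 1, 0, -1, 0, 0, 0, 0, 0, 0, 0, 0, 0, 0, 0, 0, 0, 0, 1],
   [1, 0, 1, 0, 0, 0, 0, 1, 0, 1, -1, -1, 0, 0, 0, 0, 0, 0, -1, 0, -1, 0, 0, 0],
   [0, -1, 0, 0, 0, 0, 0, 0, 1, 0, 0, 0, 0, 0, 0, 0, 0, 1, 0, -1, 0, 0, 0, 0],
   [0, -1, 0, 0, 0, 0, 0, 0, 1, 0, 0, 0, 0, 0, 0, 0, 0, 1, 0, -1, 0, 0, 0, 0],
   [1, 0, 1, -1, 0, -1, 0, 0, 0, 0, -1, -1, 0, 0, 0, 1, 1, 0, 0, 0, 0, 0, 0, 0],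
   [0, 1, 0, 0, -1, 0, 1, 0, 0, 0, 0, 0, 0, 0, -1, 0, 0, 0, 0, 0, 0, 0, 0, 0],
   [-1, 0, -1, 1, 0, 1, 0, 0, 0, 0, 1, 1, 0, 0, 0, -1, -1, 0, 0, 0, 0, 0, 0, 0],
   [0, 1, 0, 0, -1, 0, 1, 0, 0, 0, 0, 0, 0, 0, -1, 0, 0, 0, 0, 0, 0, 0, 0, 0],
   [0, -1, 0, 0, 1, 0, -1, 0, 1, 0, 0, 0, 0, 0, 0, 0, 0, 0, 0, 0, 0, 0, 0, 0],
   [0, -1, 0, 0, 1, 0, -1, 0, 1, 0, 0, 0, 0, 0, 0, 0, 0, 0, 0, 0, 0, 0, 0, 0],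
   [-1, 0, -1, 1, 0, 1, 0, -1, 0, -1, 0, 0, 1, 1, 0, 0, 0, 0, 0, 0, 0, 0, 0, 0]]

/-- an equilibrium stress, positive on all contacts -/
def mT : List (List ℤ) :=
  [[-6, 2, 3, 1, 1, 0, 1, 1, 2, 0, 1, 0, 2, 0, 0, 2, 0, 0, 2, 0, 0, 0, 0, 0],
   [2, -8, 2, 2, 0, 2, 4, 2, 0, 2, 0, 0, 2, 2, 0, 0, 0, 0, 0, 4, 0, 0, 0, 0],
   [3, 2, -6, 0, 1, 1, 1, 0, 2, 1, 0, 1, 0, 2, 0, 0, 2, 0, 0, 0, 2, 0, 0, 0],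
   [1, 2, 0, -6, 1, 3, 1, 2, 0, 0, 2, 0, 1, 0, 2, 1, 0, 0, 0, 0, 0, 2, 0, 0],
   [1, 0, 1, 1, -6, 1, 2, 0, 4, 0, 1, 1, 0, 0, 4, 1, 1, 0, 0, 0, 0, 0, 0, 0],
   [0, 2, 1, 3, 1, -6, 1, 0, 0, 2, 0, 2, 0, 1, 2, 0, 1, 0, 0, 0, 0, 0, 2, 0],
   [1, 4, 1, 1, 2, 1, -6, 0, 0, 0, 1, 1, 0, 0, 0, 1, 1, 0, 0, 0, 0, 0, 0, 4],
   [1, 2, 0, 2, 0, 0, 0, -6, 2, 3, 2, 0, 1, 0, 0, 0, 0, 1, 1, 1, 0, 2, 0, 0],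
   [2, 0, 2, 0, 4, 0, 0, 2, -8, 2, 2, 2, 0, 0, 0, 0, 0, 4, 2, 0, 2, 0, 0, 0],
   [0, 2, 1, 0, 0, 2, 0, 3, 2, -6, 0, 2, 0, 1, 0, 0, 0, 1, 0, 1, 1, 0, 2, 0],
   [1, 0, 0, 2, 1, 0, 1, 2, 2, 0, -6, 3, 0, 0, 0, 1, 0, 0, 1, 0, 0, 2, 0, 2],
   [0, 0, 1, 0, 1, 2, 1, 0, 2, 2, 3, -6, 0, 0, 0, 0, 1, 0, 0, 0, 1, 0, 2, 2],
   [2, 2, 0, 1, 0, 0, 0, 1, 0, 0, 0, 0, -6, 3, 2, 2, 0, 1, 2, 1, 0, 1, 0, 0],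
   [0, 2, 2, 0, 0, 1, 0, 0, 0, 1, 0, 0, 3, -6, 2, 0, 2, 1, 0, 1, 2, 0, 1, 0],
   [0, 0, 0, 2, 4, 2, 0, 0, 0, 0, 0, 0, 2, 2, -8, 2, 2, 4, 0, 0, 0, 2, 2, 0],
   [2, 0, 0, 1, 1, 0, 1, 0, 0, 0, 1, 0, 2, 0, 2, -6, 3, 0, 2, 0, 0, 1, 0, 2],
   [0, 0, 2, 0, 1, 1, 1, 0, 0, 0, 0, 1, 0, 2, 2, 3, -6, 0, 0, 0, 2, 0, 1, 2],
   [0, 0, 0, 0, 0, 0, 0, 1, 4, 1, 0, 0, 1, 1, 4, 0, 0, -6, 1, 2, 1, 1, 1, 0],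
   [2, 0, 0, 0, 0, 0, 0, 1, 2, 0, 1, 0, 2, 0, 0, 2, 0, 1, -6, 1, 3, 1, 0, 2],
   [0, 4, 0, 0, 0, 0, 0, 1, 0, 1, 0, 0, 1, 1, 0, 0, 0, 2, 1, -6, 1, 1, 1, 4],
   [0, 0, 2, 0, 0, 0, 0, 0, 2, 1, 0, 1, 0, 2, 0, 0, 2, 1, 3, 1, -6, 0, 1, 2],
   [0, 0, 0, 2, 0, 0, 0, 2, 0, 0, 2, 0, 1, 0, 2, 1, 0, 1, 1, 1, 0, -6, 3, 2],
   [0, 0, 0, 0, 0, 2, 0, 0, 0, 2, 0, 2, 0, 1, 2, 0, 1, 1, 0, 1, 1, 3, -6, 2],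
   [0, 0, 0, 0, 0, 0, 4, 0, 0, 0, 2, 2, 0, 0, 0, 2, 2, 0, 2, 4, 2, 2, 2, -8]]

/-- the flex -/
def vT : List (List ℤ) :=
  [[0, 1, 0, 3, 1, 3],
   [2, -2, 2, 0, -2, 0],
   [0, 1, 0, 3, 1, 3],
   [-1, 0, -1, -3, 0, -3],
   [3, -3, -3, 0, 3, 0],
   [-1, 0, -1, -3, 0, -3],
   [-3, 3, 3, 0, -3, 0],
   [0, 1, 0, 3, 1, 3],
   [-2, -2, -2, 0, -2, 0],
   [0, 1, 0, 3, 1, 3],
   [1, 0, 1, -3, 0, -3],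
   [1, 0, 1, -3, 0, -3],
   [-1, 0, -1, -3, 0, -3],
   [-1, 0, -1, -3, 0, -3],
   [2, 2, 2, 0, 2, 0],
   [0, -1, 0, 3, -1, 3],
   [0, -1, 0, 3, -1, 3],
   [-3, 3, 3, 0, -3, 0],
   [1, 0, 1, -3, 0, -3],
   [3, -3, -3, 0, 3, 0],
   [1, 0, 1, -3, 0, -3],
   [0, -1, 0, 3, -1, 3],
   [0, -1, 0, 3, -1, 3],
   [-2, 2, -2, 0, 2, 0]]

/-- sign vector number `i` -/
def s (i : Fin 24) (k : Fin 6) : ℤ := (sT.getD i.val []).getD k.val 0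

/-- flex vector number `i` -/
def v0 (i : Fin 24) (k : Fin 6) : ℤ := (vT.getD i.val []).getD k.val 0

/-- Gram variation -/
def d0 (i j : Fin 24) : ℤ := (dT.getD i.val []).getD j.val 0

/-- stress matrix -/
def M (i j : Fin 24) : ℤ := (mT.getD i.val []).getD j.val 0

/-- inner product of sign vectors -/
def ip (i j : Fin 24) : ℤ :=
  s i 0 * s j 0 + s i 1 * s j 1 + s i 2 * s j 2 + s i 3 * s j 3 + s i 4 * s j 4 + s i 5 * s j 5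

theorem ip_self : ∀ i, ip i i = 6 := by decide +kernel

theorem ip_le : ∀ i j, i ≠ j → ip i j ≤ 2 := by decide +kernel

theorem M_left : ∀ j k, ∑ i, M i j * s i k = 0 := by decide +kernel

theorem M_right : ∀ i k, ∑ j, M i j * s j k = 0 := by decide +kernel

theorem M_pos : ∀ i j, ip i j = 2 → 0 < M i j := by decide +kernel

theorem M_zero : ∀ i j, i ≠ j → ip i j ≠ 2 → M i j = 0 := by decide +kernel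

theorem v0_tan : ∀ i, ∑ k, s i k * v0 i k = 0 := by decide +kernel

theorem v0_con : ∀ i j, ip i j = 2 → ∑ k, s i k * v0 j k + ∑ k, s j k * v0 i k = 0 := by
  decide +kernel

theorem v0_ne : ∑ k, s 0 k * v0 14 k + ∑ k, s 14 k * v0 0 k = 12 := by decide +kernel

theorem rel (D : Fin 24 → Fin 24 → ℝ) (U ρ : Fin 24 → Fin 6 → ℝ)
    (hD : ∀ i j, D i j = ∑ k, (s i k : ℝ) * U j k + ∑ k, ρ i k * (s j k : ℝ))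
    (a b c d : Fin 24) (e : ℤ) (a' b' c' d' : Fin 24) (e' : ℤ)
    (h : (∀ k, s a k + s b k = e * (s c k + s d k)) ∧
      ∀ k, s a' k + s b' k = e' * (s c' k + s d' k)) :
    (D a a' + D a b' - e' * (D a c' + D a d')) + (D b a' + D b b' - e' * (D b c' + D b d')) -
      e * ((D c a' + D c b' - e' * (D c c' + D c d')) +
        (D d a' + D d b' - e' * (D d c' + D d d'))) = 0 := by
  have H : ∀ k, (s a k : ℝ) + s b k = e * (s c k + s d k) := fun k => by exact_mod_cast h.1 k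
  have H' : ∀ k, (s a' k : ℝ) + s b' k = e' * (s c' k + s d' k) :=
    fun k => by exact_mod_cast h.2 k
  simp only [hD, Fin.sum_univ_six]
  linear_combination (U a' 0 + U b' 0 - e' * (U c' 0 + U d' 0)) * H 0 +
    (U a' 1 + U b' 1 - e' * (U c' 1 + U d' 1)) * H 1 +
    (U a' 2 + U b' 2 - e' * (U c' 2 + U d' 2)) * H 2 +
    (U a' 3 + U b' 3 - e' * (U c' 3 + U d' 3)) * H 3 +
    (U a' 4 + U b' 4 - e' * (U c' 4 + U d' 4)) * H 4 +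
    (U a' 5 + U b' 5 - e' * (U c' 5 + U d' 5)) * H 5 +
    (ρ a 0 + ρ b 0 - e * (ρ c 0 + ρ d 0)) * H' 0 +
    (ρ a 1 + ρ b 1 - e * (ρ c 1 + ρ d 1)) * H' 1 +
    (ρ a 2 + ρ b 2 - e * (ρ c 2 + ρ d 2)) * H' 2 +
    (ρ a 3 + ρ b 3 - e * (ρ c 3 + ρ d 3)) * H' 3 +
    (ρ a 4 + ρ b 4 - e * (ρ c 4 + ρ d 4)) * H' 4 +
    (ρ a 5 + ρ b 5 - e * (ρ c 5 + ρ d 5)) * H' 5

theorem stress_zero (D : Fin 24 → Fin 24 → ℝ) (U ρ : Fin 24 → Fin 6 → ℝ)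
    (hD : ∀ i j, D i j = ∑ k, (s i k : ℝ) * U j k + ∑ k, ρ i k * (s j k : ℝ))
    (hd : ∀ i, D i i = 0) (hc : ∀ i j, i ≠ j → ip i j = 2 → D i j ≤ 0) :
    ∀ i j, ip i j = 2 → D i j = 0 := by
  have h1 : ∑ i, ∑ j, (M i j : ℝ) * ∑ k, (s i k : ℝ) * U j k = 0 := by
    rw [Finset.sum_comm]
    refine Finset.sum_eq_zero fun j _ => ?_
    simp only [Finset.mul_sum]
    rw [Finset.sum_comm]
    refine Finset.sum_eq_zero fun k _ => ?_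
    have : ∑ i, (M i j : ℝ) * (s i k : ℝ) = 0 := by exact_mod_cast M_left j k
    calc ∑ i, (M i j : ℝ) * ((s i k : ℝ) * U j k) = (∑ i, (M i j : ℝ) * (s i k : ℝ)) * U j k := by
          rw [Finset.sum_mul]; simp only [mul_assoc]
      _ = 0 := by rw [this, zero_mul]
  have h2 : ∑ i, ∑ j, (M i j : ℝ) * ∑ k, ρ i k * (s j k : ℝ) = 0 := by
    refine Finset.sum_eq_zero fun i _ => ?_
    simp only [Finset.mul_sum]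
    rw [Finset.sum_comm]
    refine Finset.sum_eq_zero fun k _ => ?_
    have : ∑ j, (M i j : ℝ) * (s j k : ℝ) = 0 := by exact_mod_cast M_right i k
    calc ∑ j, (M i j : ℝ) * (ρ i k * (s j k : ℝ)) = ρ i k * ∑ j, (M i j : ℝ) * (s j k : ℝ) := by
          rw [Finset.mul_sum]; exact Finset.sum_congr rfl fun _ _ => by ring
      _ = 0 := by rw [this, mul_zero]
  have h3 : ∑ i, ∑ j, (M i j : ℝ) * D i j = 0 := by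
    simp only [hD, mul_add, Finset.sum_add_distrib]
    rw [h1, h2, add_zero]
  have h4 : ∀ i j, (M i j : ℝ) * D i j ≤ 0 := by
    intro i j
    by_cases hij : i = j
    · subst hij; rw [hd, mul_zero]
    by_cases h : ip i j = 2
    · exact mul_nonpos_of_nonneg_of_nonpos (by exact_mod_cast (M_pos i j h).le) (hc i j hij h)
    · rw [M_zero i j hij h]; simp
  intro i j hij
  have h5 := (Finset.sum_eq_zero_iff_of_nonpos fun i _ =>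
    Finset.sum_nonpos fun j _ => h4 i j).mp h3 i (Finset.mem_univ i)
  have h6 := (Finset.sum_eq_zero_iff_of_nonpos fun j _ => h4 i j).mp h5 j (Finset.mem_univ j)
  have h7 : (0 : ℝ) < M i j := by exact_mod_cast M_pos i j hij
  exact (mul_eq_zero.mp h6).resolve_left h7.ne'

end Pool.Agent.H29Z.SJ
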