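import Pool.Agent.H29Z.SJ.Data

/-!
# The space of first order flexes is one dimensional
-/

set_option autoImplicit false

namespace Pool.Agent.H29Z.SJ

theorem fin24 (P : Fin 24 → Prop) (h0 : P 0) (h1 : P 1) (h2 : P 2) (h3 : P 3) (h4 : P 4) (h5 : P 5) (h6 : P 6) (h7 : P 7) (h8 : P 8) (h9 : P 9) (h10 : P 10) (h11 : P 11) (h12 : P 12) (h13 : P 13) (h14 : P 14) (h15 : P 15) (h16 : P 16) (h17 : P 17) (h18 : P 18) (h19 : P 19) (h20 : P 20) (h21 : P 21) (h22 : P 22) (h23 : P 23) : ∀ i, P i := by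
  intro i
  fin_cases i
  exacts [h0, h1, h2, h3, h4, h5, h6, h7, h8, h9, h10, h11, h12, h13, h14, h15, h16, h17, h18, h19, h20, h21, h22, h23]

section
variable {D : Fin 24 → Fin 24 → ℝ} {U ρ : Fin 24 → Fin 6 → ℝ}

/-- the hypotheses of the elimination -/
structure Hyp (D : Fin 24 → Fin 24 → ℝ) (U ρ : Fin 24 → Fin 6 → ℝ) : Prop where
  hD : ∀ i j, D i j = ∑ k, (s i k : ℝ) * U j k + ∑ k, ρ i k * (s j k : ℝ)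
  hs : ∀ i j, D i j = D j i
  hd : ∀ i, D i i = ((0 : ℤ) : ℝ) * D 0 14
  hc : ∀ i j, ip i j = 2 → D i j = ((0 : ℤ) : ℝ) * D 0 14

theorem f_0_14 (_ : Hyp D U ρ) : D 0 14 = ((1 : ℤ) : ℝ) * D 0 14 := by simp

theorem f_0_1 (H : Hyp D U ρ) : D 0 1 = ((0 : ℤ) : ℝ) * D 0 14 :=
  H.hc 0 1 (by decide +kernel)

theorem f_0_2 (H : Hyp D U ρ) : D 0 2 = ((0 : ℤ) : ℝ) * D 0 14 :=
  H.hc 0 2 (by decide +kernel)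

theorem f_0_3 (H : Hyp D U ρ) : D 0 3 = ((0 : ℤ) : ℝ) * D 0 14 :=
  H.hc 0 3 (by decide +kernel)

theorem f_0_4 (H : Hyp D U ρ) : D 0 4 = ((0 : ℤ) : ℝ) * D 0 14 :=
  H.hc 0 4 (by decide +kernel)

theorem f_0_6 (H : Hyp D U ρ) : D 0 6 = ((0 : ℤ) : ℝ) * D 0 14 :=
  H.hc 0 6 (by decide +kernel)

theorem f_0_7 (H : Hyp D U ρ) : D 0 7 = ((0 : ℤ) : ℝ) * D 0 14 :=
  H.hc 0 7 (by decide +kernel)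

theorem f_0_8 (H : Hyp D U ρ) : D 0 8 = ((0 : ℤ) : ℝ) * D 0 14 :=
  H.hc 0 8 (by decide +kernel)

theorem f_0_10 (H : Hyp D U ρ) : D 0 10 = ((0 : ℤ) : ℝ) * D 0 14 :=
  H.hc 0 10 (by decide +kernel)

theorem f_0_12 (H : Hyp D U ρ) : D 0 12 = ((0 : ℤ) : ℝ) * D 0 14 :=
  H.hc 0 12 (by decide +kernel)

theorem f_0_15 (H : Hyp D U ρ) : D 0 15 = ((0 : ℤ) : ℝ) * D 0 14 :=
  H.hc 0 15 (by decide +kernel)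

theorem f_0_18 (H : Hyp D U ρ) : D 0 18 = ((0 : ℤ) : ℝ) * D 0 14 :=
  H.hc 0 18 (by decide +kernel)

theorem f_1_2 (H : Hyp D U ρ) : D 1 2 = ((0 : ℤ) : ℝ) * D 0 14 :=
  H.hc 1 2 (by decide +kernel)

theorem f_1_3 (H : Hyp D U ρ) : D 1 3 = ((0 : ℤ) : ℝ) * D 0 14 :=
  H.hc 1 3 (by decide +kernel)

theorem f_1_5 (H : Hyp D U ρ) : D 1 5 = ((0 : ℤ) : ℝ) * D 0 14 :=
  H.hc 1 5 (by decide +kernel)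

theorem f_1_6 (H : Hyp D U ρ) : D 1 6 = ((0 : ℤ) : ℝ) * D 0 14 :=
  H.hc 1 6 (by decide +kernel)

theorem f_1_7 (H : Hyp D U ρ) : D 1 7 = ((0 : ℤ) : ℝ) * D 0 14 :=
  H.hc 1 7 (by decide +kernel)

theorem f_1_9 (H : Hyp D U ρ) : D 1 9 = ((0 : ℤ) : ℝ) * D 0 14 :=
  H.hc 1 9 (by decide +kernel)

theorem f_1_12 (H : Hyp D U ρ) : D 1 12 = ((0 : ℤ) : ℝ) * D 0 14 :=
  H.hc 1 12 (by decide +kernel)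

theorem f_1_13 (H : Hyp D U ρ) : D 1 13 = ((0 : ℤ) : ℝ) * D 0 14 :=
  H.hc 1 13 (by decide +kernel)

theorem f_1_19 (H : Hyp D U ρ) : D 1 19 = ((0 : ℤ) : ℝ) * D 0 14 :=
  H.hc 1 19 (by decide +kernel)

theorem f_2_4 (H : Hyp D U ρ) : D 2 4 = ((0 : ℤ) : ℝ) * D 0 14 :=
  H.hc 2 4 (by decide +kernel)

theorem f_2_5 (H : Hyp D U ρ) : D 2 5 = ((0 : ℤ) : ℝ) * D 0 14 :=
  H.hc 2 5 (by decide +kernel)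

theorem f_2_6 (H : Hyp D U ρ) : D 2 6 = ((0 : ℤ) : ℝ) * D 0 14 :=
  H.hc 2 6 (by decide +kernel)

theorem f_2_8 (H : Hyp D U ρ) : D 2 8 = ((0 : ℤ) : ℝ) * D 0 14 :=
  H.hc 2 8 (by decide +kernel)

theorem f_2_9 (H : Hyp D U ρ) : D 2 9 = ((0 : ℤ) : ℝ) * D 0 14 :=
  H.hc 2 9 (by decide +kernel)

theorem f_2_11 (H : Hyp D U ρ) : D 2 11 = ((0 : ℤ) : ℝ) * D 0 14 :=
  H.hc 2 11 (by decide +kernel)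

theorem f_2_13 (H : Hyp D U ρ) : D 2 13 = ((0 : ℤ) : ℝ) * D 0 14 :=
  H.hc 2 13 (by decide +kernel)

theorem f_2_16 (H : Hyp D U ρ) : D 2 16 = ((0 : ℤ) : ℝ) * D 0 14 :=
  H.hc 2 16 (by decide +kernel)

theorem f_2_20 (H : Hyp D U ρ) : D 2 20 = ((0 : ℤ) : ℝ) * D 0 14 :=
  H.hc 2 20 (by decide +kernel)

theorem f_3_4 (H : Hyp D U ρ) : D 3 4 = ((0 : ℤ) : ℝ) * D 0 14 :=
  H.hc 3 4 (by decide +kernel)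

theorem f_3_5 (H : Hyp D U ρ) : D 3 5 = ((0 : ℤ) : ℝ) * D 0 14 :=
  H.hc 3 5 (by decide +kernel)

theorem f_3_6 (H : Hyp D U ρ) : D 3 6 = ((0 : ℤ) : ℝ) * D 0 14 :=
  H.hc 3 6 (by decide +kernel)

theorem f_3_7 (H : Hyp D U ρ) : D 3 7 = ((0 : ℤ) : ℝ) * D 0 14 :=
  H.hc 3 7 (by decide +kernel)

theorem f_3_10 (H : Hyp D U ρ) : D 3 10 = ((0 : ℤ) : ℝ) * D 0 14 :=
  H.hc 3 10 (by decide +kernel)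

theorem f_3_12 (H : Hyp D U ρ) : D 3 12 = ((0 : ℤ) : ℝ) * D 0 14 :=
  H.hc 3 12 (by decide +kernel)

theorem f_3_14 (H : Hyp D U ρ) : D 3 14 = ((0 : ℤ) : ℝ) * D 0 14 :=
  H.hc 3 14 (by decide +kernel)

theorem f_3_15 (H : Hyp D U ρ) : D 3 15 = ((0 : ℤ) : ℝ) * D 0 14 :=
  H.hc 3 15 (by decide +kernel)

theorem f_3_21 (H : Hyp D U ρ) : D 3 21 = ((0 : ℤ) : ℝ) * D 0 14 :=
  H.hc 3 21 (by decide +kernel)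

theorem f_4_5 (H : Hyp D U ρ) : D 4 5 = ((0 : ℤ) : ℝ) * D 0 14 :=
  H.hc 4 5 (by decide +kernel)

theorem f_4_6 (H : Hyp D U ρ) : D 4 6 = ((0 : ℤ) : ℝ) * D 0 14 :=
  H.hc 4 6 (by decide +kernel)

theorem f_4_8 (H : Hyp D U ρ) : D 4 8 = ((0 : ℤ) : ℝ) * D 0 14 :=
  H.hc 4 8 (by decide +kernel)

theorem f_4_10 (H : Hyp D U ρ) : D 4 10 = ((0 : ℤ) : ℝ) * D 0 14 :=
  H.hc 4 10 (by decide +kernel)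

theorem f_4_11 (H : Hyp D U ρ) : D 4 11 = ((0 : ℤ) : ℝ) * D 0 14 :=
  H.hc 4 11 (by decide +kernel)

theorem f_4_14 (H : Hyp D U ρ) : D 4 14 = ((0 : ℤ) : ℝ) * D 0 14 :=
  H.hc 4 14 (by decide +kernel)

theorem f_4_15 (H : Hyp D U ρ) : D 4 15 = ((0 : ℤ) : ℝ) * D 0 14 :=
  H.hc 4 15 (by decide +kernel)

theorem f_4_16 (H : Hyp D U ρ) : D 4 16 = ((0 : ℤ) : ℝ) * D 0 14 :=
  H.hc 4 16 (by decide +kernel)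

theorem f_5_6 (H : Hyp D U ρ) : D 5 6 = ((0 : ℤ) : ℝ) * D 0 14 :=
  H.hc 5 6 (by decide +kernel)

theorem f_5_9 (H : Hyp D U ρ) : D 5 9 = ((0 : ℤ) : ℝ) * D 0 14 :=
  H.hc 5 9 (by decide +kernel)

theorem f_5_11 (H : Hyp D U ρ) : D 5 11 = ((0 : ℤ) : ℝ) * D 0 14 :=
  H.hc 5 11 (by decide +kernel)

theorem f_5_13 (H : Hyp D U ρ) : D 5 13 = ((0 : ℤ) : ℝ) * D 0 14 :=
  H.hc 5 13 (by decide +kernel)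

theorem f_5_14 (H : Hyp D U ρ) : D 5 14 = ((0 : ℤ) : ℝ) * D 0 14 :=
  H.hc 5 14 (by decide +kernel)

theorem f_5_16 (H : Hyp D U ρ) : D 5 16 = ((0 : ℤ) : ℝ) * D 0 14 :=
  H.hc 5 16 (by decide +kernel)

theorem f_5_22 (H : Hyp D U ρ) : D 5 22 = ((0 : ℤ) : ℝ) * D 0 14 :=
  H.hc 5 22 (by decide +kernel)

theorem f_6_10 (H : Hyp D U ρ) : D 6 10 = ((0 : ℤ) : ℝ) * D 0 14 :=
  H.hc 6 10 (by decide +kernel)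

theorem f_6_11 (H : Hyp D U ρ) : D 6 11 = ((0 : ℤ) : ℝ) * D 0 14 :=
  H.hc 6 11 (by decide +kernel)

theorem f_6_15 (H : Hyp D U ρ) : D 6 15 = ((0 : ℤ) : ℝ) * D 0 14 :=
  H.hc 6 15 (by decide +kernel)

theorem f_6_16 (H : Hyp D U ρ) : D 6 16 = ((0 : ℤ) : ℝ) * D 0 14 :=
  H.hc 6 16 (by decide +kernel)

theorem f_6_23 (H : Hyp D U ρ) : D 6 23 = ((0 : ℤ) : ℝ) * D 0 14 :=
  H.hc 6 23 (by decide +kernel)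

theorem f_7_8 (H : Hyp D U ρ) : D 7 8 = ((0 : ℤ) : ℝ) * D 0 14 :=
  H.hc 7 8 (by decide +kernel)

theorem f_7_9 (H : Hyp D U ρ) : D 7 9 = ((0 : ℤ) : ℝ) * D 0 14 :=
  H.hc 7 9 (by decide +kernel)

theorem f_7_10 (H : Hyp D U ρ) : D 7 10 = ((0 : ℤ) : ℝ) * D 0 14 :=
  H.hc 7 10 (by decide +kernel)

theorem f_7_12 (H : Hyp D U ρ) : D 7 12 = ((0 : ℤ) : ℝ) * D 0 14 :=
  H.hc 7 12 (by decide +kernel)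

theorem f_7_17 (H : Hyp D U ρ) : D 7 17 = ((0 : ℤ) : ℝ) * D 0 14 :=
  H.hc 7 17 (by decide +kernel)

theorem f_7_18 (H : Hyp D U ρ) : D 7 18 = ((0 : ℤ) : ℝ) * D 0 14 :=
  H.hc 7 18 (by decide +kernel)

theorem f_7_19 (H : Hyp D U ρ) : D 7 19 = ((0 : ℤ) : ℝ) * D 0 14 :=
  H.hc 7 19 (by decide +kernel)

theorem f_7_21 (H : Hyp D U ρ) : D 7 21 = ((0 : ℤ) : ℝ) * D 0 14 :=
  H.hc 7 21 (by decide +kernel)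

theorem f_8_9 (H : Hyp D U ρ) : D 8 9 = ((0 : ℤ) : ℝ) * D 0 14 :=
  H.hc 8 9 (by decide +kernel)

theorem f_8_10 (H : Hyp D U ρ) : D 8 10 = ((0 : ℤ) : ℝ) * D 0 14 :=
  H.hc 8 10 (by decide +kernel)

theorem f_8_11 (H : Hyp D U ρ) : D 8 11 = ((0 : ℤ) : ℝ) * D 0 14 :=
  H.hc 8 11 (by decide +kernel)

theorem f_8_17 (H : Hyp D U ρ) : D 8 17 = ((0 : ℤ) : ℝ) * D 0 14 :=
  H.hc 8 17 (by decide +kernel)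

theorem f_8_18 (H : Hyp D U ρ) : D 8 18 = ((0 : ℤ) : ℝ) * D 0 14 :=
  H.hc 8 18 (by decide +kernel)

theorem f_8_20 (H : Hyp D U ρ) : D 8 20 = ((0 : ℤ) : ℝ) * D 0 14 :=
  H.hc 8 20 (by decide +kernel)

theorem f_9_11 (H : Hyp D U ρ) : D 9 11 = ((0 : ℤ) : ℝ) * D 0 14 :=
  H.hc 9 11 (by decide +kernel)

theorem f_9_13 (H : Hyp D U ρ) : D 9 13 = ((0 : ℤ) : ℝ) * D 0 14 :=
  H.hc 9 13 (by decide +kernel)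

theorem f_9_17 (H : Hyp D U ρ) : D 9 17 = ((0 : ℤ) : ℝ) * D 0 14 :=
  H.hc 9 17 (by decide +kernel)

theorem f_9_19 (H : Hyp D U ρ) : D 9 19 = ((0 : ℤ) : ℝ) * D 0 14 :=
  H.hc 9 19 (by decide +kernel)

theorem f_9_20 (H : Hyp D U ρ) : D 9 20 = ((0 : ℤ) : ℝ) * D 0 14 :=
  H.hc 9 20 (by decide +kernel)

theorem f_9_22 (H : Hyp D U ρ) : D 9 22 = ((0 : ℤ) : ℝ) * D 0 14 :=
  H.hc 9 22 (by decide +kernel)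

theorem f_10_11 (H : Hyp D U ρ) : D 10 11 = ((0 : ℤ) : ℝ) * D 0 14 :=
  H.hc 10 11 (by decide +kernel)

theorem f_10_15 (H : Hyp D U ρ) : D 10 15 = ((0 : ℤ) : ℝ) * D 0 14 :=
  H.hc 10 15 (by decide +kernel)

theorem f_10_18 (H : Hyp D U ρ) : D 10 18 = ((0 : ℤ) : ℝ) * D 0 14 :=
  H.hc 10 18 (by decide +kernel)

theorem f_10_21 (H : Hyp D U ρ) : D 10 21 = ((0 : ℤ) : ℝ) * D 0 14 :=
  H.hc 10 21 (by decide +kernel)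

theorem f_10_23 (H : Hyp D U ρ) : D 10 23 = ((0 : ℤ) : ℝ) * D 0 14 :=
  H.hc 10 23 (by decide +kernel)

theorem f_11_16 (H : Hyp D U ρ) : D 11 16 = ((0 : ℤ) : ℝ) * D 0 14 :=
  H.hc 11 16 (by decide +kernel)

theorem f_11_20 (H : Hyp D U ρ) : D 11 20 = ((0 : ℤ) : ℝ) * D 0 14 :=
  H.hc 11 20 (by decide +kernel)

theorem f_11_22 (H : Hyp D U ρ) : D 11 22 = ((0 : ℤ) : ℝ) * D 0 14 :=
  H.hc 11 22 (by decide +kernel)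

theorem f_11_23 (H : Hyp D U ρ) : D 11 23 = ((0 : ℤ) : ℝ) * D 0 14 :=
  H.hc 11 23 (by decide +kernel)

theorem f_12_13 (H : Hyp D U ρ) : D 12 13 = ((0 : ℤ) : ℝ) * D 0 14 :=
  H.hc 12 13 (by decide +kernel)

theorem f_12_14 (H : Hyp D U ρ) : D 12 14 = ((0 : ℤ) : ℝ) * D 0 14 :=
  H.hc 12 14 (by decide +kernel)

theorem f_12_15 (H : Hyp D U ρ) : D 12 15 = ((0 : ℤ) : ℝ) * D 0 14 :=
  H.hc 12 15 (by decide +kernel)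

theorem f_12_17 (H : Hyp D U ρ) : D 12 17 = ((0 : ℤ) : ℝ) * D 0 14 :=
  H.hc 12 17 (by decide +kernel)

theorem f_12_18 (H : Hyp D U ρ) : D 12 18 = ((0 : ℤ) : ℝ) * D 0 14 :=
  H.hc 12 18 (by decide +kernel)

theorem f_12_19 (H : Hyp D U ρ) : D 12 19 = ((0 : ℤ) : ℝ) * D 0 14 :=
  H.hc 12 19 (by decide +kernel)

theorem f_12_21 (H : Hyp D U ρ) : D 12 21 = ((0 : ℤ) : ℝ) * D 0 14 :=
  H.hc 12 21 (by decide +kernel)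

theorem f_13_14 (H : Hyp D U ρ) : D 13 14 = ((0 : ℤ) : ℝ) * D 0 14 :=
  H.hc 13 14 (by decide +kernel)

theorem f_13_16 (H : Hyp D U ρ) : D 13 16 = ((0 : ℤ) : ℝ) * D 0 14 :=
  H.hc 13 16 (by decide +kernel)

theorem f_13_17 (H : Hyp D U ρ) : D 13 17 = ((0 : ℤ) : ℝ) * D 0 14 :=
  H.hc 13 17 (by decide +kernel)

theorem f_13_19 (H : Hyp D U ρ) : D 13 19 = ((0 : ℤ) : ℝ) * D 0 14 :=
  H.hc 13 19 (by decide +kernel)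

theorem f_13_20 (H : Hyp D U ρ) : D 13 20 = ((0 : ℤ) : ℝ) * D 0 14 :=
  H.hc 13 20 (by decide +kernel)

theorem f_13_22 (H : Hyp D U ρ) : D 13 22 = ((0 : ℤ) : ℝ) * D 0 14 :=
  H.hc 13 22 (by decide +kernel)

theorem f_14_15 (H : Hyp D U ρ) : D 14 15 = ((0 : ℤ) : ℝ) * D 0 14 :=
  H.hc 14 15 (by decide +kernel)

theorem f_14_16 (H : Hyp D U ρ) : D 14 16 = ((0 : ℤ) : ℝ) * D 0 14 :=
  H.hc 14 16 (by decide +kernel)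

theorem f_14_17 (H : Hyp D U ρ) : D 14 17 = ((0 : ℤ) : ℝ) * D 0 14 :=
  H.hc 14 17 (by decide +kernel)

theorem f_14_21 (H : Hyp D U ρ) : D 14 21 = ((0 : ℤ) : ℝ) * D 0 14 :=
  H.hc 14 21 (by decide +kernel)

theorem f_14_22 (H : Hyp D U ρ) : D 14 22 = ((0 : ℤ) : ℝ) * D 0 14 :=
  H.hc 14 22 (by decide +kernel)

theorem f_15_16 (H : Hyp D U ρ) : D 15 16 = ((0 : ℤ) : ℝ) * D 0 14 :=
  H.hc 15 16 (by decide +kernel)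

theorem f_15_18 (H : Hyp D U ρ) : D 15 18 = ((0 : ℤ) : ℝ) * D 0 14 :=
  H.hc 15 18 (by decide +kernel)

theorem f_15_21 (H : Hyp D U ρ) : D 15 21 = ((0 : ℤ) : ℝ) * D 0 14 :=
  H.hc 15 21 (by decide +kernel)

theorem f_15_23 (H : Hyp D U ρ) : D 15 23 = ((0 : ℤ) : ℝ) * D 0 14 :=
  H.hc 15 23 (by decide +kernel)

theorem f_16_20 (H : Hyp D U ρ) : D 16 20 = ((0 : ℤ) : ℝ) * D 0 14 :=
  H.hc 16 20 (by decide +kernel)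

theorem f_16_22 (H : Hyp D U ρ) : D 16 22 = ((0 : ℤ) : ℝ) * D 0 14 :=
  H.hc 16 22 (by decide +kernel)

theorem f_16_23 (H : Hyp D U ρ) : D 16 23 = ((0 : ℤ) : ℝ) * D 0 14 :=
  H.hc 16 23 (by decide +kernel)

theorem f_17_18 (H : Hyp D U ρ) : D 17 18 = ((0 : ℤ) : ℝ) * D 0 14 :=
  H.hc 17 18 (by decide +kernel)

theorem f_17_19 (H : Hyp D U ρ) : D 17 19 = ((0 : ℤ) : ℝ) * D 0 14 :=
  H.hc 17 19 (by decide +kernel)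

theorem f_17_20 (H : Hyp D U ρ) : D 17 20 = ((0 : ℤ) : ℝ) * D 0 14 :=
  H.hc 17 20 (by decide +kernel)

theorem f_17_21 (H : Hyp D U ρ) : D 17 21 = ((0 : ℤ) : ℝ) * D 0 14 :=
  H.hc 17 21 (by decide +kernel)

theorem f_17_22 (H : Hyp D U ρ) : D 17 22 = ((0 : ℤ) : ℝ) * D 0 14 :=
  H.hc 17 22 (by decide +kernel)

theorem f_18_19 (H : Hyp D U ρ) : D 18 19 = ((0 : ℤ) : ℝ) * D 0 14 :=
  H.hc 18 19 (by decide +kernel)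

theorem f_18_20 (H : Hyp D U ρ) : D 18 20 = ((0 : ℤ) : ℝ) * D 0 14 :=
  H.hc 18 20 (by decide +kernel)

theorem f_18_21 (H : Hyp D U ρ) : D 18 21 = ((0 : ℤ) : ℝ) * D 0 14 :=
  H.hc 18 21 (by decide +kernel)

theorem f_18_23 (H : Hyp D U ρ) : D 18 23 = ((0 : ℤ) : ℝ) * D 0 14 :=
  H.hc 18 23 (by decide +kernel)

theorem f_19_20 (H : Hyp D U ρ) : D 19 20 = ((0 : ℤ) : ℝ) * D 0 14 :=
  H.hc 19 20 (by decide +kernel)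

theorem f_19_21 (H : Hyp D U ρ) : D 19 21 = ((0 : ℤ) : ℝ) * D 0 14 :=
  H.hc 19 21 (by decide +kernel)

theorem f_19_22 (H : Hyp D U ρ) : D 19 22 = ((0 : ℤ) : ℝ) * D 0 14 :=
  H.hc 19 22 (by decide +kernel)

theorem f_19_23 (H : Hyp D U ρ) : D 19 23 = ((0 : ℤ) : ℝ) * D 0 14 :=
  H.hc 19 23 (by decide +kernel)

theorem f_20_22 (H : Hyp D U ρ) : D 20 22 = ((0 : ℤ) : ℝ) * D 0 14 :=
  H.hc 20 22 (by decide +kernel)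

theorem f_20_23 (H : Hyp D U ρ) : D 20 23 = ((0 : ℤ) : ℝ) * D 0 14 :=
  H.hc 20 23 (by decide +kernel)

theorem f_21_22 (H : Hyp D U ρ) : D 21 22 = ((0 : ℤ) : ℝ) * D 0 14 :=
  H.hc 21 22 (by decide +kernel)

theorem f_21_23 (H : Hyp D U ρ) : D 21 23 = ((0 : ℤ) : ℝ) * D 0 14 :=
  H.hc 21 23 (by decide +kernel)

theorem f_22_23 (H : Hyp D U ρ) : D 22 23 = ((0 : ℤ) : ℝ) * D 0 14 :=
  H.hc 22 23 (by decide +kernel)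

theorem f_0_5 (H : Hyp D U ρ) : D 0 5 = ((0 : ℤ) : ℝ) * D 0 14 := by
  linear_combination (1 / 2 : ℝ) * rel D U ρ H.hD 0 5 1 4 1 0 5 2 3 1 (by decide +kernel) +
    (-1 / 2 : ℝ) * H.hs 5 0 +
    (1 / 2 : ℝ) * H.hs 5 2 +
    (1 / 2 : ℝ) * H.hs 5 3 +
    (1 / 2 : ℝ) * H.hs 1 0 +
    (1 / 2 : ℝ) * H.hs 4 0 +
    (-1 / 2 : ℝ) * H.hs 4 2 +
    (-1 / 2 : ℝ) * H.hs 4 3 +
    (-1 / 2 : ℝ) * H.hd 0 +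
    (1 / 2 : ℝ) * f_0_2 H +
    (1 / 2 : ℝ) * f_0_3 H +
    (-1 / 2 : ℝ) * H.hd 5 +
    (1 / 2 : ℝ) * f_2_5 H +
    (1 / 2 : ℝ) * f_3_5 H +
    (1 / 2 : ℝ) * f_0_1 H +
    (1 / 2 : ℝ) * f_1_5 H +
    (-1 / 2 : ℝ) * f_1_2 H +
    (-1 / 2 : ℝ) * f_1_3 H +
    (1 / 2 : ℝ) * f_0_4 H +
    (1 / 2 : ℝ) * f_4_5 H +
    (-1 / 2 : ℝ) * f_2_4 H +
    (-1 / 2 : ℝ) * f_3_4 H

theorem f_1_4 (H : Hyp D U ρ) : D 1 4 = ((0 : ℤ) : ℝ) * D 0 14 := by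
  linear_combination (-1 / 2 : ℝ) * rel D U ρ H.hD 0 5 1 4 1 1 4 2 3 1 (by decide +kernel) +
    (1 / 2 : ℝ) * H.hs 5 1 +
    (1 / 2 : ℝ) * H.hs 5 4 +
    (-1 / 2 : ℝ) * H.hs 5 2 +
    (-1 / 2 : ℝ) * H.hs 5 3 +
    (-1 / 2 : ℝ) * H.hs 4 1 +
    (1 / 2 : ℝ) * H.hs 4 2 +
    (1 / 2 : ℝ) * H.hs 4 3 +
    (1 / 2 : ℝ) * f_0_1 H +
    (1 / 2 : ℝ) * f_0_4 H +
    (-1 / 2 : ℝ) * f_0_2 H +
    (-1 / 2 : ℝ) * f_0_3 H +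
    (1 / 2 : ℝ) * f_1_5 H +
    (1 / 2 : ℝ) * f_4_5 H +
    (-1 / 2 : ℝ) * f_2_5 H +
    (-1 / 2 : ℝ) * f_3_5 H +
    (-1 / 2 : ℝ) * H.hd 1 +
    (1 / 2 : ℝ) * f_1_2 H +
    (1 / 2 : ℝ) * f_1_3 H +
    (-1 / 2 : ℝ) * H.hd 4 +
    (1 / 2 : ℝ) * f_2_4 H +
    (1 / 2 : ℝ) * f_3_4 H

theorem f_2_3 (H : Hyp D U ρ) : D 2 3 = ((0 : ℤ) : ℝ) * D 0 14 := by
  linear_combination (1 / 2 : ℝ) * rel D U ρ H.hD 0 5 2 3 1 1 4 2 3 1 (by decide +kernel) +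
    (-1 / 2 : ℝ) * H.hs 5 1 +
    (-1 / 2 : ℝ) * H.hs 5 4 +
    (1 / 2 : ℝ) * H.hs 5 2 +
    (1 / 2 : ℝ) * H.hs 5 3 +
    (1 / 2 : ℝ) * H.hs 2 1 +
    (1 / 2 : ℝ) * H.hs 3 1 +
    (-1 / 2 : ℝ) * H.hs 3 2 +
    (-1 / 2 : ℝ) * f_0_1 H +
    (-1 / 2 : ℝ) * f_0_4 H +
    (1 / 2 : ℝ) * f_0_2 H +
    (1 / 2 : ℝ) * f_0_3 H +
    (-1 / 2 : ℝ) * f_1_5 H +
    (-1 / 2 : ℝ) * f_4_5 H +
    (1 / 2 : ℝ) * f_2_5 H +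
    (1 / 2 : ℝ) * f_3_5 H +
    (1 / 2 : ℝ) * f_1_2 H +
    (1 / 2 : ℝ) * f_2_4 H +
    (-1 / 2 : ℝ) * H.hd 2 +
    (1 / 2 : ℝ) * f_1_3 H +
    (1 / 2 : ℝ) * f_3_4 H +
    (-1 / 2 : ℝ) * H.hd 3

theorem f_0_9 (H : Hyp D U ρ) : D 0 9 = ((0 : ℤ) : ℝ) * D 0 14 := by
  linear_combination (1 / 2 : ℝ) * rel D U ρ H.hD 0 9 1 8 1 0 9 2 7 1 (by decide +kernel) +
    (-1 / 2 : ℝ) * H.hs 9 0 +
    (1 / 2 : ℝ) * H.hs 9 2 +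
    (1 / 2 : ℝ) * H.hs 9 7 +
    (1 / 2 : ℝ) * H.hs 1 0 +
    (1 / 2 : ℝ) * H.hs 8 0 +
    (-1 / 2 : ℝ) * H.hs 8 2 +
    (-1 / 2 : ℝ) * H.hs 8 7 +
    (-1 / 2 : ℝ) * H.hd 0 +
    (1 / 2 : ℝ) * f_0_2 H +
    (1 / 2 : ℝ) * f_0_7 H +
    (-1 / 2 : ℝ) * H.hd 9 +
    (1 / 2 : ℝ) * f_2_9 H +
    (1 / 2 : ℝ) * f_7_9 H +
    (1 / 2 : ℝ) * f_0_1 H +
    (1 / 2 : ℝ) * f_1_9 H +
    (-1 / 2 : ℝ) * f_1_2 H +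
    (-1 / 2 : ℝ) * f_1_7 H +
    (1 / 2 : ℝ) * f_0_8 H +
    (1 / 2 : ℝ) * f_8_9 H +
    (-1 / 2 : ℝ) * f_2_8 H +
    (-1 / 2 : ℝ) * f_7_8 H

theorem f_1_8 (H : Hyp D U ρ) : D 1 8 = ((0 : ℤ) : ℝ) * D 0 14 := by
  linear_combination (-1 / 2 : ℝ) * rel D U ρ H.hD 0 9 1 8 1 1 8 2 7 1 (by decide +kernel) +
    (1 / 2 : ℝ) * H.hs 9 1 +
    (1 / 2 : ℝ) * H.hs 9 8 +
    (-1 / 2 : ℝ) * H.hs 9 2 +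
    (-1 / 2 : ℝ) * H.hs 9 7 +
    (-1 / 2 : ℝ) * H.hs 8 1 +
    (1 / 2 : ℝ) * H.hs 8 2 +
    (1 / 2 : ℝ) * H.hs 8 7 +
    (1 / 2 : ℝ) * f_0_1 H +
    (1 / 2 : ℝ) * f_0_8 H +
    (-1 / 2 : ℝ) * f_0_2 H +
    (-1 / 2 : ℝ) * f_0_7 H +
    (1 / 2 : ℝ) * f_1_9 H +
    (1 / 2 : ℝ) * f_8_9 H +
    (-1 / 2 : ℝ) * f_2_9 H +
    (-1 / 2 : ℝ) * f_7_9 H +
    (-1 / 2 : ℝ) * H.hd 1 +
    (1 / 2 : ℝ) * f_1_2 H +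
    (1 / 2 : ℝ) * f_1_7 H +
    (-1 / 2 : ℝ) * H.hd 8 +
    (1 / 2 : ℝ) * f_2_8 H +
    (1 / 2 : ℝ) * f_7_8 H

theorem f_2_7 (H : Hyp D U ρ) : D 2 7 = ((0 : ℤ) : ℝ) * D 0 14 := by
  linear_combination (1 / 2 : ℝ) * rel D U ρ H.hD 0 9 2 7 1 1 8 2 7 1 (by decide +kernel) +
    (-1 / 2 : ℝ) * H.hs 9 1 +
    (-1 / 2 : ℝ) * H.hs 9 8 +
    (1 / 2 : ℝ) * H.hs 9 2 +
    (1 / 2 : ℝ) * H.hs 9 7 +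
    (1 / 2 : ℝ) * H.hs 2 1 +
    (1 / 2 : ℝ) * H.hs 7 1 +
    (-1 / 2 : ℝ) * H.hs 7 2 +
    (-1 / 2 : ℝ) * f_0_1 H +
    (-1 / 2 : ℝ) * f_0_8 H +
    (1 / 2 : ℝ) * f_0_2 H +
    (1 / 2 : ℝ) * f_0_7 H +
    (-1 / 2 : ℝ) * f_1_9 H +
    (-1 / 2 : ℝ) * f_8_9 H +
    (1 / 2 : ℝ) * f_2_9 H +
    (1 / 2 : ℝ) * f_7_9 H +
    (1 / 2 : ℝ) * f_1_2 H +
    (1 / 2 : ℝ) * f_2_8 H +
    (-1 / 2 : ℝ) * H.hd 2 +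
    (1 / 2 : ℝ) * f_1_7 H +
    (1 / 2 : ℝ) * f_7_8 H +
    (-1 / 2 : ℝ) * H.hd 7

theorem f_0_11 (H : Hyp D U ρ) : D 0 11 = ((0 : ℤ) : ℝ) * D 0 14 := by
  linear_combination (1 / 2 : ℝ) * rel D U ρ H.hD 0 11 2 10 1 0 11 6 8 1 (by decide +kernel) +
    (-1 / 2 : ℝ) * H.hs 11 0 +
    (1 / 2 : ℝ) * H.hs 11 6 +
    (1 / 2 : ℝ) * H.hs 11 8 +
    (1 / 2 : ℝ) * H.hs 2 0 +
    (1 / 2 : ℝ) * H.hs 10 0 +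
    (-1 / 2 : ℝ) * H.hs 10 6 +
    (-1 / 2 : ℝ) * H.hs 10 8 +
    (-1 / 2 : ℝ) * H.hd 0 +
    (1 / 2 : ℝ) * f_0_6 H +
    (1 / 2 : ℝ) * f_0_8 H +
    (-1 / 2 : ℝ) * H.hd 11 +
    (1 / 2 : ℝ) * f_6_11 H +
    (1 / 2 : ℝ) * f_8_11 H +
    (1 / 2 : ℝ) * f_0_2 H +
    (1 / 2 : ℝ) * f_2_11 H +
    (-1 / 2 : ℝ) * f_2_6 H +
    (-1 / 2 : ℝ) * f_2_8 H +
    (1 / 2 : ℝ) * f_0_10 H +
    (1 / 2 : ℝ) * f_10_11 H +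
    (-1 / 2 : ℝ) * f_6_10 H +
    (-1 / 2 : ℝ) * f_8_10 H

theorem f_2_10 (H : Hyp D U ρ) : D 2 10 = ((0 : ℤ) : ℝ) * D 0 14 := by
  linear_combination (-1 / 2 : ℝ) * rel D U ρ H.hD 0 11 2 10 1 2 10 6 8 1 (by decide +kernel) +
    (1 / 2 : ℝ) * H.hs 11 2 +
    (1 / 2 : ℝ) * H.hs 11 10 +
    (-1 / 2 : ℝ) * H.hs 11 6 +
    (-1 / 2 : ℝ) * H.hs 11 8 +
    (-1 / 2 : ℝ) * H.hs 10 2 +
    (1 / 2 : ℝ) * H.hs 10 6 +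
    (1 / 2 : ℝ) * H.hs 10 8 +
    (1 / 2 : ℝ) * f_0_2 H +
    (1 / 2 : ℝ) * f_0_10 H +
    (-1 / 2 : ℝ) * f_0_6 H +
    (-1 / 2 : ℝ) * f_0_8 H +
    (1 / 2 : ℝ) * f_2_11 H +
    (1 / 2 : ℝ) * f_10_11 H +
    (-1 / 2 : ℝ) * f_6_11 H +
    (-1 / 2 : ℝ) * f_8_11 H +
    (-1 / 2 : ℝ) * H.hd 2 +
    (1 / 2 : ℝ) * f_2_6 H +
    (1 / 2 : ℝ) * f_2_8 H +
    (-1 / 2 : ℝ) * H.hd 10 +
    (1 / 2 : ℝ) * f_6_10 H +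
    (1 / 2 : ℝ) * f_8_10 H

theorem f_6_8 (H : Hyp D U ρ) : D 6 8 = ((0 : ℤ) : ℝ) * D 0 14 := by
  linear_combination (1 / 2 : ℝ) * rel D U ρ H.hD 0 11 6 8 1 2 10 6 8 1 (by decide +kernel) +
    (-1 / 2 : ℝ) * H.hs 11 2 +
    (-1 / 2 : ℝ) * H.hs 11 10 +
    (1 / 2 : ℝ) * H.hs 11 6 +
    (1 / 2 : ℝ) * H.hs 11 8 +
    (1 / 2 : ℝ) * H.hs 6 2 +
    (1 / 2 : ℝ) * H.hs 8 2 +
    (-1 / 2 : ℝ) * H.hs 8 6 +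
    (-1 / 2 : ℝ) * f_0_2 H +
    (-1 / 2 : ℝ) * f_0_10 H +
    (1 / 2 : ℝ) * f_0_6 H +
    (1 / 2 : ℝ) * f_0_8 H +
    (-1 / 2 : ℝ) * f_2_11 H +
    (-1 / 2 : ℝ) * f_10_11 H +
    (1 / 2 : ℝ) * f_6_11 H +
    (1 / 2 : ℝ) * f_8_11 H +
    (1 / 2 : ℝ) * f_2_6 H +
    (1 / 2 : ℝ) * f_6_10 H +
    (-1 / 2 : ℝ) * H.hd 6 +
    (1 / 2 : ℝ) * f_2_8 H +
    (1 / 2 : ℝ) * f_8_10 H +
    (-1 / 2 : ℝ) * H.hd 8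

theorem f_0_21 (H : Hyp D U ρ) : D 0 21 = ((0 : ℤ) : ℝ) * D 0 14 := by
  linear_combination (1 / 2 : ℝ) * rel D U ρ H.hD 0 21 3 18 1 0 21 7 15 1 (by decide +kernel) +
    (-1 / 2 : ℝ) * H.hs 21 0 +
    (1 / 2 : ℝ) * H.hs 21 7 +
    (1 / 2 : ℝ) * H.hs 21 15 +
    (1 / 2 : ℝ) * H.hs 3 0 +
    (1 / 2 : ℝ) * H.hs 18 0 +
    (-1 / 2 : ℝ) * H.hs 18 7 +
    (-1 / 2 : ℝ) * H.hs 18 15 +
    (-1 / 2 : ℝ) * H.hd 0 +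
    (1 / 2 : ℝ) * f_0_7 H +
    (1 / 2 : ℝ) * f_0_15 H +
    (-1 / 2 : ℝ) * H.hd 21 +
    (1 / 2 : ℝ) * f_7_21 H +
    (1 / 2 : ℝ) * f_15_21 H +
    (1 / 2 : ℝ) * f_0_3 H +
    (1 / 2 : ℝ) * f_3_21 H +
    (-1 / 2 : ℝ) * f_3_7 H +
    (-1 / 2 : ℝ) * f_3_15 H +
    (1 / 2 : ℝ) * f_0_18 H +
    (1 / 2 : ℝ) * f_18_21 H +
    (-1 / 2 : ℝ) * f_7_18 H +
    (-1 / 2 : ℝ) * f_15_18 H

theorem f_3_18 (H : Hyp D U ρ) : D 3 18 = ((0 : ℤ) : ℝ) * D 0 14 := by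
  linear_combination (-1 / 2 : ℝ) * rel D U ρ H.hD 0 21 3 18 1 3 18 7 15 1 (by decide +kernel) +
    (1 / 2 : ℝ) * H.hs 21 3 +
    (1 / 2 : ℝ) * H.hs 21 18 +
    (-1 / 2 : ℝ) * H.hs 21 7 +
    (-1 / 2 : ℝ) * H.hs 21 15 +
    (-1 / 2 : ℝ) * H.hs 18 3 +
    (1 / 2 : ℝ) * H.hs 18 7 +
    (1 / 2 : ℝ) * H.hs 18 15 +
    (1 / 2 : ℝ) * f_0_3 H +
    (1 / 2 : ℝ) * f_0_18 H +
    (-1 / 2 : ℝ) * f_0_7 H +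
    (-1 / 2 : ℝ) * f_0_15 H +
    (1 / 2 : ℝ) * f_3_21 H +
    (1 / 2 : ℝ) * f_18_21 H +
    (-1 / 2 : ℝ) * f_7_21 H +
    (-1 / 2 : ℝ) * f_15_21 H +
    (-1 / 2 : ℝ) * H.hd 3 +
    (1 / 2 : ℝ) * f_3_7 H +
    (1 / 2 : ℝ) * f_3_15 H +
    (-1 / 2 : ℝ) * H.hd 18 +
    (1 / 2 : ℝ) * f_7_18 H +
    (1 / 2 : ℝ) * f_15_18 H

theorem f_7_15 (H : Hyp D U ρ) : D 7 15 = ((0 : ℤ) : ℝ) * D 0 14 := by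
  linear_combination (1 / 2 : ℝ) * rel D U ρ H.hD 0 21 7 15 1 3 18 7 15 1 (by decide +kernel) +
    (-1 / 2 : ℝ) * H.hs 21 3 +
    (-1 / 2 : ℝ) * H.hs 21 18 +
    (1 / 2 : ℝ) * H.hs 21 7 +
    (1 / 2 : ℝ) * H.hs 21 15 +
    (1 / 2 : ℝ) * H.hs 7 3 +
    (1 / 2 : ℝ) * H.hs 15 3 +
    (-1 / 2 : ℝ) * H.hs 15 7 +
    (-1 / 2 : ℝ) * f_0_3 H +
    (-1 / 2 : ℝ) * f_0_18 H +
    (1 / 2 : ℝ) * f_0_7 H +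
    (1 / 2 : ℝ) * f_0_15 H +
    (-1 / 2 : ℝ) * f_3_21 H +
    (-1 / 2 : ℝ) * f_18_21 H +
    (1 / 2 : ℝ) * f_7_21 H +
    (1 / 2 : ℝ) * f_15_21 H +
    (1 / 2 : ℝ) * f_3_7 H +
    (1 / 2 : ℝ) * f_7_18 H +
    (-1 / 2 : ℝ) * H.hd 7 +
    (1 / 2 : ℝ) * f_3_15 H +
    (1 / 2 : ℝ) * f_15_18 H +
    (-1 / 2 : ℝ) * H.hd 15

theorem f_10_12 (H : Hyp D U ρ) : D 10 12 = ((0 : ℤ) : ℝ) * D 0 14 := by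
  linear_combination (1 / 2 : ℝ) * rel D U ρ H.hD 0 21 10 12 1 3 18 10 12 1 (by decide +kernel) +
    (-1 / 2 : ℝ) * H.hs 21 3 +
    (-1 / 2 : ℝ) * H.hs 21 18 +
    (1 / 2 : ℝ) * H.hs 21 10 +
    (1 / 2 : ℝ) * H.hs 21 12 +
    (1 / 2 : ℝ) * H.hs 10 3 +
    (1 / 2 : ℝ) * H.hs 12 3 +
    (-1 / 2 : ℝ) * H.hs 12 10 +
    (-1 / 2 : ℝ) * f_0_3 H +
    (-1 / 2 : ℝ) * f_0_18 H +
    (1 / 2 : ℝ) * f_0_10 H +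
    (1 / 2 : ℝ) * f_0_12 H +
    (-1 / 2 : ℝ) * f_3_21 H +
    (-1 / 2 : ℝ) * f_18_21 H +
    (1 / 2 : ℝ) * f_10_21 H +
    (1 / 2 : ℝ) * f_12_21 H +
    (1 / 2 : ℝ) * f_3_10 H +
    (1 / 2 : ℝ) * f_10_18 H +
    (-1 / 2 : ℝ) * H.hd 10 +
    (1 / 2 : ℝ) * f_3_12 H +
    (1 / 2 : ℝ) * f_12_18 H +
    (-1 / 2 : ℝ) * H.hd 12

theorem f_1_14 (H : Hyp D U ρ) : D 1 14 = ((0 : ℤ) : ℝ) * D 0 14 := by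
  linear_combination (1 / 2 : ℝ) * rel D U ρ H.hD 1 14 3 13 1 1 14 5 12 1 (by decide +kernel) +
    (-1 / 2 : ℝ) * H.hs 14 1 +
    (1 / 2 : ℝ) * H.hs 14 5 +
    (1 / 2 : ℝ) * H.hs 14 12 +
    (1 / 2 : ℝ) * H.hs 3 1 +
    (1 / 2 : ℝ) * H.hs 13 1 +
    (-1 / 2 : ℝ) * H.hs 13 5 +
    (-1 / 2 : ℝ) * H.hs 13 12 +
    (-1 / 2 : ℝ) * H.hd 1 +
    (1 / 2 : ℝ) * f_1_5 H +
    (1 / 2 : ℝ) * f_1_12 H +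
    (-1 / 2 : ℝ) * H.hd 14 +
    (1 / 2 : ℝ) * f_5_14 H +
    (1 / 2 : ℝ) * f_12_14 H +
    (1 / 2 : ℝ) * f_1_3 H +
    (1 / 2 : ℝ) * f_3_14 H +
    (-1 / 2 : ℝ) * f_3_5 H +
    (-1 / 2 : ℝ) * f_3_12 H +
    (1 / 2 : ℝ) * f_1_13 H +
    (1 / 2 : ℝ) * f_13_14 H +
    (-1 / 2 : ℝ) * f_5_13 H +
    (-1 / 2 : ℝ) * f_12_13 H

theorem f_3_13 (H : Hyp D U ρ) : D 3 13 = ((0 : ℤ) : ℝ) * D 0 14 := by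
  linear_combination (-1 / 2 : ℝ) * rel D U ρ H.hD 1 14 3 13 1 3 13 5 12 1 (by decide +kernel) +
    (1 / 2 : ℝ) * H.hs 14 3 +
    (1 / 2 : ℝ) * H.hs 14 13 +
    (-1 / 2 : ℝ) * H.hs 14 5 +
    (-1 / 2 : ℝ) * H.hs 14 12 +
    (-1 / 2 : ℝ) * H.hs 13 3 +
    (1 / 2 : ℝ) * H.hs 13 5 +
    (1 / 2 : ℝ) * H.hs 13 12 +
    (1 / 2 : ℝ) * f_1_3 H +
    (1 / 2 : ℝ) * f_1_13 H +
    (-1 / 2 : ℝ) * f_1_5 H +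
    (-1 / 2 : ℝ) * f_1_12 H +
    (1 / 2 : ℝ) * f_3_14 H +
    (1 / 2 : ℝ) * f_13_14 H +
    (-1 / 2 : ℝ) * f_5_14 H +
    (-1 / 2 : ℝ) * f_12_14 H +
    (-1 / 2 : ℝ) * H.hd 3 +
    (1 / 2 : ℝ) * f_3_5 H +
    (1 / 2 : ℝ) * f_3_12 H +
    (-1 / 2 : ℝ) * H.hd 13 +
    (1 / 2 : ℝ) * f_5_13 H +
    (1 / 2 : ℝ) * f_12_13 H

theorem f_5_12 (H : Hyp D U ρ) : D 5 12 = ((0 : ℤ) : ℝ) * D 0 14 := by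
  linear_combination (1 / 2 : ℝ) * rel D U ρ H.hD 1 14 5 12 1 3 13 5 12 1 (by decide +kernel) +
    (-1 / 2 : ℝ) * H.hs 14 3 +
    (-1 / 2 : ℝ) * H.hs 14 13 +
    (1 / 2 : ℝ) * H.hs 14 5 +
    (1 / 2 : ℝ) * H.hs 14 12 +
    (1 / 2 : ℝ) * H.hs 5 3 +
    (1 / 2 : ℝ) * H.hs 12 3 +
    (-1 / 2 : ℝ) * H.hs 12 5 +
    (-1 / 2 : ℝ) * f_1_3 H +
    (-1 / 2 : ℝ) * f_1_13 H +
    (1 / 2 : ℝ) * f_1_5 H +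
    (1 / 2 : ℝ) * f_1_12 H +
    (-1 / 2 : ℝ) * f_3_14 H +
    (-1 / 2 : ℝ) * f_13_14 H +
    (1 / 2 : ℝ) * f_5_14 H +
    (1 / 2 : ℝ) * f_12_14 H +
    (1 / 2 : ℝ) * f_3_5 H +
    (1 / 2 : ℝ) * f_5_13 H +
    (-1 / 2 : ℝ) * H.hd 5 +
    (1 / 2 : ℝ) * f_3_12 H +
    (1 / 2 : ℝ) * f_12_13 H +
    (-1 / 2 : ℝ) * H.hd 12

theorem f_1_17 (H : Hyp D U ρ) : D 1 17 = ((0 : ℤ) : ℝ) * D 0 14 := by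
  linear_combination (1 / 2 : ℝ) * rel D U ρ H.hD 1 17 7 13 1 1 17 9 12 1 (by decide +kernel) +
    (-1 / 2 : ℝ) * H.hs 17 1 +
    (1 / 2 : ℝ) * H.hs 17 9 +
    (1 / 2 : ℝ) * H.hs 17 12 +
    (1 / 2 : ℝ) * H.hs 7 1 +
    (1 / 2 : ℝ) * H.hs 13 1 +
    (-1 / 2 : ℝ) * H.hs 13 9 +
    (-1 / 2 : ℝ) * H.hs 13 12 +
    (-1 / 2 : ℝ) * H.hd 1 +
    (1 / 2 : ℝ) * f_1_9 H +
    (1 / 2 : ℝ) * f_1_12 H +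
    (-1 / 2 : ℝ) * H.hd 17 +
    (1 / 2 : ℝ) * f_9_17 H +
    (1 / 2 : ℝ) * f_12_17 H +
    (1 / 2 : ℝ) * f_1_7 H +
    (1 / 2 : ℝ) * f_7_17 H +
    (-1 / 2 : ℝ) * f_7_9 H +
    (-1 / 2 : ℝ) * f_7_12 H +
    (1 / 2 : ℝ) * f_1_13 H +
    (1 / 2 : ℝ) * f_13_17 H +
    (-1 / 2 : ℝ) * f_9_13 H +
    (-1 / 2 : ℝ) * f_12_13 H

theorem f_7_13 (H : Hyp D U ρ) : D 7 13 = ((0 : ℤ) : ℝ) * D 0 14 := by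
  linear_combination (-1 / 2 : ℝ) * rel D U ρ H.hD 1 17 7 13 1 7 13 9 12 1 (by decide +kernel) +
    (1 / 2 : ℝ) * H.hs 17 7 +
    (1 / 2 : ℝ) * H.hs 17 13 +
    (-1 / 2 : ℝ) * H.hs 17 9 +
    (-1 / 2 : ℝ) * H.hs 17 12 +
    (-1 / 2 : ℝ) * H.hs 13 7 +
    (1 / 2 : ℝ) * H.hs 13 9 +
    (1 / 2 : ℝ) * H.hs 13 12 +
    (1 / 2 : ℝ) * f_1_7 H +
    (1 / 2 : ℝ) * f_1_13 H +
    (-1 / 2 : ℝ) * f_1_9 H +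
    (-1 / 2 : ℝ) * f_1_12 H +
    (1 / 2 : ℝ) * f_7_17 H +
    (1 / 2 : ℝ) * f_13_17 H +
    (-1 / 2 : ℝ) * f_9_17 H +
    (-1 / 2 : ℝ) * f_12_17 H +
    (-1 / 2 : ℝ) * H.hd 7 +
    (1 / 2 : ℝ) * f_7_9 H +
    (1 / 2 : ℝ) * f_7_12 H +
    (-1 / 2 : ℝ) * H.hd 13 +
    (1 / 2 : ℝ) * f_9_13 H +
    (1 / 2 : ℝ) * f_12_13 H

theorem f_9_12 (H : Hyp D U ρ) : D 9 12 = ((0 : ℤ) : ℝ) * D 0 14 := by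
  linear_combination (1 / 2 : ℝ) * rel D U ρ H.hD 1 17 9 12 1 7 13 9 12 1 (by decide +kernel) +
    (-1 / 2 : ℝ) * H.hs 17 7 +
    (-1 / 2 : ℝ) * H.hs 17 13 +
    (1 / 2 : ℝ) * H.hs 17 9 +
    (1 / 2 : ℝ) * H.hs 17 12 +
    (1 / 2 : ℝ) * H.hs 9 7 +
    (1 / 2 : ℝ) * H.hs 12 7 +
    (-1 / 2 : ℝ) * H.hs 12 9 +
    (-1 / 2 : ℝ) * f_1_7 H +
    (-1 / 2 : ℝ) * f_1_13 H +
    (1 / 2 : ℝ) * f_1_9 H +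
    (1 / 2 : ℝ) * f_1_12 H +
    (-1 / 2 : ℝ) * f_7_17 H +
    (-1 / 2 : ℝ) * f_13_17 H +
    (1 / 2 : ℝ) * f_9_17 H +
    (1 / 2 : ℝ) * f_12_17 H +
    (1 / 2 : ℝ) * f_7_9 H +
    (1 / 2 : ℝ) * f_9_13 H +
    (-1 / 2 : ℝ) * H.hd 9 +
    (1 / 2 : ℝ) * f_7_12 H +
    (1 / 2 : ℝ) * f_12_13 H +
    (-1 / 2 : ℝ) * H.hd 12

theorem f_2_22 (H : Hyp D U ρ) : D 2 22 = ((0 : ℤ) : ℝ) * D 0 14 := by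
  linear_combination (1 / 2 : ℝ) * rel D U ρ H.hD 2 22 5 20 1 2 22 9 16 1 (by decide +kernel) +
    (-1 / 2 : ℝ) * H.hs 22 2 +
    (1 / 2 : ℝ) * H.hs 22 9 +
    (1 / 2 : ℝ) * H.hs 22 16 +
    (1 / 2 : ℝ) * H.hs 5 2 +
    (1 / 2 : ℝ) * H.hs 20 2 +
    (-1 / 2 : ℝ) * H.hs 20 9 +
    (-1 / 2 : ℝ) * H.hs 20 16 +
    (-1 / 2 : ℝ) * H.hd 2 +
    (1 / 2 : ℝ) * f_2_9 H +
    (1 / 2 : ℝ) * f_2_16 H +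
    (-1 / 2 : ℝ) * H.hd 22 +
    (1 / 2 : ℝ) * f_9_22 H +
    (1 / 2 : ℝ) * f_16_22 H +
    (1 / 2 : ℝ) * f_2_5 H +
    (1 / 2 : ℝ) * f_5_22 H +
    (-1 / 2 : ℝ) * f_5_9 H +
    (-1 / 2 : ℝ) * f_5_16 H +
    (1 / 2 : ℝ) * f_2_20 H +
    (1 / 2 : ℝ) * f_20_22 H +
    (-1 / 2 : ℝ) * f_9_20 H +
    (-1 / 2 : ℝ) * f_16_20 H

theorem f_5_20 (H : Hyp D U ρ) : D 5 20 = ((0 : ℤ) : ℝ) * D 0 14 := by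
  linear_combination (-1 / 2 : ℝ) * rel D U ρ H.hD 2 22 5 20 1 5 20 9 16 1 (by decide +kernel) +
    (1 / 2 : ℝ) * H.hs 22 5 +
    (1 / 2 : ℝ) * H.hs 22 20 +
    (-1 / 2 : ℝ) * H.hs 22 9 +
    (-1 / 2 : ℝ) * H.hs 22 16 +
    (-1 / 2 : ℝ) * H.hs 20 5 +
    (1 / 2 : ℝ) * H.hs 20 9 +
    (1 / 2 : ℝ) * H.hs 20 16 +
    (1 / 2 : ℝ) * f_2_5 H +
    (1 / 2 : ℝ) * f_2_20 H +
    (-1 / 2 : ℝ) * f_2_9 H +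
    (-1 / 2 : ℝ) * f_2_16 H +
    (1 / 2 : ℝ) * f_5_22 H +
    (1 / 2 : ℝ) * f_20_22 H +
    (-1 / 2 : ℝ) * f_9_22 H +
    (-1 / 2 : ℝ) * f_16_22 H +
    (-1 / 2 : ℝ) * H.hd 5 +
    (1 / 2 : ℝ) * f_5_9 H +
    (1 / 2 : ℝ) * f_5_16 H +
    (-1 / 2 : ℝ) * H.hd 20 +
    (1 / 2 : ℝ) * f_9_20 H +
    (1 / 2 : ℝ) * f_16_20 H

theorem f_9_16 (H : Hyp D U ρ) : D 9 16 = ((0 : ℤ) : ℝ) * D 0 14 := by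
  linear_combination (1 / 2 : ℝ) * rel D U ρ H.hD 2 22 9 16 1 5 20 9 16 1 (by decide +kernel) +
    (-1 / 2 : ℝ) * H.hs 22 5 +
    (-1 / 2 : ℝ) * H.hs 22 20 +
    (1 / 2 : ℝ) * H.hs 22 9 +
    (1 / 2 : ℝ) * H.hs 22 16 +
    (1 / 2 : ℝ) * H.hs 9 5 +
    (1 / 2 : ℝ) * H.hs 16 5 +
    (-1 / 2 : ℝ) * H.hs 16 9 +
    (-1 / 2 : ℝ) * f_2_5 H +
    (-1 / 2 : ℝ) * f_2_20 H +
    (1 / 2 : ℝ) * f_2_9 H +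
    (1 / 2 : ℝ) * f_2_16 H +
    (-1 / 2 : ℝ) * f_5_22 H +
    (-1 / 2 : ℝ) * f_20_22 H +
    (1 / 2 : ℝ) * f_9_22 H +
    (1 / 2 : ℝ) * f_16_22 H +
    (1 / 2 : ℝ) * f_5_9 H +
    (1 / 2 : ℝ) * f_9_20 H +
    (-1 / 2 : ℝ) * H.hd 9 +
    (1 / 2 : ℝ) * f_5_16 H +
    (1 / 2 : ℝ) * f_16_20 H +
    (-1 / 2 : ℝ) * H.hd 16

theorem f_11_13 (H : Hyp D U ρ) : D 11 13 = ((0 : ℤ) : ℝ) * D 0 14 := by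
  linear_combination (1 / 2 : ℝ) * rel D U ρ H.hD 2 22 11 13 1 5 20 11 13 1 (by decide +kernel) +
    (-1 / 2 : ℝ) * H.hs 22 5 +
    (-1 / 2 : ℝ) * H.hs 22 20 +
    (1 / 2 : ℝ) * H.hs 22 11 +
    (1 / 2 : ℝ) * H.hs 22 13 +
    (1 / 2 : ℝ) * H.hs 11 5 +
    (1 / 2 : ℝ) * H.hs 13 5 +
    (-1 / 2 : ℝ) * H.hs 13 11 +
    (-1 / 2 : ℝ) * f_2_5 H +
    (-1 / 2 : ℝ) * f_2_20 H +
    (1 / 2 : ℝ) * f_2_11 H +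
    (1 / 2 : ℝ) * f_2_13 H +
    (-1 / 2 : ℝ) * f_5_22 H +
    (-1 / 2 : ℝ) * f_20_22 H +
    (1 / 2 : ℝ) * f_11_22 H +
    (1 / 2 : ℝ) * f_13_22 H +
    (1 / 2 : ℝ) * f_5_11 H +
    (1 / 2 : ℝ) * f_11_20 H +
    (-1 / 2 : ℝ) * H.hd 11 +
    (1 / 2 : ℝ) * f_5_13 H +
    (1 / 2 : ℝ) * f_13_20 H +
    (-1 / 2 : ℝ) * H.hd 13

theorem f_3_16 (H : Hyp D U ρ) : D 3 16 = ((0 : ℤ) : ℝ) * D 0 14 := by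
  linear_combination (1 / 2 : ℝ) * rel D U ρ H.hD 3 16 5 15 1 3 16 6 14 1 (by decide +kernel) +
    (-1 / 2 : ℝ) * H.hs 16 3 +
    (1 / 2 : ℝ) * H.hs 16 6 +
    (1 / 2 : ℝ) * H.hs 16 14 +
    (1 / 2 : ℝ) * H.hs 5 3 +
    (1 / 2 : ℝ) * H.hs 15 3 +
    (-1 / 2 : ℝ) * H.hs 15 6 +
    (-1 / 2 : ℝ) * H.hs 15 14 +
    (-1 / 2 : ℝ) * H.hd 3 +
    (1 / 2 : ℝ) * f_3_6 H +
    (1 / 2 : ℝ) * f_3_14 H +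
    (-1 / 2 : ℝ) * H.hd 16 +
    (1 / 2 : ℝ) * f_6_16 H +
    (1 / 2 : ℝ) * f_14_16 H +
    (1 / 2 : ℝ) * f_3_5 H +
    (1 / 2 : ℝ) * f_5_16 H +
    (-1 / 2 : ℝ) * f_5_6 H +
    (-1 / 2 : ℝ) * f_5_14 H +
    (1 / 2 : ℝ) * f_3_15 H +
    (1 / 2 : ℝ) * f_15_16 H +
    (-1 / 2 : ℝ) * f_6_15 H +
    (-1 / 2 : ℝ) * f_14_15 H

theorem f_5_15 (H : Hyp D U ρ) : D 5 15 = ((0 : ℤ) : ℝ) * D 0 14 := by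
  linear_combination (-1 / 2 : ℝ) * rel D U ρ H.hD 3 16 5 15 1 5 15 6 14 1 (by decide +kernel) +
    (1 / 2 : ℝ) * H.hs 16 5 +
    (1 / 2 : ℝ) * H.hs 16 15 +
    (-1 / 2 : ℝ) * H.hs 16 6 +
    (-1 / 2 : ℝ) * H.hs 16 14 +
    (-1 / 2 : ℝ) * H.hs 15 5 +
    (1 / 2 : ℝ) * H.hs 15 6 +
    (1 / 2 : ℝ) * H.hs 15 14 +
    (1 / 2 : ℝ) * f_3_5 H +
    (1 / 2 : ℝ) * f_3_15 H +
    (-1 / 2 : ℝ) * f_3_6 H +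
    (-1 / 2 : ℝ) * f_3_14 H +
    (1 / 2 : ℝ) * f_5_16 H +
    (1 / 2 : ℝ) * f_15_16 H +
    (-1 / 2 : ℝ) * f_6_16 H +
    (-1 / 2 : ℝ) * f_14_16 H +
    (-1 / 2 : ℝ) * H.hd 5 +
    (1 / 2 : ℝ) * f_5_6 H +
    (1 / 2 : ℝ) * f_5_14 H +
    (-1 / 2 : ℝ) * H.hd 15 +
    (1 / 2 : ℝ) * f_6_15 H +
    (1 / 2 : ℝ) * f_14_15 H

theorem f_6_14 (H : Hyp D U ρ) : D 6 14 = ((0 : ℤ) : ℝ) * D 0 14 := by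
  linear_combination (1 / 2 : ℝ) * rel D U ρ H.hD 3 16 6 14 1 5 15 6 14 1 (by decide +kernel) +
    (-1 / 2 : ℝ) * H.hs 16 5 +
    (-1 / 2 : ℝ) * H.hs 16 15 +
    (1 / 2 : ℝ) * H.hs 16 6 +
    (1 / 2 : ℝ) * H.hs 16 14 +
    (1 / 2 : ℝ) * H.hs 6 5 +
    (1 / 2 : ℝ) * H.hs 14 5 +
    (-1 / 2 : ℝ) * H.hs 14 6 +
    (-1 / 2 : ℝ) * f_3_5 H +
    (-1 / 2 : ℝ) * f_3_15 H +
    (1 / 2 : ℝ) * f_3_6 H +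
    (1 / 2 : ℝ) * f_3_14 H +
    (-1 / 2 : ℝ) * f_5_16 H +
    (-1 / 2 : ℝ) * f_15_16 H +
    (1 / 2 : ℝ) * f_6_16 H +
    (1 / 2 : ℝ) * f_14_16 H +
    (1 / 2 : ℝ) * f_5_6 H +
    (1 / 2 : ℝ) * f_6_15 H +
    (-1 / 2 : ℝ) * H.hd 6 +
    (1 / 2 : ℝ) * f_5_14 H +
    (1 / 2 : ℝ) * f_14_15 H +
    (-1 / 2 : ℝ) * H.hd 14

theorem f_4_23 (H : Hyp D U ρ) : D 4 23 = ((0 : ℤ) : ℝ) * D 0 14 := by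
  linear_combination (1 / 2 : ℝ) * rel D U ρ H.hD 4 23 10 16 1 4 23 11 15 1 (by decide +kernel) +
    (-1 / 2 : ℝ) * H.hs 23 4 +
    (1 / 2 : ℝ) * H.hs 23 11 +
    (1 / 2 : ℝ) * H.hs 23 15 +
    (1 / 2 : ℝ) * H.hs 10 4 +
    (1 / 2 : ℝ) * H.hs 16 4 +
    (-1 / 2 : ℝ) * H.hs 16 11 +
    (-1 / 2 : ℝ) * H.hs 16 15 +
    (-1 / 2 : ℝ) * H.hd 4 +
    (1 / 2 : ℝ) * f_4_11 H +
    (1 / 2 : ℝ) * f_4_15 H +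
    (-1 / 2 : ℝ) * H.hd 23 +
    (1 / 2 : ℝ) * f_11_23 H +
    (1 / 2 : ℝ) * f_15_23 H +
    (1 / 2 : ℝ) * f_4_10 H +
    (1 / 2 : ℝ) * f_10_23 H +
    (-1 / 2 : ℝ) * f_10_11 H +
    (-1 / 2 : ℝ) * f_10_15 H +
    (1 / 2 : ℝ) * f_4_16 H +
    (1 / 2 : ℝ) * f_16_23 H +
    (-1 / 2 : ℝ) * f_11_16 H +
    (-1 / 2 : ℝ) * f_15_16 H

theorem f_10_16 (H : Hyp D U ρ) : D 10 16 = ((0 : ℤ) : ℝ) * D 0 14 := by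
  linear_combination (-1 / 2 : ℝ) * rel D U ρ H.hD 4 23 10 16 1 10 16 11 15 1 (by decide +kernel) +
    (1 / 2 : ℝ) * H.hs 23 10 +
    (1 / 2 : ℝ) * H.hs 23 16 +
    (-1 / 2 : ℝ) * H.hs 23 11 +
    (-1 / 2 : ℝ) * H.hs 23 15 +
    (-1 / 2 : ℝ) * H.hs 16 10 +
    (1 / 2 : ℝ) * H.hs 16 11 +
    (1 / 2 : ℝ) * H.hs 16 15 +
    (1 / 2 : ℝ) * f_4_10 H +
    (1 / 2 : ℝ) * f_4_16 H +
    (-1 / 2 : ℝ) * f_4_11 H +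
    (-1 / 2 : ℝ) * f_4_15 H +
    (1 / 2 : ℝ) * f_10_23 H +
    (1 / 2 : ℝ) * f_16_23 H +
    (-1 / 2 : ℝ) * f_11_23 H +
    (-1 / 2 : ℝ) * f_15_23 H +
    (-1 / 2 : ℝ) * H.hd 10 +
    (1 / 2 : ℝ) * f_10_11 H +
    (1 / 2 : ℝ) * f_10_15 H +
    (-1 / 2 : ℝ) * H.hd 16 +
    (1 / 2 : ℝ) * f_11_16 H +
    (1 / 2 : ℝ) * f_15_16 H

theorem f_11_15 (H : Hyp D U ρ) : D 11 15 = ((0 : ℤ) : ℝ) * D 0 14 := by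
  linear_combination (1 / 2 : ℝ) * rel D U ρ H.hD 4 23 11 15 1 10 16 11 15 1 (by decide +kernel) +
    (-1 / 2 : ℝ) * H.hs 23 10 +
    (-1 / 2 : ℝ) * H.hs 23 16 +
    (1 / 2 : ℝ) * H.hs 23 11 +
    (1 / 2 : ℝ) * H.hs 23 15 +
    (1 / 2 : ℝ) * H.hs 11 10 +
    (1 / 2 : ℝ) * H.hs 15 10 +
    (-1 / 2 : ℝ) * H.hs 15 11 +
    (-1 / 2 : ℝ) * f_4_10 H +
    (-1 / 2 : ℝ) * f_4_16 H +
    (1 / 2 : ℝ) * f_4_11 H +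
    (1 / 2 : ℝ) * f_4_15 H +
    (-1 / 2 : ℝ) * f_10_23 H +
    (-1 / 2 : ℝ) * f_16_23 H +
    (1 / 2 : ℝ) * f_11_23 H +
    (1 / 2 : ℝ) * f_15_23 H +
    (1 / 2 : ℝ) * f_10_11 H +
    (1 / 2 : ℝ) * f_11_16 H +
    (-1 / 2 : ℝ) * H.hd 11 +
    (1 / 2 : ℝ) * f_10_15 H +
    (1 / 2 : ℝ) * f_15_16 H +
    (-1 / 2 : ℝ) * H.hd 15

theorem f_7_20 (H : Hyp D U ρ) : D 7 20 = ((0 : ℤ) : ℝ) * D 0 14 := by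
  linear_combination (1 / 2 : ℝ) * rel D U ρ H.hD 7 20 8 19 1 7 20 9 18 1 (by decide +kernel) +
    (-1 / 2 : ℝ) * H.hs 20 7 +
    (1 / 2 : ℝ) * H.hs 20 9 +
    (1 / 2 : ℝ) * H.hs 20 18 +
    (1 / 2 : ℝ) * H.hs 8 7 +
    (1 / 2 : ℝ) * H.hs 19 7 +
    (-1 / 2 : ℝ) * H.hs 19 9 +
    (-1 / 2 : ℝ) * H.hs 19 18 +
    (-1 / 2 : ℝ) * H.hd 7 +
    (1 / 2 : ℝ) * f_7_9 H +
    (1 / 2 : ℝ) * f_7_18 H +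
    (-1 / 2 : ℝ) * H.hd 20 +
    (1 / 2 : ℝ) * f_9_20 H +
    (1 / 2 : ℝ) * f_18_20 H +
    (1 / 2 : ℝ) * f_7_8 H +
    (1 / 2 : ℝ) * f_8_20 H +
    (-1 / 2 : ℝ) * f_8_9 H +
    (-1 / 2 : ℝ) * f_8_18 H +
    (1 / 2 : ℝ) * f_7_19 H +
    (1 / 2 : ℝ) * f_19_20 H +
    (-1 / 2 : ℝ) * f_9_19 H +
    (-1 / 2 : ℝ) * f_18_19 H

theorem f_8_19 (H : Hyp D U ρ) : D 8 19 = ((0 : ℤ) : ℝ) * D 0 14 := by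
  linear_combination (-1 / 2 : ℝ) * rel D U ρ H.hD 7 20 8 19 1 8 19 9 18 1 (by decide +kernel) +
    (1 / 2 : ℝ) * H.hs 20 8 +
    (1 / 2 : ℝ) * H.hs 20 19 +
    (-1 / 2 : ℝ) * H.hs 20 9 +
    (-1 / 2 : ℝ) * H.hs 20 18 +
    (-1 / 2 : ℝ) * H.hs 19 8 +
    (1 / 2 : ℝ) * H.hs 19 9 +
    (1 / 2 : ℝ) * H.hs 19 18 +
    (1 / 2 : ℝ) * f_7_8 H +
    (1 / 2 : ℝ) * f_7_19 H +
    (-1 / 2 : ℝ) * f_7_9 H +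
    (-1 / 2 : ℝ) * f_7_18 H +
    (1 / 2 : ℝ) * f_8_20 H +
    (1 / 2 : ℝ) * f_19_20 H +
    (-1 / 2 : ℝ) * f_9_20 H +
    (-1 / 2 : ℝ) * f_18_20 H +
    (-1 / 2 : ℝ) * H.hd 8 +
    (1 / 2 : ℝ) * f_8_9 H +
    (1 / 2 : ℝ) * f_8_18 H +
    (-1 / 2 : ℝ) * H.hd 19 +
    (1 / 2 : ℝ) * f_9_19 H +
    (1 / 2 : ℝ) * f_18_19 H

theorem f_9_18 (H : Hyp D U ρ) : D 9 18 = ((0 : ℤ) : ℝ) * D 0 14 := by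
  linear_combination (1 / 2 : ℝ) * rel D U ρ H.hD 7 20 9 18 1 8 19 9 18 1 (by decide +kernel) +
    (-1 / 2 : ℝ) * H.hs 20 8 +
    (-1 / 2 : ℝ) * H.hs 20 19 +
    (1 / 2 : ℝ) * H.hs 20 9 +
    (1 / 2 : ℝ) * H.hs 20 18 +
    (1 / 2 : ℝ) * H.hs 9 8 +
    (1 / 2 : ℝ) * H.hs 18 8 +
    (-1 / 2 : ℝ) * H.hs 18 9 +
    (-1 / 2 : ℝ) * f_7_8 H +
    (-1 / 2 : ℝ) * f_7_19 H +
    (1 / 2 : ℝ) * f_7_9 H +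
    (1 / 2 : ℝ) * f_7_18 H +
    (-1 / 2 : ℝ) * f_8_20 H +
    (-1 / 2 : ℝ) * f_19_20 H +
    (1 / 2 : ℝ) * f_9_20 H +
    (1 / 2 : ℝ) * f_18_20 H +
    (1 / 2 : ℝ) * f_8_9 H +
    (1 / 2 : ℝ) * f_9_19 H +
    (-1 / 2 : ℝ) * H.hd 9 +
    (1 / 2 : ℝ) * f_8_18 H +
    (1 / 2 : ℝ) * f_18_19 H +
    (-1 / 2 : ℝ) * H.hd 18

theorem f_8_23 (H : Hyp D U ρ) : D 8 23 = ((0 : ℤ) : ℝ) * D 0 14 := by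
  linear_combination (1 / 2 : ℝ) * rel D U ρ H.hD 8 23 10 20 1 8 23 11 18 1 (by decide +kernel) +
    (-1 / 2 : ℝ) * H.hs 23 8 +
    (1 / 2 : ℝ) * H.hs 23 11 +
    (1 / 2 : ℝ) * H.hs 23 18 +
    (1 / 2 : ℝ) * H.hs 10 8 +
    (1 / 2 : ℝ) * H.hs 20 8 +
    (-1 / 2 : ℝ) * H.hs 20 11 +
    (-1 / 2 : ℝ) * H.hs 20 18 +
    (-1 / 2 : ℝ) * H.hd 8 +
    (1 / 2 : ℝ) * f_8_11 H +
    (1 / 2 : ℝ) * f_8_18 H +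
    (-1 / 2 : ℝ) * H.hd 23 +
    (1 / 2 : ℝ) * f_11_23 H +
    (1 / 2 : ℝ) * f_18_23 H +
    (1 / 2 : ℝ) * f_8_10 H +
    (1 / 2 : ℝ) * f_10_23 H +
    (-1 / 2 : ℝ) * f_10_11 H +
    (-1 / 2 : ℝ) * f_10_18 H +
    (1 / 2 : ℝ) * f_8_20 H +
    (1 / 2 : ℝ) * f_20_23 H +
    (-1 / 2 : ℝ) * f_11_20 H +
    (-1 / 2 : ℝ) * f_18_20 H

theorem f_10_20 (H : Hyp D U ρ) : D 10 20 = ((0 : ℤ) : ℝ) * D 0 14 := by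
  linear_combination (-1 / 2 : ℝ) * rel D U ρ H.hD 8 23 10 20 1 10 20 11 18 1 (by decide +kernel) +
    (1 / 2 : ℝ) * H.hs 23 10 +
    (1 / 2 : ℝ) * H.hs 23 20 +
    (-1 / 2 : ℝ) * H.hs 23 11 +
    (-1 / 2 : ℝ) * H.hs 23 18 +
    (-1 / 2 : ℝ) * H.hs 20 10 +
    (1 / 2 : ℝ) * H.hs 20 11 +
    (1 / 2 : ℝ) * H.hs 20 18 +
    (1 / 2 : ℝ) * f_8_10 H +
    (1 / 2 : ℝ) * f_8_20 H +
    (-1 / 2 : ℝ) * f_8_11 H +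
    (-1 / 2 : ℝ) * f_8_18 H +
    (1 / 2 : ℝ) * f_10_23 H +
    (1 / 2 : ℝ) * f_20_23 H +
    (-1 / 2 : ℝ) * f_11_23 H +
    (-1 / 2 : ℝ) * f_18_23 H +
    (-1 / 2 : ℝ) * H.hd 10 +
    (1 / 2 : ℝ) * f_10_11 H +
    (1 / 2 : ℝ) * f_10_18 H +
    (-1 / 2 : ℝ) * H.hd 20 +
    (1 / 2 : ℝ) * f_11_20 H +
    (1 / 2 : ℝ) * f_18_20 H

theorem f_11_18 (H : Hyp D U ρ) : D 11 18 = ((0 : ℤ) : ℝ) * D 0 14 := by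
  linear_combination (1 / 2 : ℝ) * rel D U ρ H.hD 8 23 11 18 1 10 20 11 18 1 (by decide +kernel) +
    (-1 / 2 : ℝ) * H.hs 23 10 +
    (-1 / 2 : ℝ) * H.hs 23 20 +
    (1 / 2 : ℝ) * H.hs 23 11 +
    (1 / 2 : ℝ) * H.hs 23 18 +
    (1 / 2 : ℝ) * H.hs 11 10 +
    (1 / 2 : ℝ) * H.hs 18 10 +
    (-1 / 2 : ℝ) * H.hs 18 11 +
    (-1 / 2 : ℝ) * f_8_10 H +
    (-1 / 2 : ℝ) * f_8_20 H +
    (1 / 2 : ℝ) * f_8_11 H +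
    (1 / 2 : ℝ) * f_8_18 H +
    (-1 / 2 : ℝ) * f_10_23 H +
    (-1 / 2 : ℝ) * f_20_23 H +
    (1 / 2 : ℝ) * f_11_23 H +
    (1 / 2 : ℝ) * f_18_23 H +
    (1 / 2 : ℝ) * f_10_11 H +
    (1 / 2 : ℝ) * f_11_20 H +
    (-1 / 2 : ℝ) * H.hd 11 +
    (1 / 2 : ℝ) * f_10_18 H +
    (1 / 2 : ℝ) * f_18_20 H +
    (-1 / 2 : ℝ) * H.hd 18

theorem f_12_22 (H : Hyp D U ρ) : D 12 22 = ((0 : ℤ) : ℝ) * D 0 14 := by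
  linear_combination (1 / 2 : ℝ) * rel D U ρ H.hD 12 22 13 21 1 12 22 14 19 1 (by decide +kernel) +
    (-1 / 2 : ℝ) * H.hs 22 12 +
    (1 / 2 : ℝ) * H.hs 22 14 +
    (1 / 2 : ℝ) * H.hs 22 19 +
    (1 / 2 : ℝ) * H.hs 13 12 +
    (1 / 2 : ℝ) * H.hs 21 12 +
    (-1 / 2 : ℝ) * H.hs 21 14 +
    (-1 / 2 : ℝ) * H.hs 21 19 +
    (-1 / 2 : ℝ) * H.hd 12 +
    (1 / 2 : ℝ) * f_12_14 H +
    (1 / 2 : ℝ) * f_12_19 H +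
    (-1 / 2 : ℝ) * H.hd 22 +
    (1 / 2 : ℝ) * f_14_22 H +
    (1 / 2 : ℝ) * f_19_22 H +
    (1 / 2 : ℝ) * f_12_13 H +
    (1 / 2 : ℝ) * f_13_22 H +
    (-1 / 2 : ℝ) * f_13_14 H +
    (-1 / 2 : ℝ) * f_13_19 H +
    (1 / 2 : ℝ) * f_12_21 H +
    (1 / 2 : ℝ) * f_21_22 H +
    (-1 / 2 : ℝ) * f_14_21 H +
    (-1 / 2 : ℝ) * f_19_21 H

theorem f_13_21 (H : Hyp D U ρ) : D 13 21 = ((0 : ℤ) : ℝ) * D 0 14 := by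
  linear_combination (-1 / 2 : ℝ) * rel D U ρ H.hD 12 22 13 21 1 13 21 14 19 1 (by decide +kernel) +
    (1 / 2 : ℝ) * H.hs 22 13 +
    (1 / 2 : ℝ) * H.hs 22 21 +
    (-1 / 2 : ℝ) * H.hs 22 14 +
    (-1 / 2 : ℝ) * H.hs 22 19 +
    (-1 / 2 : ℝ) * H.hs 21 13 +
    (1 / 2 : ℝ) * H.hs 21 14 +
    (1 / 2 : ℝ) * H.hs 21 19 +
    (1 / 2 : ℝ) * f_12_13 H +
    (1 / 2 : ℝ) * f_12_21 H +
    (-1 / 2 : ℝ) * f_12_14 H +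
    (-1 / 2 : ℝ) * f_12_19 H +
    (1 / 2 : ℝ) * f_13_22 H +
    (1 / 2 : ℝ) * f_21_22 H +
    (-1 / 2 : ℝ) * f_14_22 H +
    (-1 / 2 : ℝ) * f_19_22 H +
    (-1 / 2 : ℝ) * H.hd 13 +
    (1 / 2 : ℝ) * f_13_14 H +
    (1 / 2 : ℝ) * f_13_19 H +
    (-1 / 2 : ℝ) * H.hd 21 +
    (1 / 2 : ℝ) * f_14_21 H +
    (1 / 2 : ℝ) * f_19_21 H

theorem f_14_19 (H : Hyp D U ρ) : D 14 19 = ((0 : ℤ) : ℝ) * D 0 14 := by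
  linear_combination (1 / 2 : ℝ) * rel D U ρ H.hD 12 22 14 19 1 13 21 14 19 1 (by decide +kernel) +
    (-1 / 2 : ℝ) * H.hs 22 13 +
    (-1 / 2 : ℝ) * H.hs 22 21 +
    (1 / 2 : ℝ) * H.hs 22 14 +
    (1 / 2 : ℝ) * H.hs 22 19 +
    (1 / 2 : ℝ) * H.hs 14 13 +
    (1 / 2 : ℝ) * H.hs 19 13 +
    (-1 / 2 : ℝ) * H.hs 19 14 +
    (-1 / 2 : ℝ) * f_12_13 H +
    (-1 / 2 : ℝ) * f_12_21 H +
    (1 / 2 : ℝ) * f_12_14 H +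
    (1 / 2 : ℝ) * f_12_19 H +
    (-1 / 2 : ℝ) * f_13_22 H +
    (-1 / 2 : ℝ) * f_21_22 H +
    (1 / 2 : ℝ) * f_14_22 H +
    (1 / 2 : ℝ) * f_19_22 H +
    (1 / 2 : ℝ) * f_13_14 H +
    (1 / 2 : ℝ) * f_14_21 H +
    (-1 / 2 : ℝ) * H.hd 14 +
    (1 / 2 : ℝ) * f_13_19 H +
    (1 / 2 : ℝ) * f_19_21 H +
    (-1 / 2 : ℝ) * H.hd 19

theorem f_14_23 (H : Hyp D U ρ) : D 14 23 = ((0 : ℤ) : ℝ) * D 0 14 := by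
  linear_combination (1 / 2 : ℝ) * rel D U ρ H.hD 14 23 15 22 1 14 23 16 21 1 (by decide +kernel) +
    (-1 / 2 : ℝ) * H.hs 23 14 +
    (1 / 2 : ℝ) * H.hs 23 16 +
    (1 / 2 : ℝ) * H.hs 23 21 +
    (1 / 2 : ℝ) * H.hs 15 14 +
    (1 / 2 : ℝ) * H.hs 22 14 +
    (-1 / 2 : ℝ) * H.hs 22 16 +
    (-1 / 2 : ℝ) * H.hs 22 21 +
    (-1 / 2 : ℝ) * H.hd 14 +
    (1 / 2 : ℝ) * f_14_16 H +
    (1 / 2 : ℝ) * f_14_21 H +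
    (-1 / 2 : ℝ) * H.hd 23 +
    (1 / 2 : ℝ) * f_16_23 H +
    (1 / 2 : ℝ) * f_21_23 H +
    (1 / 2 : ℝ) * f_14_15 H +
    (1 / 2 : ℝ) * f_15_23 H +
    (-1 / 2 : ℝ) * f_15_16 H +
    (-1 / 2 : ℝ) * f_15_21 H +
    (1 / 2 : ℝ) * f_14_22 H +
    (1 / 2 : ℝ) * f_22_23 H +
    (-1 / 2 : ℝ) * f_16_22 H +
    (-1 / 2 : ℝ) * f_21_22 H

theorem f_15_22 (H : Hyp D U ρ) : D 15 22 = ((0 : ℤ) : ℝ) * D 0 14 := by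
  linear_combination (-1 / 2 : ℝ) * rel D U ρ H.hD 14 23 15 22 1 15 22 16 21 1 (by decide +kernel) +
    (1 / 2 : ℝ) * H.hs 23 15 +
    (1 / 2 : ℝ) * H.hs 23 22 +
    (-1 / 2 : ℝ) * H.hs 23 16 +
    (-1 / 2 : ℝ) * H.hs 23 21 +
    (-1 / 2 : ℝ) * H.hs 22 15 +
    (1 / 2 : ℝ) * H.hs 22 16 +
    (1 / 2 : ℝ) * H.hs 22 21 +
    (1 / 2 : ℝ) * f_14_15 H +
    (1 / 2 : ℝ) * f_14_22 H +
    (-1 / 2 : ℝ) * f_14_16 H +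
    (-1 / 2 : ℝ) * f_14_21 H +
    (1 / 2 : ℝ) * f_15_23 H +
    (1 / 2 : ℝ) * f_22_23 H +
    (-1 / 2 : ℝ) * f_16_23 H +
    (-1 / 2 : ℝ) * f_21_23 H +
    (-1 / 2 : ℝ) * H.hd 15 +
    (1 / 2 : ℝ) * f_15_16 H +
    (1 / 2 : ℝ) * f_15_21 H +
    (-1 / 2 : ℝ) * H.hd 22 +
    (1 / 2 : ℝ) * f_16_22 H +
    (1 / 2 : ℝ) * f_21_22 H

theorem f_16_21 (H : Hyp D U ρ) : D 16 21 = ((0 : ℤ) : ℝ) * D 0 14 := by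
  linear_combination (1 / 2 : ℝ) * rel D U ρ H.hD 14 23 16 21 1 15 22 16 21 1 (by decide +kernel) +
    (-1 / 2 : ℝ) * H.hs 23 15 +
    (-1 / 2 : ℝ) * H.hs 23 22 +
    (1 / 2 : ℝ) * H.hs 23 16 +
    (1 / 2 : ℝ) * H.hs 23 21 +
    (1 / 2 : ℝ) * H.hs 16 15 +
    (1 / 2 : ℝ) * H.hs 21 15 +
    (-1 / 2 : ℝ) * H.hs 21 16 +
    (-1 / 2 : ℝ) * f_14_15 H +
    (-1 / 2 : ℝ) * f_14_22 H +
    (1 / 2 : ℝ) * f_14_16 H +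
    (1 / 2 : ℝ) * f_14_21 H +
    (-1 / 2 : ℝ) * f_15_23 H +
    (-1 / 2 : ℝ) * f_22_23 H +
    (1 / 2 : ℝ) * f_16_23 H +
    (1 / 2 : ℝ) * f_21_23 H +
    (1 / 2 : ℝ) * f_15_16 H +
    (1 / 2 : ℝ) * f_16_22 H +
    (-1 / 2 : ℝ) * H.hd 16 +
    (1 / 2 : ℝ) * f_15_21 H +
    (1 / 2 : ℝ) * f_21_22 H +
    (-1 / 2 : ℝ) * H.hd 21

theorem f_17_23 (H : Hyp D U ρ) : D 17 23 = ((0 : ℤ) : ℝ) * D 0 14 := by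
  linear_combination (1 / 2 : ℝ) * rel D U ρ H.hD 17 23 18 22 1 17 23 20 21 1 (by decide +kernel) +
    (-1 / 2 : ℝ) * H.hs 23 17 +
    (1 / 2 : ℝ) * H.hs 23 20 +
    (1 / 2 : ℝ) * H.hs 23 21 +
    (1 / 2 : ℝ) * H.hs 18 17 +
    (1 / 2 : ℝ) * H.hs 22 17 +
    (-1 / 2 : ℝ) * H.hs 22 20 +
    (-1 / 2 : ℝ) * H.hs 22 21 +
    (-1 / 2 : ℝ) * H.hd 17 +
    (1 / 2 : ℝ) * f_17_20 H +
    (1 / 2 : ℝ) * f_17_21 H +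
    (-1 / 2 : ℝ) * H.hd 23 +
    (1 / 2 : ℝ) * f_20_23 H +
    (1 / 2 : ℝ) * f_21_23 H +
    (1 / 2 : ℝ) * f_17_18 H +
    (1 / 2 : ℝ) * f_18_23 H +
    (-1 / 2 : ℝ) * f_18_20 H +
    (-1 / 2 : ℝ) * f_18_21 H +
    (1 / 2 : ℝ) * f_17_22 H +
    (1 / 2 : ℝ) * f_22_23 H +
    (-1 / 2 : ℝ) * f_20_22 H +
    (-1 / 2 : ℝ) * f_21_22 H

theorem f_18_22 (H : Hyp D U ρ) : D 18 22 = ((0 : ℤ) : ℝ) * D 0 14 := by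
  linear_combination (-1 / 2 : ℝ) * rel D U ρ H.hD 17 23 18 22 1 18 22 20 21 1 (by decide +kernel) +
    (1 / 2 : ℝ) * H.hs 23 18 +
    (1 / 2 : ℝ) * H.hs 23 22 +
    (-1 / 2 : ℝ) * H.hs 23 20 +
    (-1 / 2 : ℝ) * H.hs 23 21 +
    (-1 / 2 : ℝ) * H.hs 22 18 +
    (1 / 2 : ℝ) * H.hs 22 20 +
    (1 / 2 : ℝ) * H.hs 22 21 +
    (1 / 2 : ℝ) * f_17_18 H +
    (1 / 2 : ℝ) * f_17_22 H +
    (-1 / 2 : ℝ) * f_17_20 H +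
    (-1 / 2 : ℝ) * f_17_21 H +
    (1 / 2 : ℝ) * f_18_23 H +
    (1 / 2 : ℝ) * f_22_23 H +
    (-1 / 2 : ℝ) * f_20_23 H +
    (-1 / 2 : ℝ) * f_21_23 H +
    (-1 / 2 : ℝ) * H.hd 18 +
    (1 / 2 : ℝ) * f_18_20 H +
    (1 / 2 : ℝ) * f_18_21 H +
    (-1 / 2 : ℝ) * H.hd 22 +
    (1 / 2 : ℝ) * f_20_22 H +
    (1 / 2 : ℝ) * f_21_22 H

theorem f_20_21 (H : Hyp D U ρ) : D 20 21 = ((0 : ℤ) : ℝ) * D 0 14 := by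
  linear_combination (1 / 2 : ℝ) * rel D U ρ H.hD 17 23 20 21 1 18 22 20 21 1 (by decide +kernel) +
    (-1 / 2 : ℝ) * H.hs 23 18 +
    (-1 / 2 : ℝ) * H.hs 23 22 +
    (1 / 2 : ℝ) * H.hs 23 20 +
    (1 / 2 : ℝ) * H.hs 23 21 +
    (1 / 2 : ℝ) * H.hs 20 18 +
    (1 / 2 : ℝ) * H.hs 21 18 +
    (-1 / 2 : ℝ) * H.hs 21 20 +
    (-1 / 2 : ℝ) * f_17_18 H +
    (-1 / 2 : ℝ) * f_17_22 H +
    (1 / 2 : ℝ) * f_17_20 H +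
    (1 / 2 : ℝ) * f_17_21 H +
    (-1 / 2 : ℝ) * f_18_23 H +
    (-1 / 2 : ℝ) * f_22_23 H +
    (1 / 2 : ℝ) * f_20_23 H +
    (1 / 2 : ℝ) * f_21_23 H +
    (1 / 2 : ℝ) * f_18_20 H +
    (1 / 2 : ℝ) * f_20_22 H +
    (-1 / 2 : ℝ) * H.hd 20 +
    (1 / 2 : ℝ) * f_18_21 H +
    (1 / 2 : ℝ) * f_21_22 H +
    (-1 / 2 : ℝ) * H.hd 21

theorem f_0_22 (H : Hyp D U ρ) : D 0 22 = ((0 : ℤ) : ℝ) * D 0 14 := by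
  linear_combination (1 / 2 : ℝ) * rel D U ρ H.hD 0 22 0 0 0 0 22 0 0 0 (by decide +kernel) +
    (-1 / 2 : ℝ) * H.hs 22 0 +
    (-1 / 2 : ℝ) * H.hd 0 +
    (-1 / 2 : ℝ) * H.hd 22

theorem f_2_21 (H : Hyp D U ρ) : D 2 21 = ((0 : ℤ) : ℝ) * D 0 14 := by
  linear_combination (1 / 2 : ℝ) * rel D U ρ H.hD 2 21 0 0 0 2 21 0 0 0 (by decide +kernel) +
    (-1 / 2 : ℝ) * H.hs 21 2 +
    (-1 / 2 : ℝ) * H.hd 2 +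
    (-1 / 2 : ℝ) * H.hd 21

theorem f_3_20 (H : Hyp D U ρ) : D 3 20 = ((0 : ℤ) : ℝ) * D 0 14 := by
  linear_combination (1 / 2 : ℝ) * rel D U ρ H.hD 3 20 0 0 0 3 20 0 0 0 (by decide +kernel) +
    (-1 / 2 : ℝ) * H.hs 20 3 +
    (-1 / 2 : ℝ) * H.hd 3 +
    (-1 / 2 : ℝ) * H.hd 20

theorem f_4_19 (H : Hyp D U ρ) : D 4 19 = ((0 : ℤ) : ℝ) * D 0 14 := by
  linear_combination (1 / 2 : ℝ) * rel D U ρ H.hD 4 19 0 0 0 4 19 0 0 0 (by decide +kernel) +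
    (-1 / 2 : ℝ) * H.hs 19 4 +
    (-1 / 2 : ℝ) * H.hd 4 +
    (-1 / 2 : ℝ) * H.hd 19

theorem f_5_18 (H : Hyp D U ρ) : D 5 18 = ((0 : ℤ) : ℝ) * D 0 14 := by
  linear_combination (1 / 2 : ℝ) * rel D U ρ H.hD 5 18 0 0 0 5 18 0 0 0 (by decide +kernel) +
    (-1 / 2 : ℝ) * H.hs 18 5 +
    (-1 / 2 : ℝ) * H.hd 5 +
    (-1 / 2 : ℝ) * H.hd 18

theorem f_6_17 (H : Hyp D U ρ) : D 6 17 = ((0 : ℤ) : ℝ) * D 0 14 := by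
  linear_combination (1 / 2 : ℝ) * rel D U ρ H.hD 6 17 0 0 0 6 17 0 0 0 (by decide +kernel) +
    (-1 / 2 : ℝ) * H.hs 17 6 +
    (-1 / 2 : ℝ) * H.hd 6 +
    (-1 / 2 : ℝ) * H.hd 17

theorem f_7_16 (H : Hyp D U ρ) : D 7 16 = ((0 : ℤ) : ℝ) * D 0 14 := by
  linear_combination (1 / 2 : ℝ) * rel D U ρ H.hD 7 16 0 0 0 7 16 0 0 0 (by decide +kernel) +
    (-1 / 2 : ℝ) * H.hs 16 7 +
    (-1 / 2 : ℝ) * H.hd 7 +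
    (-1 / 2 : ℝ) * H.hd 16

theorem f_9_15 (H : Hyp D U ρ) : D 9 15 = ((0 : ℤ) : ℝ) * D 0 14 := by
  linear_combination (1 / 2 : ℝ) * rel D U ρ H.hD 9 15 0 0 0 9 15 0 0 0 (by decide +kernel) +
    (-1 / 2 : ℝ) * H.hs 15 9 +
    (-1 / 2 : ℝ) * H.hd 9 +
    (-1 / 2 : ℝ) * H.hd 15

theorem f_10_13 (H : Hyp D U ρ) : D 10 13 = ((0 : ℤ) : ℝ) * D 0 14 := by
  linear_combination (1 / 2 : ℝ) * rel D U ρ H.hD 10 13 0 0 0 10 13 0 0 0 (by decide +kernel) +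
    (-1 / 2 : ℝ) * H.hs 13 10 +
    (-1 / 2 : ℝ) * H.hd 10 +
    (-1 / 2 : ℝ) * H.hd 13

theorem f_11_12 (H : Hyp D U ρ) : D 11 12 = ((0 : ℤ) : ℝ) * D 0 14 := by
  linear_combination (1 / 2 : ℝ) * rel D U ρ H.hD 11 12 0 0 0 11 12 0 0 0 (by decide +kernel) +
    (-1 / 2 : ℝ) * H.hs 12 11 +
    (-1 / 2 : ℝ) * H.hd 11 +
    (-1 / 2 : ℝ) * H.hd 12

theorem f_4_12 (H : Hyp D U ρ) : D 4 12 = ((-1 : ℤ) : ℝ) * D 0 14 := by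
  linear_combination (1 / 2 : ℝ) * rel D U ρ H.hD 0 14 4 12 1 0 14 4 12 1 (by decide +kernel) +
    (-1 / 2 : ℝ) * H.hs 14 0 +
    (1 / 2 : ℝ) * H.hs 14 4 +
    (1 / 2 : ℝ) * H.hs 14 12 +
    (1 / 2 : ℝ) * H.hs 4 0 +
    (1 / 2 : ℝ) * H.hs 12 0 +
    (-1 / 2 : ℝ) * H.hs 12 4 +
    (-1 / 2 : ℝ) * H.hd 0 +
    (-1 : ℝ) * f_0_14 H +
    (1 : ℝ) * f_0_4 H +
    (1 : ℝ) * f_0_12 H +
    (-1 / 2 : ℝ) * H.hd 14 +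
    (1 : ℝ) * f_4_14 H +
    (1 : ℝ) * f_12_14 H +
    (-1 / 2 : ℝ) * H.hd 4 +
    (-1 / 2 : ℝ) * H.hd 12

theorem f_11_19 (H : Hyp D U ρ) : D 11 19 = ((1 : ℤ) : ℝ) * D 0 14 := by
  linear_combination (1 : ℝ) * rel D U ρ H.hD 4 19 0 0 0 11 12 0 0 0 (by decide +kernel) +
    (-1 : ℝ) * H.hs 19 11 +
    (-1 : ℝ) * H.hs 19 12 +
    (-1 : ℝ) * f_4_11 H +
    (-1 : ℝ) * f_4_12 H +
    (-1 : ℝ) * f_12_19 H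

theorem f_1_11 (H : Hyp D U ρ) : D 1 11 = ((1 : ℤ) : ℝ) * D 0 14 := by
  linear_combination (-1 : ℝ) * rel D U ρ H.hD 0 5 1 4 1 11 12 0 0 0 (by decide +kernel) +
    (1 : ℝ) * f_0_11 H +
    (1 : ℝ) * f_0_12 H +
    (1 : ℝ) * f_5_11 H +
    (1 : ℝ) * f_5_12 H +
    (-1 : ℝ) * f_1_12 H +
    (-1 : ℝ) * f_4_11 H +
    (-1 : ℝ) * f_4_12 H

theorem f_3_22 (H : Hyp D U ρ) : D 3 22 = ((0 : ℤ) : ℝ) * D 0 14 := by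
  linear_combination (-1 : ℝ) * rel D U ρ H.hD 0 5 2 3 1 0 22 0 0 0 (by decide +kernel) +
    (1 : ℝ) * H.hs 5 0 +
    (-1 : ℝ) * H.hs 2 0 +
    (-1 : ℝ) * H.hs 3 0 +
    (1 : ℝ) * H.hd 0 +
    (1 : ℝ) * f_0_22 H +
    (1 : ℝ) * f_0_5 H +
    (1 : ℝ) * f_5_22 H +
    (-1 : ℝ) * f_0_2 H +
    (-1 : ℝ) * f_2_22 H +
    (-1 : ℝ) * f_0_3 H

theorem f_5_21 (H : Hyp D U ρ) : D 5 21 = ((0 : ℤ) : ℝ) * D 0 14 := by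
  linear_combination (1 : ℝ) * rel D U ρ H.hD 0 5 2 3 1 2 21 0 0 0 (by decide +kernel) +
    (-1 : ℝ) * H.hs 5 2 +
    (1 : ℝ) * H.hs 3 2 +
    (-1 : ℝ) * f_0_2 H +
    (-1 : ℝ) * f_0_21 H +
    (-1 : ℝ) * f_2_5 H +
    (1 : ℝ) * H.hd 2 +
    (1 : ℝ) * f_2_21 H +
    (1 : ℝ) * f_2_3 H +
    (1 : ℝ) * f_3_21 H

theorem f_0_20 (H : Hyp D U ρ) : D 0 20 = ((0 : ℤ) : ℝ) * D 0 14 := by
  linear_combination (1 : ℝ) * rel D U ρ H.hD 0 5 2 3 1 3 20 0 0 0 (by decide +kernel) +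
    (-1 : ℝ) * H.hs 5 3 +
    (-1 : ℝ) * f_0_3 H +
    (-1 : ℝ) * f_3_5 H +
    (-1 : ℝ) * f_5_20 H +
    (1 : ℝ) * f_2_3 H +
    (1 : ℝ) * f_2_20 H +
    (1 : ℝ) * H.hd 3 +
    (1 : ℝ) * f_3_20 H

theorem f_2_18 (H : Hyp D U ρ) : D 2 18 = ((0 : ℤ) : ℝ) * D 0 14 := by
  linear_combination (-1 : ℝ) * rel D U ρ H.hD 0 5 2 3 1 5 18 0 0 0 (by decide +kernel) +
    (1 : ℝ) * f_0_5 H +
    (1 : ℝ) * f_0_18 H +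
    (1 : ℝ) * H.hd 5 +
    (1 : ℝ) * f_5_18 H +
    (-1 : ℝ) * f_2_5 H +
    (-1 : ℝ) * f_3_5 H +
    (-1 : ℝ) * f_3_18 H

theorem f_8_12 (H : Hyp D U ρ) : D 8 12 = ((-1 : ℤ) : ℝ) * D 0 14 := by
  linear_combination (-1 : ℝ) * rel D U ρ H.hD 0 9 1 8 1 11 12 0 0 0 (by decide +kernel) +
    (1 : ℝ) * f_0_11 H +
    (1 : ℝ) * f_0_12 H +
    (1 : ℝ) * f_9_11 H +
    (1 : ℝ) * f_9_12 H +
    (-1 : ℝ) * f_1_11 H +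
    (-1 : ℝ) * f_1_12 H +
    (-1 : ℝ) * f_8_11 H

theorem f_7_22 (H : Hyp D U ρ) : D 7 22 = ((0 : ℤ) : ℝ) * D 0 14 := by
  linear_combination (-1 : ℝ) * rel D U ρ H.hD 0 9 2 7 1 0 22 0 0 0 (by decide +kernel) +
    (1 : ℝ) * H.hs 9 0 +
    (-1 : ℝ) * H.hs 2 0 +
    (-1 : ℝ) * H.hs 7 0 +
    (1 : ℝ) * H.hd 0 +
    (1 : ℝ) * f_0_22 H +
    (1 : ℝ) * f_0_9 H +
    (1 : ℝ) * f_9_22 H +
    (-1 : ℝ) * f_0_2 H +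
    (-1 : ℝ) * f_2_22 H +
    (-1 : ℝ) * f_0_7 H

theorem f_9_21 (H : Hyp D U ρ) : D 9 21 = ((0 : ℤ) : ℝ) * D 0 14 := by
  linear_combination (1 : ℝ) * rel D U ρ H.hD 0 9 2 7 1 2 21 0 0 0 (by decide +kernel) +
    (-1 : ℝ) * H.hs 9 2 +
    (1 : ℝ) * H.hs 7 2 +
    (-1 : ℝ) * f_0_2 H +
    (-1 : ℝ) * f_0_21 H +
    (-1 : ℝ) * f_2_9 H +
    (1 : ℝ) * H.hd 2 +
    (1 : ℝ) * f_2_21 H +
    (1 : ℝ) * f_2_7 H +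
    (1 : ℝ) * f_7_21 H

theorem f_3_9 (H : Hyp D U ρ) : D 3 9 = ((0 : ℤ) : ℝ) * D 0 14 := by
  linear_combination (1 : ℝ) * rel D U ρ H.hD 0 9 2 7 1 3 20 0 0 0 (by decide +kernel) +
    (-1 : ℝ) * H.hs 9 3 +
    (1 : ℝ) * H.hs 7 3 +
    (-1 : ℝ) * f_0_3 H +
    (-1 : ℝ) * f_0_20 H +
    (-1 : ℝ) * f_9_20 H +
    (1 : ℝ) * f_2_3 H +
    (1 : ℝ) * f_2_20 H +
    (1 : ℝ) * f_3_7 H +
    (1 : ℝ) * f_7_20 H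

theorem f_5_7 (H : Hyp D U ρ) : D 5 7 = ((0 : ℤ) : ℝ) * D 0 14 := by
  linear_combination (-1 : ℝ) * rel D U ρ H.hD 0 9 2 7 1 5 18 0 0 0 (by decide +kernel) +
    (1 : ℝ) * H.hs 9 5 +
    (-1 : ℝ) * H.hs 7 5 +
    (1 : ℝ) * f_0_5 H +
    (1 : ℝ) * f_0_18 H +
    (1 : ℝ) * f_5_9 H +
    (1 : ℝ) * f_9_18 H +
    (-1 : ℝ) * f_2_5 H +
    (-1 : ℝ) * f_2_18 H +
    (-1 : ℝ) * f_7_18 H

theorem f_0_16 (H : Hyp D U ρ) : D 0 16 = ((0 : ℤ) : ℝ) * D 0 14 := by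
  linear_combination (1 : ℝ) * rel D U ρ H.hD 0 9 2 7 1 7 16 0 0 0 (by decide +kernel) +
    (-1 : ℝ) * H.hs 9 7 +
    (-1 : ℝ) * f_0_7 H +
    (-1 : ℝ) * f_7_9 H +
    (-1 : ℝ) * f_9_16 H +
    (1 : ℝ) * f_2_7 H +
    (1 : ℝ) * f_2_16 H +
    (1 : ℝ) * H.hd 7 +
    (1 : ℝ) * f_7_16 H

theorem f_2_15 (H : Hyp D U ρ) : D 2 15 = ((0 : ℤ) : ℝ) * D 0 14 := by
  linear_combination (-1 : ℝ) * rel D U ρ H.hD 0 9 2 7 1 9 15 0 0 0 (by decide +kernel) +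
    (1 : ℝ) * f_0_9 H +
    (1 : ℝ) * f_0_15 H +
    (1 : ℝ) * H.hd 9 +
    (1 : ℝ) * f_9_15 H +
    (-1 : ℝ) * f_2_9 H +
    (-1 : ℝ) * f_7_9 H +
    (-1 : ℝ) * f_7_15 H

theorem f_10_22 (H : Hyp D U ρ) : D 10 22 = ((0 : ℤ) : ℝ) * D 0 14 := by
  linear_combination (-1 : ℝ) * rel D U ρ H.hD 0 11 2 10 1 0 22 0 0 0 (by decide +kernel) +
    (1 : ℝ) * H.hs 11 0 +
    (-1 : ℝ) * H.hs 2 0 +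
    (-1 : ℝ) * H.hs 10 0 +
    (1 : ℝ) * H.hd 0 +
    (1 : ℝ) * f_0_22 H +
    (1 : ℝ) * f_0_11 H +
    (1 : ℝ) * f_11_22 H +
    (-1 : ℝ) * f_0_2 H +
    (-1 : ℝ) * f_2_22 H +
    (-1 : ℝ) * f_0_10 H

theorem f_11_21 (H : Hyp D U ρ) : D 11 21 = ((0 : ℤ) : ℝ) * D 0 14 := by
  linear_combination (1 : ℝ) * rel D U ρ H.hD 0 11 2 10 1 2 21 0 0 0 (by decide +kernel) +
    (-1 : ℝ) * H.hs 11 2 +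
    (1 : ℝ) * H.hs 10 2 +
    (-1 : ℝ) * f_0_2 H +
    (-1 : ℝ) * f_0_21 H +
    (-1 : ℝ) * f_2_11 H +
    (1 : ℝ) * H.hd 2 +
    (1 : ℝ) * f_2_21 H +
    (1 : ℝ) * f_2_10 H +
    (1 : ℝ) * f_10_21 H

theorem f_3_11 (H : Hyp D U ρ) : D 3 11 = ((0 : ℤ) : ℝ) * D 0 14 := by
  linear_combination (1 : ℝ) * rel D U ρ H.hD 0 11 2 10 1 3 20 0 0 0 (by decide +kernel) +
    (-1 : ℝ) * H.hs 11 3 +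
    (1 : ℝ) * H.hs 10 3 +
    (-1 : ℝ) * f_0_3 H +
    (-1 : ℝ) * f_0_20 H +
    (-1 : ℝ) * f_11_20 H +
    (1 : ℝ) * f_2_3 H +
    (1 : ℝ) * f_2_20 H +
    (1 : ℝ) * f_3_10 H +
    (1 : ℝ) * f_10_20 H

theorem f_5_10 (H : Hyp D U ρ) : D 5 10 = ((0 : ℤ) : ℝ) * D 0 14 := by
  linear_combination (-1 : ℝ) * rel D U ρ H.hD 0 11 2 10 1 5 18 0 0 0 (by decide +kernel) +
    (1 : ℝ) * H.hs 11 5 +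
    (-1 : ℝ) * H.hs 10 5 +
    (1 : ℝ) * f_0_5 H +
    (1 : ℝ) * f_0_18 H +
    (1 : ℝ) * f_5_11 H +
    (1 : ℝ) * f_11_18 H +
    (-1 : ℝ) * f_2_5 H +
    (-1 : ℝ) * f_2_18 H +
    (-1 : ℝ) * f_10_18 H

theorem f_7_11 (H : Hyp D U ρ) : D 7 11 = ((0 : ℤ) : ℝ) * D 0 14 := by
  linear_combination (1 : ℝ) * rel D U ρ H.hD 0 11 2 10 1 7 16 0 0 0 (by decide +kernel) +
    (-1 : ℝ) * H.hs 11 7 +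
    (1 : ℝ) * H.hs 10 7 +
    (-1 : ℝ) * f_0_7 H +
    (-1 : ℝ) * f_0_16 H +
    (-1 : ℝ) * f_11_16 H +
    (1 : ℝ) * f_2_7 H +
    (1 : ℝ) * f_2_16 H +
    (1 : ℝ) * f_7_10 H +
    (1 : ℝ) * f_10_16 H

theorem f_9_10 (H : Hyp D U ρ) : D 9 10 = ((0 : ℤ) : ℝ) * D 0 14 := by
  linear_combination (-1 : ℝ) * rel D U ρ H.hD 0 11 2 10 1 9 15 0 0 0 (by decide +kernel) +
    (1 : ℝ) * H.hs 11 9 +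
    (-1 : ℝ) * H.hs 10 9 +
    (1 : ℝ) * f_0_9 H +
    (1 : ℝ) * f_0_15 H +
    (1 : ℝ) * f_9_11 H +
    (1 : ℝ) * f_11_15 H +
    (-1 : ℝ) * f_2_9 H +
    (-1 : ℝ) * f_2_15 H +
    (-1 : ℝ) * f_10_15 H

theorem f_0_13 (H : Hyp D U ρ) : D 0 13 = ((0 : ℤ) : ℝ) * D 0 14 := by
  linear_combination (1 : ℝ) * rel D U ρ H.hD 0 11 2 10 1 10 13 0 0 0 (by decide +kernel) +
    (-1 : ℝ) * H.hs 11 10 +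
    (-1 : ℝ) * f_0_10 H +
    (-1 : ℝ) * f_10_11 H +
    (-1 : ℝ) * f_11_13 H +
    (1 : ℝ) * f_2_10 H +
    (1 : ℝ) * f_2_13 H +
    (1 : ℝ) * H.hd 10 +
    (1 : ℝ) * f_10_13 H

theorem f_2_12 (H : Hyp D U ρ) : D 2 12 = ((0 : ℤ) : ℝ) * D 0 14 := by
  linear_combination (-1 : ℝ) * rel D U ρ H.hD 0 11 2 10 1 11 12 0 0 0 (by decide +kernel) +
    (1 : ℝ) * f_0_11 H +
    (1 : ℝ) * f_0_12 H +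
    (1 : ℝ) * H.hd 11 +
    (1 : ℝ) * f_11_12 H +
    (-1 : ℝ) * f_2_11 H +
    (-1 : ℝ) * f_10_11 H +
    (-1 : ℝ) * f_10_12 H

theorem f_6_12 (H : Hyp D U ρ) : D 6 12 = ((1 : ℤ) : ℝ) * D 0 14 := by
  linear_combination (-1 : ℝ) * rel D U ρ H.hD 0 11 6 8 1 11 12 0 0 0 (by decide +kernel) +
    (1 : ℝ) * f_0_11 H +
    (1 : ℝ) * f_0_12 H +
    (1 : ℝ) * H.hd 11 +
    (1 : ℝ) * f_11_12 H +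
    (-1 : ℝ) * f_6_11 H +
    (-1 : ℝ) * f_8_11 H +
    (-1 : ℝ) * f_8_12 H

theorem f_12_20 (H : Hyp D U ρ) : D 12 20 = ((0 : ℤ) : ℝ) * D 0 14 := by
  linear_combination (-1 : ℝ) * rel D U ρ H.hD 0 13 2 12 1 3 20 0 0 0 (by decide +kernel) +
    (1 : ℝ) * H.hs 13 3 +
    (-1 : ℝ) * H.hs 12 3 +
    (1 : ℝ) * f_0_3 H +
    (1 : ℝ) * f_0_20 H +
    (1 : ℝ) * f_3_13 H +
    (1 : ℝ) * f_13_20 H +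
    (-1 : ℝ) * f_2_3 H +
    (-1 : ℝ) * f_2_20 H +
    (-1 : ℝ) * f_3_12 H

theorem f_13_18 (H : Hyp D U ρ) : D 13 18 = ((0 : ℤ) : ℝ) * D 0 14 := by
  linear_combination (1 : ℝ) * rel D U ρ H.hD 0 13 2 12 1 5 18 0 0 0 (by decide +kernel) +
    (-1 : ℝ) * H.hs 13 5 +
    (1 : ℝ) * H.hs 12 5 +
    (-1 : ℝ) * f_0_5 H +
    (-1 : ℝ) * f_0_18 H +
    (-1 : ℝ) * f_5_13 H +
    (1 : ℝ) * f_2_5 H +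
    (1 : ℝ) * f_2_18 H +
    (1 : ℝ) * f_5_12 H +
    (1 : ℝ) * f_12_18 H

theorem f_12_16 (H : Hyp D U ρ) : D 12 16 = ((0 : ℤ) : ℝ) * D 0 14 := by
  linear_combination (-1 : ℝ) * rel D U ρ H.hD 0 13 2 12 1 7 16 0 0 0 (by decide +kernel) +
    (1 : ℝ) * H.hs 13 7 +
    (-1 : ℝ) * H.hs 12 7 +
    (1 : ℝ) * f_0_7 H +
    (1 : ℝ) * f_0_16 H +
    (1 : ℝ) * f_7_13 H +
    (1 : ℝ) * f_13_16 H +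
    (-1 : ℝ) * f_2_7 H +
    (-1 : ℝ) * f_2_16 H +
    (-1 : ℝ) * f_7_12 H

theorem f_13_15 (H : Hyp D U ρ) : D 13 15 = ((0 : ℤ) : ℝ) * D 0 14 := by
  linear_combination (1 : ℝ) * rel D U ρ H.hD 0 13 2 12 1 9 15 0 0 0 (by decide +kernel) +
    (-1 : ℝ) * H.hs 13 9 +
    (1 : ℝ) * H.hs 12 9 +
    (-1 : ℝ) * f_0_9 H +
    (-1 : ℝ) * f_0_15 H +
    (-1 : ℝ) * f_9_13 H +
    (1 : ℝ) * f_2_9 H +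
    (1 : ℝ) * f_2_15 H +
    (1 : ℝ) * f_9_12 H +
    (1 : ℝ) * f_12_15 H

theorem f_4_22 (H : Hyp D U ρ) : D 4 22 = ((1 : ℤ) : ℝ) * D 0 14 := by
  linear_combination (-1 : ℝ) * rel D U ρ H.hD 0 14 4 12 1 0 22 0 0 0 (by decide +kernel) +
    (1 : ℝ) * H.hs 14 0 +
    (-1 : ℝ) * H.hs 4 0 +
    (-1 : ℝ) * H.hs 12 0 +
    (1 : ℝ) * H.hd 0 +
    (1 : ℝ) * f_0_22 H +
    (1 : ℝ) * f_0_14 H +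
    (1 : ℝ) * f_14_22 H +
    (-1 : ℝ) * f_0_4 H +
    (-1 : ℝ) * f_0_12 H +
    (-1 : ℝ) * f_12_22 H

theorem f_0_19 (H : Hyp D U ρ) : D 0 19 = ((-1 : ℤ) : ℝ) * D 0 14 := by
  linear_combination (1 : ℝ) * rel D U ρ H.hD 0 14 4 12 1 4 19 0 0 0 (by decide +kernel) +
    (-1 : ℝ) * H.hs 14 4 +
    (1 : ℝ) * H.hs 12 4 +
    (-1 : ℝ) * f_0_4 H +
    (-1 : ℝ) * f_4_14 H +
    (-1 : ℝ) * f_14_19 H +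
    (1 : ℝ) * H.hd 4 +
    (1 : ℝ) * f_4_19 H +
    (1 : ℝ) * f_4_12 H +
    (1 : ℝ) * f_12_19 H

theorem f_11_14 (H : Hyp D U ρ) : D 11 14 = ((-1 : ℤ) : ℝ) * D 0 14 := by
  linear_combination (1 : ℝ) * rel D U ρ H.hD 0 14 4 12 1 11 12 0 0 0 (by decide +kernel) +
    (-1 : ℝ) * H.hs 14 11 +
    (-1 : ℝ) * H.hs 14 12 +
    (1 : ℝ) * H.hs 12 11 +
    (-1 : ℝ) * f_0_11 H +
    (-1 : ℝ) * f_0_12 H +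
    (-1 : ℝ) * f_12_14 H +
    (1 : ℝ) * f_4_11 H +
    (1 : ℝ) * f_4_12 H +
    (1 : ℝ) * f_11_12 H +
    (1 : ℝ) * H.hd 12

theorem f_15_20 (H : Hyp D U ρ) : D 15 20 = ((0 : ℤ) : ℝ) * D 0 14 := by
  linear_combination (-1 : ℝ) * rel D U ρ H.hD 0 16 2 15 1 3 20 0 0 0 (by decide +kernel) +
    (1 : ℝ) * H.hs 16 3 +
    (-1 : ℝ) * H.hs 15 3 +
    (1 : ℝ) * f_0_3 H +
    (1 : ℝ) * f_0_20 H +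
    (1 : ℝ) * f_3_16 H +
    (1 : ℝ) * f_16_20 H +
    (-1 : ℝ) * f_2_3 H +
    (-1 : ℝ) * f_2_20 H +
    (-1 : ℝ) * f_3_15 H

theorem f_16_18 (H : Hyp D U ρ) : D 16 18 = ((0 : ℤ) : ℝ) * D 0 14 := by
  linear_combination (1 : ℝ) * rel D U ρ H.hD 0 16 2 15 1 5 18 0 0 0 (by decide +kernel) +
    (-1 : ℝ) * H.hs 16 5 +
    (1 : ℝ) * H.hs 15 5 +
    (-1 : ℝ) * f_0_5 H +
    (-1 : ℝ) * f_0_18 H +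
    (-1 : ℝ) * f_5_16 H +
    (1 : ℝ) * f_2_5 H +
    (1 : ℝ) * f_2_18 H +
    (1 : ℝ) * f_5_15 H +
    (1 : ℝ) * f_15_18 H

theorem f_4_17 (H : Hyp D U ρ) : D 4 17 = ((0 : ℤ) : ℝ) * D 0 14 := by
  linear_combination (1 : ℝ) * rel D U ρ H.hD 0 17 8 12 1 4 19 0 0 0 (by decide +kernel) +
    (-1 : ℝ) * H.hs 17 4 +
    (1 : ℝ) * H.hs 8 4 +
    (1 : ℝ) * H.hs 12 4 +
    (-1 : ℝ) * f_0_4 H +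
    (-1 : ℝ) * f_0_19 H +
    (-1 : ℝ) * f_17_19 H +
    (1 : ℝ) * f_4_8 H +
    (1 : ℝ) * f_8_19 H +
    (1 : ℝ) * f_4_12 H +
    (1 : ℝ) * f_12_19 H

theorem f_0_17 (H : Hyp D U ρ) : D 0 17 = ((1 : ℤ) : ℝ) * D 0 14 := by
  linear_combination (1 : ℝ) * rel D U ρ H.hD 0 17 8 12 1 6 17 0 0 0 (by decide +kernel) +
    (-1 : ℝ) * H.hs 17 6 +
    (1 : ℝ) * H.hs 8 6 +
    (1 : ℝ) * H.hs 12 6 +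
    (-1 : ℝ) * f_0_6 H +
    (-1 : ℝ) * f_6_17 H +
    (-1 : ℝ) * H.hd 17 +
    (1 : ℝ) * f_6_8 H +
    (1 : ℝ) * f_8_17 H +
    (1 : ℝ) * f_6_12 H +
    (1 : ℝ) * f_12_17 H

theorem f_11_17 (H : Hyp D U ρ) : D 11 17 = ((-1 : ℤ) : ℝ) * D 0 14 := by
  linear_combination (1 : ℝ) * rel D U ρ H.hD 0 17 8 12 1 11 12 0 0 0 (by decide +kernel) +
    (-1 : ℝ) * H.hs 17 11 +
    (-1 : ℝ) * H.hs 17 12 +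
    (1 : ℝ) * H.hs 12 11 +
    (-1 : ℝ) * f_0_11 H +
    (-1 : ℝ) * f_0_12 H +
    (-1 : ℝ) * f_12_17 H +
    (1 : ℝ) * f_8_11 H +
    (1 : ℝ) * f_8_12 H +
    (1 : ℝ) * f_11_12 H +
    (1 : ℝ) * H.hd 12

theorem f_1_22 (H : Hyp D U ρ) : D 1 22 = ((-1 : ℤ) : ℝ) * D 0 14 := by
  linear_combination (-1 : ℝ) * rel D U ρ H.hD 0 19 1 18 1 0 22 0 0 0 (by decide +kernel) +
    (1 : ℝ) * H.hs 19 0 +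
    (-1 : ℝ) * H.hs 1 0 +
    (-1 : ℝ) * H.hs 18 0 +
    (1 : ℝ) * H.hd 0 +
    (1 : ℝ) * f_0_22 H +
    (1 : ℝ) * f_0_19 H +
    (1 : ℝ) * f_19_22 H +
    (-1 : ℝ) * f_0_1 H +
    (-1 : ℝ) * f_0_18 H +
    (-1 : ℝ) * f_18_22 H

theorem f_4_18 (H : Hyp D U ρ) : D 4 18 = ((-1 : ℤ) : ℝ) * D 0 14 := by
  linear_combination (-1 : ℝ) * rel D U ρ H.hD 0 19 1 18 1 4 19 0 0 0 (by decide +kernel) +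
    (1 : ℝ) * H.hs 19 4 +
    (-1 : ℝ) * H.hs 18 4 +
    (1 : ℝ) * f_0_4 H +
    (1 : ℝ) * f_0_19 H +
    (1 : ℝ) * f_4_19 H +
    (1 : ℝ) * H.hd 19 +
    (-1 : ℝ) * f_1_4 H +
    (-1 : ℝ) * f_1_19 H +
    (-1 : ℝ) * f_18_19 H

theorem f_5_19 (H : Hyp D U ρ) : D 5 19 = ((1 : ℤ) : ℝ) * D 0 14 := by
  linear_combination (-1 : ℝ) * rel D U ρ H.hD 0 22 4 19 1 5 18 0 0 0 (by decide +kernel) +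
    (1 : ℝ) * H.hs 22 5 +
    (1 : ℝ) * H.hs 22 18 +
    (-1 : ℝ) * H.hs 19 5 +
    (-1 : ℝ) * H.hs 19 18 +
    (1 : ℝ) * f_0_5 H +
    (1 : ℝ) * f_0_18 H +
    (1 : ℝ) * f_5_22 H +
    (1 : ℝ) * f_18_22 H +
    (-1 : ℝ) * f_4_5 H +
    (-1 : ℝ) * f_4_18 H +
    (-1 : ℝ) * f_18_19 H

theorem f_6_22 (H : Hyp D U ρ) : D 6 22 = ((-1 : ℤ) : ℝ) * D 0 14 := by
  linear_combination (-1 / 2 : ℝ) * rel D U ρ H.hD 0 22 6 17 1 0 22 6 17 1 (by decide +kernel) +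
    (1 / 2 : ℝ) * H.hs 22 0 +
    (-1 / 2 : ℝ) * H.hs 22 6 +
    (-1 / 2 : ℝ) * H.hs 22 17 +
    (-1 / 2 : ℝ) * H.hs 6 0 +
    (-1 / 2 : ℝ) * H.hs 17 0 +
    (1 / 2 : ℝ) * H.hs 17 6 +
    (1 / 2 : ℝ) * H.hd 0 +
    (1 : ℝ) * f_0_22 H +
    (-1 : ℝ) * f_0_6 H +
    (-1 : ℝ) * f_0_17 H +
    (1 / 2 : ℝ) * H.hd 22 +
    (-1 : ℝ) * f_17_22 H +
    (1 / 2 : ℝ) * H.hd 6 +
    (1 : ℝ) * f_6_17 H +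
    (1 / 2 : ℝ) * H.hd 17

theorem f_6_19 (H : Hyp D U ρ) : D 6 19 = ((0 : ℤ) : ℝ) * D 0 14 := by
  linear_combination (-1 : ℝ) * rel D U ρ H.hD 0 22 6 17 1 4 19 0 0 0 (by decide +kernel) +
    (1 : ℝ) * H.hs 22 4 +
    (1 : ℝ) * H.hs 22 19 +
    (-1 : ℝ) * H.hs 6 4 +
    (-1 : ℝ) * H.hs 17 4 +
    (1 : ℝ) * f_0_4 H +
    (1 : ℝ) * f_0_19 H +
    (1 : ℝ) * f_4_22 H +
    (1 : ℝ) * f_19_22 H +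
    (-1 : ℝ) * f_4_6 H +
    (-1 : ℝ) * f_4_17 H +
    (-1 : ℝ) * f_17_19 H

theorem f_0_23 (H : Hyp D U ρ) : D 0 23 = ((-1 : ℤ) : ℝ) * D 0 14 := by
  linear_combination (1 : ℝ) * rel D U ρ H.hD 0 23 6 18 1 0 22 0 0 0 (by decide +kernel) +
    (-1 : ℝ) * H.hs 23 0 +
    (-1 : ℝ) * H.hs 23 22 +
    (1 : ℝ) * H.hs 6 0 +
    (1 : ℝ) * H.hs 18 0 +
    (-1 : ℝ) * H.hd 0 +
    (-1 : ℝ) * f_0_22 H +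
    (-1 : ℝ) * f_22_23 H +
    (1 : ℝ) * f_0_6 H +
    (1 : ℝ) * f_6_22 H +
    (1 : ℝ) * f_0_18 H +
    (1 : ℝ) * f_18_22 H

theorem f_6_18 (H : Hyp D U ρ) : D 6 18 = ((1 : ℤ) : ℝ) * D 0 14 := by
  linear_combination (-1 : ℝ) * rel D U ρ H.hD 0 23 6 18 1 6 17 0 0 0 (by decide +kernel) +
    (1 : ℝ) * H.hs 23 6 +
    (1 : ℝ) * H.hs 23 17 +
    (-1 : ℝ) * H.hs 18 6 +
    (-1 : ℝ) * H.hs 18 17 +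
    (1 : ℝ) * f_0_6 H +
    (1 : ℝ) * f_0_17 H +
    (1 : ℝ) * f_6_23 H +
    (1 : ℝ) * f_17_23 H +
    (-1 : ℝ) * H.hd 6 +
    (-1 : ℝ) * f_6_17 H +
    (-1 : ℝ) * f_17_18 H

theorem f_12_23 (H : Hyp D U ρ) : D 12 23 = ((1 : ℤ) : ℝ) * D 0 14 := by
  linear_combination (1 : ℝ) * rel D U ρ H.hD 0 23 6 18 1 11 12 0 0 0 (by decide +kernel) +
    (-1 : ℝ) * H.hs 23 11 +
    (-1 : ℝ) * H.hs 23 12 +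
    (1 : ℝ) * H.hs 18 11 +
    (1 : ℝ) * H.hs 18 12 +
    (-1 : ℝ) * f_0_11 H +
    (-1 : ℝ) * f_0_12 H +
    (-1 : ℝ) * f_11_23 H +
    (1 : ℝ) * f_6_11 H +
    (1 : ℝ) * f_6_12 H +
    (1 : ℝ) * f_11_18 H +
    (1 : ℝ) * f_12_18 H

theorem f_1_18 (H : Hyp D U ρ) : D 1 18 = ((1 : ℤ) : ℝ) * D 0 14 := by
  linear_combination (1 : ℝ) * rel D U ρ H.hD 1 10 6 7 1 5 18 0 0 0 (by decide +kernel) +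
    (-1 : ℝ) * H.hs 10 5 +
    (1 : ℝ) * H.hs 6 5 +
    (1 : ℝ) * H.hs 7 5 +
    (-1 : ℝ) * f_1_5 H +
    (-1 : ℝ) * f_5_10 H +
    (-1 : ℝ) * f_10_18 H +
    (1 : ℝ) * f_5_6 H +
    (1 : ℝ) * f_6_18 H +
    (1 : ℝ) * f_5_7 H +
    (1 : ℝ) * f_7_18 H

theorem f_4_9 (H : Hyp D U ρ) : D 4 9 = ((1 : ℤ) : ℝ) * D 0 14 := by
  linear_combination (-1 : ℝ) * rel D U ρ H.hD 1 11 6 9 1 4 19 0 0 0 (by decide +kernel) +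
    (1 : ℝ) * H.hs 11 4 +
    (-1 : ℝ) * H.hs 6 4 +
    (-1 : ℝ) * H.hs 9 4 +
    (1 : ℝ) * f_1_4 H +
    (1 : ℝ) * f_1_19 H +
    (1 : ℝ) * f_4_11 H +
    (1 : ℝ) * f_11_19 H +
    (-1 : ℝ) * f_4_6 H +
    (-1 : ℝ) * f_6_19 H +
    (-1 : ℝ) * f_9_19 H

theorem f_6_9 (H : Hyp D U ρ) : D 6 9 = ((-1 : ℤ) : ℝ) * D 0 14 := by
  linear_combination (-1 : ℝ) * rel D U ρ H.hD 1 11 6 9 1 6 17 0 0 0 (by decide +kernel) +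
    (1 : ℝ) * H.hs 11 6 +
    (-1 : ℝ) * H.hs 9 6 +
    (1 : ℝ) * f_1_6 H +
    (1 : ℝ) * f_1_17 H +
    (1 : ℝ) * f_6_11 H +
    (1 : ℝ) * f_11_17 H +
    (-1 : ℝ) * H.hd 6 +
    (-1 : ℝ) * f_6_17 H +
    (-1 : ℝ) * f_9_17 H

theorem f_1_15 (H : Hyp D U ρ) : D 1 15 = ((-1 : ℤ) : ℝ) * D 0 14 := by
  linear_combination (1 : ℝ) * rel D U ρ H.hD 1 11 6 9 1 9 15 0 0 0 (by decide +kernel) +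
    (-1 : ℝ) * H.hs 11 9 +
    (-1 : ℝ) * f_1_9 H +
    (-1 : ℝ) * f_9_11 H +
    (-1 : ℝ) * f_11_15 H +
    (1 : ℝ) * f_6_9 H +
    (1 : ℝ) * f_6_15 H +
    (1 : ℝ) * H.hd 9 +
    (1 : ℝ) * f_9_15 H

theorem f_14_18 (H : Hyp D U ρ) : D 14 18 = ((-1 : ℤ) : ℝ) * D 0 14 := by
  linear_combination (1 : ℝ) * rel D U ρ H.hD 1 14 3 13 1 5 18 0 0 0 (by decide +kernel) +
    (-1 : ℝ) * H.hs 14 5 +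
    (1 : ℝ) * H.hs 13 5 +
    (-1 : ℝ) * f_1_5 H +
    (-1 : ℝ) * f_1_18 H +
    (-1 : ℝ) * f_5_14 H +
    (1 : ℝ) * f_3_5 H +
    (1 : ℝ) * f_3_18 H +
    (1 : ℝ) * f_5_13 H +
    (1 : ℝ) * f_13_18 H

theorem f_9_14 (H : Hyp D U ρ) : D 9 14 = ((1 : ℤ) : ℝ) * D 0 14 := by
  linear_combination (1 : ℝ) * rel D U ρ H.hD 1 14 3 13 1 9 15 0 0 0 (by decide +kernel) +
    (-1 : ℝ) * H.hs 14 9 +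
    (1 : ℝ) * H.hs 13 9 +
    (-1 : ℝ) * f_1_9 H +
    (-1 : ℝ) * f_1_15 H +
    (-1 : ℝ) * f_14_15 H +
    (1 : ℝ) * f_3_9 H +
    (1 : ℝ) * f_3_15 H +
    (1 : ℝ) * f_9_13 H +
    (1 : ℝ) * f_13_15 H

theorem f_5_17 (H : Hyp D U ρ) : D 5 17 = ((-1 : ℤ) : ℝ) * D 0 14 := by
  linear_combination (-1 : ℝ) * rel D U ρ H.hD 1 14 5 12 1 6 17 0 0 0 (by decide +kernel) +
    (1 : ℝ) * H.hs 14 6 +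
    (-1 : ℝ) * H.hs 12 6 +
    (1 : ℝ) * f_1_6 H +
    (1 : ℝ) * f_1_17 H +
    (1 : ℝ) * f_6_14 H +
    (1 : ℝ) * f_14_17 H +
    (-1 : ℝ) * f_5_6 H +
    (-1 : ℝ) * f_6_12 H +
    (-1 : ℝ) * f_12_17 H

theorem f_15_19 (H : Hyp D U ρ) : D 15 19 = ((-1 : ℤ) : ℝ) * D 0 14 := by
  linear_combination (1 : ℝ) * rel D U ρ H.hD 1 15 6 12 1 4 19 0 0 0 (by decide +kernel) +
    (-1 : ℝ) * H.hs 15 4 +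
    (1 : ℝ) * H.hs 6 4 +
    (1 : ℝ) * H.hs 12 4 +
    (-1 : ℝ) * f_1_4 H +
    (-1 : ℝ) * f_1_19 H +
    (-1 : ℝ) * f_4_15 H +
    (1 : ℝ) * f_4_6 H +
    (1 : ℝ) * f_6_19 H +
    (1 : ℝ) * f_4_12 H +
    (1 : ℝ) * f_12_19 H

theorem f_15_17 (H : Hyp D U ρ) : D 15 17 = ((1 : ℤ) : ℝ) * D 0 14 := by
  linear_combination (1 : ℝ) * rel D U ρ H.hD 1 15 6 12 1 6 17 0 0 0 (by decide +kernel) +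
    (-1 : ℝ) * H.hs 15 6 +
    (1 : ℝ) * H.hs 12 6 +
    (-1 : ℝ) * f_1_6 H +
    (-1 : ℝ) * f_1_17 H +
    (-1 : ℝ) * f_6_15 H +
    (1 : ℝ) * H.hd 6 +
    (1 : ℝ) * f_6_17 H +
    (1 : ℝ) * f_6_12 H +
    (1 : ℝ) * f_12_17 H

theorem f_8_13 (H : Hyp D U ρ) : D 8 13 = ((-1 : ℤ) : ℝ) * D 0 14 := by
  linear_combination (-1 : ℝ) * rel D U ρ H.hD 1 17 7 13 1 8 19 9 18 1 (by decide +kernel) +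
    (1 : ℝ) * H.hs 17 8 +
    (-1 : ℝ) * H.hs 17 9 +
    (-1 : ℝ) * H.hs 13 8 +
    (1 : ℝ) * H.hs 13 9 +
    (1 : ℝ) * f_1_8 H +
    (1 : ℝ) * f_1_19 H +
    (-1 : ℝ) * f_1_9 H +
    (-1 : ℝ) * f_1_18 H +
    (1 : ℝ) * f_8_17 H +
    (1 : ℝ) * f_17_19 H +
    (-1 : ℝ) * f_9_17 H +
    (-1 : ℝ) * f_17_18 H +
    (-1 : ℝ) * f_7_8 H +
    (-1 : ℝ) * f_7_19 H +
    (1 : ℝ) * f_7_9 H +
    (1 : ℝ) * f_7_18 H +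
    (-1 : ℝ) * f_13_19 H +
    (1 : ℝ) * f_9_13 H +
    (1 : ℝ) * f_13_18 H

theorem f_7_14 (H : Hyp D U ρ) : D 7 14 = ((1 : ℤ) : ℝ) * D 0 14 := by
  linear_combination (1 : ℝ) * rel D U ρ H.hD 1 17 7 13 1 12 22 14 19 1 (by decide +kernel) +
    (-1 : ℝ) * H.hs 17 12 +
    (1 : ℝ) * H.hs 17 14 +
    (1 : ℝ) * H.hs 13 12 +
    (-1 : ℝ) * f_1_12 H +
    (-1 : ℝ) * f_1_22 H +
    (1 : ℝ) * f_1_14 H +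
    (1 : ℝ) * f_1_19 H +
    (-1 : ℝ) * f_12_17 H +
    (-1 : ℝ) * f_17_22 H +
    (1 : ℝ) * f_14_17 H +
    (1 : ℝ) * f_17_19 H +
    (1 : ℝ) * f_7_12 H +
    (1 : ℝ) * f_7_22 H +
    (-1 : ℝ) * f_7_19 H +
    (1 : ℝ) * f_12_13 H +
    (1 : ℝ) * f_13_22 H +
    (-1 : ℝ) * f_13_14 H +
    (-1 : ℝ) * f_13_19 H

theorem f_1_20 (H : Hyp D U ρ) : D 1 20 = ((1 : ℤ) : ℝ) * D 0 14 := by
  linear_combination (1 : ℝ) * rel D U ρ H.hD 1 17 9 12 1 7 20 8 19 1 (by decide +kernel) +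
    (-1 : ℝ) * H.hs 17 7 +
    (1 : ℝ) * H.hs 17 8 +
    (1 : ℝ) * H.hs 9 7 +
    (-1 : ℝ) * H.hs 9 8 +
    (1 : ℝ) * H.hs 12 7 +
    (-1 : ℝ) * H.hs 12 8 +
    (-1 : ℝ) * f_1_7 H +
    (1 : ℝ) * f_1_8 H +
    (1 : ℝ) * f_1_19 H +
    (-1 : ℝ) * f_7_17 H +
    (-1 : ℝ) * f_17_20 H +
    (1 : ℝ) * f_8_17 H +
    (1 : ℝ) * f_17_19 H +
    (1 : ℝ) * f_7_9 H +
    (1 : ℝ) * f_9_20 H +
    (-1 : ℝ) * f_8_9 H +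
    (-1 : ℝ) * f_9_19 H +
    (1 : ℝ) * f_7_12 H +
    (1 : ℝ) * f_12_20 H +
    (-1 : ℝ) * f_8_12 H +
    (-1 : ℝ) * f_12_19 H

theorem f_1_21 (H : Hyp D U ρ) : D 1 21 = ((-1 : ℤ) : ℝ) * D 0 14 := by
  linear_combination (1 : ℝ) * rel D U ρ H.hD 1 17 9 12 1 13 21 14 19 1 (by decide +kernel) +
    (-1 : ℝ) * H.hs 17 13 +
    (1 : ℝ) * H.hs 17 14 +
    (-1 : ℝ) * f_1_13 H +
    (1 : ℝ) * f_1_14 H +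
    (1 : ℝ) * f_1_19 H +
    (-1 : ℝ) * f_13_17 H +
    (-1 : ℝ) * f_17_21 H +
    (1 : ℝ) * f_14_17 H +
    (1 : ℝ) * f_17_19 H +
    (1 : ℝ) * f_9_13 H +
    (1 : ℝ) * f_9_21 H +
    (-1 : ℝ) * f_9_14 H +
    (-1 : ℝ) * f_9_19 H +
    (1 : ℝ) * f_12_13 H +
    (1 : ℝ) * f_12_21 H +
    (-1 : ℝ) * f_12_14 H +
    (-1 : ℝ) * f_12_19 H

theorem f_2_17 (H : Hyp D U ρ) : D 2 17 = ((1 : ℤ) : ℝ) * D 0 14 := by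
  linear_combination (1 : ℝ) * rel D U ρ H.hD 1 17 9 12 1 2 21 0 0 0 (by decide +kernel) +
    (-1 : ℝ) * H.hs 17 2 +
    (1 : ℝ) * H.hs 9 2 +
    (1 : ℝ) * H.hs 12 2 +
    (-1 : ℝ) * f_1_2 H +
    (-1 : ℝ) * f_1_21 H +
    (-1 : ℝ) * f_17_21 H +
    (1 : ℝ) * f_2_9 H +
    (1 : ℝ) * f_9_21 H +
    (1 : ℝ) * f_2_12 H +
    (1 : ℝ) * f_12_21 H

theorem f_3_17 (H : Hyp D U ρ) : D 3 17 = ((-1 : ℤ) : ℝ) * D 0 14 := by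
  linear_combination (1 : ℝ) * rel D U ρ H.hD 1 17 9 12 1 3 20 0 0 0 (by decide +kernel) +
    (-1 : ℝ) * H.hs 17 3 +
    (1 : ℝ) * H.hs 9 3 +
    (1 : ℝ) * H.hs 12 3 +
    (-1 : ℝ) * f_1_3 H +
    (-1 : ℝ) * f_1_20 H +
    (-1 : ℝ) * f_17_20 H +
    (1 : ℝ) * f_3_9 H +
    (1 : ℝ) * f_9_20 H +
    (1 : ℝ) * f_3_12 H +
    (1 : ℝ) * f_12_20 H

theorem f_2_19 (H : Hyp D U ρ) : D 2 19 = ((-1 : ℤ) : ℝ) * D 0 14 := by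
  linear_combination (-1 : ℝ) * rel D U ρ H.hD 1 20 2 19 1 2 21 0 0 0 (by decide +kernel) +
    (1 : ℝ) * H.hs 20 2 +
    (-1 : ℝ) * H.hs 19 2 +
    (1 : ℝ) * f_1_2 H +
    (1 : ℝ) * f_1_21 H +
    (1 : ℝ) * f_2_20 H +
    (1 : ℝ) * f_20_21 H +
    (-1 : ℝ) * H.hd 2 +
    (-1 : ℝ) * f_2_21 H +
    (-1 : ℝ) * f_19_21 H

theorem f_3_19 (H : Hyp D U ρ) : D 3 19 = ((1 : ℤ) : ℝ) * D 0 14 := by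
  linear_combination (-1 : ℝ) * rel D U ρ H.hD 1 20 2 19 1 3 20 0 0 0 (by decide +kernel) +
    (1 : ℝ) * H.hs 20 3 +
    (-1 : ℝ) * H.hs 19 3 +
    (1 : ℝ) * f_1_3 H +
    (1 : ℝ) * f_1_20 H +
    (1 : ℝ) * f_3_20 H +
    (1 : ℝ) * H.hd 20 +
    (-1 : ℝ) * f_2_3 H +
    (-1 : ℝ) * f_2_20 H +
    (-1 : ℝ) * f_19_20 H

theorem f_4_20 (H : Hyp D U ρ) : D 4 20 = ((-1 : ℤ) : ℝ) * D 0 14 := by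
  linear_combination (1 : ℝ) * rel D U ρ H.hD 1 20 2 19 1 4 19 0 0 0 (by decide +kernel) +
    (-1 : ℝ) * H.hs 20 4 +
    (-1 : ℝ) * H.hs 20 19 +
    (1 : ℝ) * H.hs 19 4 +
    (-1 : ℝ) * f_1_4 H +
    (-1 : ℝ) * f_1_19 H +
    (-1 : ℝ) * f_19_20 H +
    (1 : ℝ) * f_2_4 H +
    (1 : ℝ) * f_2_19 H +
    (1 : ℝ) * f_4_19 H +
    (1 : ℝ) * H.hd 19

theorem f_6_20 (H : Hyp D U ρ) : D 6 20 = ((1 : ℤ) : ℝ) * D 0 14 := by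
  linear_combination (1 : ℝ) * rel D U ρ H.hD 1 20 2 19 1 6 17 0 0 0 (by decide +kernel) +
    (-1 : ℝ) * H.hs 20 6 +
    (-1 : ℝ) * H.hs 20 17 +
    (1 : ℝ) * H.hs 19 6 +
    (1 : ℝ) * H.hs 19 17 +
    (-1 : ℝ) * f_1_6 H +
    (-1 : ℝ) * f_1_17 H +
    (-1 : ℝ) * f_17_20 H +
    (1 : ℝ) * f_2_6 H +
    (1 : ℝ) * f_2_17 H +
    (1 : ℝ) * f_6_19 H +
    (1 : ℝ) * f_17_19 H

theorem f_4_21 (H : Hyp D U ρ) : D 4 21 = ((1 : ℤ) : ℝ) * D 0 14 := by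
  linear_combination (1 : ℝ) * rel D U ρ H.hD 1 21 3 19 1 4 19 0 0 0 (by decide +kernel) +
    (-1 : ℝ) * H.hs 21 4 +
    (-1 : ℝ) * H.hs 21 19 +
    (1 : ℝ) * H.hs 19 4 +
    (-1 : ℝ) * f_1_4 H +
    (-1 : ℝ) * f_1_19 H +
    (-1 : ℝ) * f_19_21 H +
    (1 : ℝ) * f_3_4 H +
    (1 : ℝ) * f_3_19 H +
    (1 : ℝ) * f_4_19 H +
    (1 : ℝ) * H.hd 19

theorem f_6_21 (H : Hyp D U ρ) : D 6 21 = ((-1 : ℤ) : ℝ) * D 0 14 := by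
  linear_combination (1 : ℝ) * rel D U ρ H.hD 1 21 3 19 1 6 17 0 0 0 (by decide +kernel) +
    (-1 : ℝ) * H.hs 21 6 +
    (-1 : ℝ) * H.hs 21 17 +
    (1 : ℝ) * H.hs 19 6 +
    (1 : ℝ) * H.hs 19 17 +
    (-1 : ℝ) * f_1_6 H +
    (-1 : ℝ) * f_1_17 H +
    (-1 : ℝ) * f_17_21 H +
    (1 : ℝ) * f_3_6 H +
    (1 : ℝ) * f_3_17 H +
    (1 : ℝ) * f_6_19 H +
    (1 : ℝ) * f_17_19 H

theorem f_2_23 (H : Hyp D U ρ) : D 2 23 = ((-1 : ℤ) : ℝ) * D 0 14 := by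
  linear_combination (1 : ℝ) * rel D U ρ H.hD 1 23 6 19 1 2 21 0 0 0 (by decide +kernel) +
    (-1 : ℝ) * H.hs 23 2 +
    (-1 : ℝ) * H.hs 23 21 +
    (1 : ℝ) * H.hs 6 2 +
    (1 : ℝ) * H.hs 19 2 +
    (-1 : ℝ) * f_1_2 H +
    (-1 : ℝ) * f_1_21 H +
    (-1 : ℝ) * f_21_23 H +
    (1 : ℝ) * f_2_6 H +
    (1 : ℝ) * f_6_21 H +
    (1 : ℝ) * f_2_19 H +
    (1 : ℝ) * f_19_21 H

theorem f_3_23 (H : Hyp D U ρ) : D 3 23 = ((1 : ℤ) : ℝ) * D 0 14 := by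
  linear_combination (1 : ℝ) * rel D U ρ H.hD 1 23 6 19 1 3 20 0 0 0 (by decide +kernel) +
    (-1 : ℝ) * H.hs 23 3 +
    (-1 : ℝ) * H.hs 23 20 +
    (1 : ℝ) * H.hs 6 3 +
    (1 : ℝ) * H.hs 19 3 +
    (-1 : ℝ) * f_1_3 H +
    (-1 : ℝ) * f_1_20 H +
    (-1 : ℝ) * f_20_23 H +
    (1 : ℝ) * f_3_6 H +
    (1 : ℝ) * f_6_20 H +
    (1 : ℝ) * f_3_19 H +
    (1 : ℝ) * f_19_20 H

theorem f_5_23 (H : Hyp D U ρ) : D 5 23 = ((1 : ℤ) : ℝ) * D 0 14 := by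
  linear_combination (1 : ℝ) * rel D U ρ H.hD 1 23 6 19 1 5 18 0 0 0 (by decide +kernel) +
    (-1 : ℝ) * H.hs 23 5 +
    (-1 : ℝ) * H.hs 23 18 +
    (1 : ℝ) * H.hs 6 5 +
    (1 : ℝ) * H.hs 19 5 +
    (1 : ℝ) * H.hs 19 18 +
    (-1 : ℝ) * f_1_5 H +
    (-1 : ℝ) * f_1_18 H +
    (-1 : ℝ) * f_18_23 H +
    (1 : ℝ) * f_5_6 H +
    (1 : ℝ) * f_6_18 H +
    (1 : ℝ) * f_5_19 H +
    (1 : ℝ) * f_18_19 H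

theorem f_9_23 (H : Hyp D U ρ) : D 9 23 = ((-1 : ℤ) : ℝ) * D 0 14 := by
  linear_combination (1 : ℝ) * rel D U ρ H.hD 1 23 6 19 1 9 15 0 0 0 (by decide +kernel) +
    (-1 : ℝ) * H.hs 23 9 +
    (-1 : ℝ) * H.hs 23 15 +
    (1 : ℝ) * H.hs 19 9 +
    (1 : ℝ) * H.hs 19 15 +
    (-1 : ℝ) * f_1_9 H +
    (-1 : ℝ) * f_1_15 H +
    (-1 : ℝ) * f_15_23 H +
    (1 : ℝ) * f_6_9 H +
    (1 : ℝ) * f_6_15 H +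
    (1 : ℝ) * f_9_19 H +
    (1 : ℝ) * f_15_19 H

theorem f_14_20 (H : Hyp D U ρ) : D 14 20 = ((-1 : ℤ) : ℝ) * D 0 14 := by
  linear_combination (1 : ℝ) * rel D U ρ H.hD 2 14 4 13 1 5 20 9 16 1 (by decide +kernel) +
    (-1 : ℝ) * H.hs 14 5 +
    (1 : ℝ) * H.hs 14 9 +
    (1 : ℝ) * H.hs 13 5 +
    (-1 : ℝ) * H.hs 13 9 +
    (-1 : ℝ) * f_2_5 H +
    (-1 : ℝ) * f_2_20 H +
    (1 : ℝ) * f_2_9 H +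
    (1 : ℝ) * f_2_16 H +
    (-1 : ℝ) * f_5_14 H +
    (1 : ℝ) * f_9_14 H +
    (1 : ℝ) * f_14_16 H +
    (1 : ℝ) * f_4_5 H +
    (1 : ℝ) * f_4_20 H +
    (-1 : ℝ) * f_4_9 H +
    (-1 : ℝ) * f_4_16 H +
    (1 : ℝ) * f_5_13 H +
    (1 : ℝ) * f_13_20 H +
    (-1 : ℝ) * f_9_13 H +
    (-1 : ℝ) * f_13_16 H

theorem f_2_14 (H : Hyp D U ρ) : D 2 14 = ((1 : ℤ) : ℝ) * D 0 14 := by
  linear_combination (1 : ℝ) * rel D U ρ H.hD 2 14 4 13 1 2 21 0 0 0 (by decide +kernel) +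
    (-1 : ℝ) * H.hs 14 2 +
    (1 : ℝ) * H.hs 4 2 +
    (1 : ℝ) * H.hs 13 2 +
    (-1 : ℝ) * H.hd 2 +
    (-1 : ℝ) * f_2_21 H +
    (-1 : ℝ) * f_14_21 H +
    (1 : ℝ) * f_2_4 H +
    (1 : ℝ) * f_4_21 H +
    (1 : ℝ) * f_2_13 H +
    (1 : ℝ) * f_13_21 H

theorem f_4_13 (H : Hyp D U ρ) : D 4 13 = ((-1 : ℤ) : ℝ) * D 0 14 := by
  linear_combination (-1 : ℝ) * rel D U ρ H.hD 2 14 4 13 1 4 19 0 0 0 (by decide +kernel) +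
    (1 : ℝ) * H.hs 14 4 +
    (-1 : ℝ) * H.hs 13 4 +
    (1 : ℝ) * f_2_4 H +
    (1 : ℝ) * f_2_19 H +
    (1 : ℝ) * f_4_14 H +
    (1 : ℝ) * f_14_19 H +
    (-1 : ℝ) * H.hd 4 +
    (-1 : ℝ) * f_4_19 H +
    (-1 : ℝ) * f_13_19 H

theorem f_6_13 (H : Hyp D U ρ) : D 6 13 = ((1 : ℤ) : ℝ) * D 0 14 := by
  linear_combination (-1 : ℝ) * rel D U ρ H.hD 2 14 4 13 1 6 17 0 0 0 (by decide +kernel) +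
    (1 : ℝ) * H.hs 14 6 +
    (-1 : ℝ) * H.hs 13 6 +
    (1 : ℝ) * f_2_6 H +
    (1 : ℝ) * f_2_17 H +
    (1 : ℝ) * f_6_14 H +
    (1 : ℝ) * f_14_17 H +
    (-1 : ℝ) * f_4_6 H +
    (-1 : ℝ) * f_4_17 H +
    (-1 : ℝ) * f_13_17 H

theorem f_4_7 (H : Hyp D U ρ) : D 4 7 = ((1 : ℤ) : ℝ) * D 0 14 := by
  linear_combination (-1 : ℝ) * rel D U ρ H.hD 2 14 4 13 1 7 16 0 0 0 (by decide +kernel) +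
    (1 : ℝ) * H.hs 14 7 +
    (-1 : ℝ) * H.hs 13 7 +
    (1 : ℝ) * f_2_7 H +
    (1 : ℝ) * f_2_16 H +
    (1 : ℝ) * f_7_14 H +
    (1 : ℝ) * f_14_16 H +
    (-1 : ℝ) * f_4_16 H +
    (-1 : ℝ) * f_7_13 H +
    (-1 : ℝ) * f_13_16 H

theorem f_10_14 (H : Hyp D U ρ) : D 10 14 = ((-1 : ℤ) : ℝ) * D 0 14 := by
  linear_combination (1 : ℝ) * rel D U ρ H.hD 2 14 4 13 1 10 13 0 0 0 (by decide +kernel) +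
    (-1 : ℝ) * H.hs 14 10 +
    (-1 : ℝ) * H.hs 14 13 +
    (1 : ℝ) * H.hs 13 10 +
    (-1 : ℝ) * f_2_10 H +
    (-1 : ℝ) * f_2_13 H +
    (-1 : ℝ) * f_13_14 H +
    (1 : ℝ) * f_4_10 H +
    (1 : ℝ) * f_4_13 H +
    (1 : ℝ) * f_10_13 H +
    (1 : ℝ) * H.hd 13

theorem f_8_22 (H : Hyp D U ρ) : D 8 22 = ((1 : ℤ) : ℝ) * D 0 14 := by
  linear_combination (-1 : ℝ) * rel D U ρ H.hD 2 17 8 13 1 0 22 0 0 0 (by decide +kernel) +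
    (1 : ℝ) * H.hs 2 0 +
    (1 : ℝ) * H.hs 17 0 +
    (-1 : ℝ) * H.hs 8 0 +
    (-1 : ℝ) * H.hs 13 0 +
    (1 : ℝ) * f_0_2 H +
    (1 : ℝ) * f_2_22 H +
    (1 : ℝ) * f_0_17 H +
    (1 : ℝ) * f_17_22 H +
    (-1 : ℝ) * f_0_8 H +
    (-1 : ℝ) * f_0_13 H +
    (-1 : ℝ) * f_13_22 H

theorem f_8_21 (H : Hyp D U ρ) : D 8 21 = ((1 : ℤ) : ℝ) * D 0 14 := by
  linear_combination (-1 : ℝ) * rel D U ρ H.hD 2 17 8 13 1 2 21 0 0 0 (by decide +kernel) +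
    (1 : ℝ) * H.hs 17 2 +
    (-1 : ℝ) * H.hs 8 2 +
    (-1 : ℝ) * H.hs 13 2 +
    (1 : ℝ) * H.hd 2 +
    (1 : ℝ) * f_2_21 H +
    (1 : ℝ) * f_2_17 H +
    (1 : ℝ) * f_17_21 H +
    (-1 : ℝ) * f_2_8 H +
    (-1 : ℝ) * f_2_13 H +
    (-1 : ℝ) * f_13_21 H

theorem f_3_8 (H : Hyp D U ρ) : D 3 8 = ((-1 : ℤ) : ℝ) * D 0 14 := by
  linear_combination (-1 : ℝ) * rel D U ρ H.hD 2 17 8 13 1 3 20 0 0 0 (by decide +kernel) +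
    (1 : ℝ) * H.hs 17 3 +
    (-1 : ℝ) * H.hs 8 3 +
    (-1 : ℝ) * H.hs 13 3 +
    (1 : ℝ) * f_2_3 H +
    (1 : ℝ) * f_2_20 H +
    (1 : ℝ) * f_3_17 H +
    (1 : ℝ) * f_17_20 H +
    (-1 : ℝ) * f_8_20 H +
    (-1 : ℝ) * f_3_13 H +
    (-1 : ℝ) * f_13_20 H

theorem f_5_8 (H : Hyp D U ρ) : D 5 8 = ((-1 : ℤ) : ℝ) * D 0 14 := by
  linear_combination (-1 : ℝ) * rel D U ρ H.hD 2 17 8 13 1 5 18 0 0 0 (by decide +kernel) +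
    (1 : ℝ) * H.hs 17 5 +
    (-1 : ℝ) * H.hs 8 5 +
    (-1 : ℝ) * H.hs 13 5 +
    (1 : ℝ) * f_2_5 H +
    (1 : ℝ) * f_2_18 H +
    (1 : ℝ) * f_5_17 H +
    (1 : ℝ) * f_17_18 H +
    (-1 : ℝ) * f_8_18 H +
    (-1 : ℝ) * f_5_13 H +
    (-1 : ℝ) * f_13_18 H

theorem f_8_15 (H : Hyp D U ρ) : D 8 15 = ((1 : ℤ) : ℝ) * D 0 14 := by
  linear_combination (-1 : ℝ) * rel D U ρ H.hD 2 17 8 13 1 9 15 0 0 0 (by decide +kernel) +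
    (1 : ℝ) * H.hs 17 9 +
    (1 : ℝ) * H.hs 17 15 +
    (-1 : ℝ) * H.hs 13 9 +
    (1 : ℝ) * f_2_9 H +
    (1 : ℝ) * f_2_15 H +
    (1 : ℝ) * f_9_17 H +
    (1 : ℝ) * f_15_17 H +
    (-1 : ℝ) * f_8_9 H +
    (-1 : ℝ) * f_9_13 H +
    (-1 : ℝ) * f_13_15 H

theorem f_10_17 (H : Hyp D U ρ) : D 10 17 = ((-1 : ℤ) : ℝ) * D 0 14 := by
  linear_combination (1 : ℝ) * rel D U ρ H.hD 2 17 8 13 1 10 13 0 0 0 (by decide +kernel) +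
    (-1 : ℝ) * H.hs 17 10 +
    (-1 : ℝ) * H.hs 17 13 +
    (1 : ℝ) * H.hs 13 10 +
    (-1 : ℝ) * f_2_10 H +
    (-1 : ℝ) * f_2_13 H +
    (-1 : ℝ) * f_13_17 H +
    (1 : ℝ) * f_8_10 H +
    (1 : ℝ) * f_8_13 H +
    (1 : ℝ) * f_10_13 H +
    (1 : ℝ) * H.hd 13

theorem f_16_19 (H : Hyp D U ρ) : D 16 19 = ((-1 : ℤ) : ℝ) * D 0 14 := by
  linear_combination (-1 : ℝ) * rel D U ρ H.hD 2 22 9 16 1 4 19 0 0 0 (by decide +kernel) +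
    (1 : ℝ) * H.hs 22 4 +
    (1 : ℝ) * H.hs 22 19 +
    (-1 : ℝ) * H.hs 9 4 +
    (-1 : ℝ) * H.hs 16 4 +
    (1 : ℝ) * f_2_4 H +
    (1 : ℝ) * f_2_19 H +
    (1 : ℝ) * f_4_22 H +
    (1 : ℝ) * f_19_22 H +
    (-1 : ℝ) * f_4_9 H +
    (-1 : ℝ) * f_9_19 H +
    (-1 : ℝ) * f_4_16 H

theorem f_16_17 (H : Hyp D U ρ) : D 16 17 = ((1 : ℤ) : ℝ) * D 0 14 := by
  linear_combination (-1 : ℝ) * rel D U ρ H.hD 2 22 9 16 1 6 17 0 0 0 (by decide +kernel) +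
    (1 : ℝ) * H.hs 22 6 +
    (1 : ℝ) * H.hs 22 17 +
    (-1 : ℝ) * H.hs 9 6 +
    (-1 : ℝ) * H.hs 16 6 +
    (1 : ℝ) * f_2_6 H +
    (1 : ℝ) * f_2_17 H +
    (1 : ℝ) * f_6_22 H +
    (1 : ℝ) * f_17_22 H +
    (-1 : ℝ) * f_6_9 H +
    (-1 : ℝ) * f_9_17 H +
    (-1 : ℝ) * f_6_16 H

theorem f_8_16 (H : Hyp D U ρ) : D 8 16 = ((1 : ℤ) : ℝ) * D 0 14 := by
  linear_combination (-1 : ℝ) * rel D U ρ H.hD 5 20 9 16 1 8 22 11 17 1 (by decide +kernel) +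
    (1 : ℝ) * H.hs 20 8 +
    (-1 : ℝ) * H.hs 20 11 +
    (-1 : ℝ) * H.hs 20 17 +
    (-1 : ℝ) * H.hs 9 8 +
    (-1 : ℝ) * H.hs 16 8 +
    (1 : ℝ) * H.hs 16 11 +
    (1 : ℝ) * f_5_8 H +
    (1 : ℝ) * f_5_22 H +
    (-1 : ℝ) * f_5_11 H +
    (-1 : ℝ) * f_5_17 H +
    (1 : ℝ) * f_8_20 H +
    (1 : ℝ) * f_20_22 H +
    (-1 : ℝ) * f_11_20 H +
    (-1 : ℝ) * f_17_20 H +
    (-1 : ℝ) * f_8_9 H +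
    (-1 : ℝ) * f_9_22 H +
    (1 : ℝ) * f_9_11 H +
    (1 : ℝ) * f_9_17 H +
    (-1 : ℝ) * f_16_22 H +
    (1 : ℝ) * f_11_16 H +
    (1 : ℝ) * f_16_17 H

theorem f_13_23 (H : Hyp D U ρ) : D 13 23 = ((1 : ℤ) : ℝ) * D 0 14 := by
  linear_combination (-1 : ℝ) * rel D U ρ H.hD 9 16 11 13 1 2 23 6 20 1 (by decide +kernel) +
    (1 : ℝ) * H.hs 9 2 +
    (-1 : ℝ) * H.hs 9 6 +
    (1 : ℝ) * H.hs 16 2 +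
    (-1 : ℝ) * H.hs 16 6 +
    (-1 : ℝ) * H.hs 11 2 +
    (1 : ℝ) * H.hs 11 6 +
    (-1 : ℝ) * H.hs 13 2 +
    (1 : ℝ) * H.hs 13 6 +
    (1 : ℝ) * f_2_9 H +
    (1 : ℝ) * f_9_23 H +
    (-1 : ℝ) * f_6_9 H +
    (-1 : ℝ) * f_9_20 H +
    (1 : ℝ) * f_2_16 H +
    (1 : ℝ) * f_16_23 H +
    (-1 : ℝ) * f_6_16 H +
    (-1 : ℝ) * f_16_20 H +
    (-1 : ℝ) * f_2_11 H +
    (-1 : ℝ) * f_11_23 H +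
    (1 : ℝ) * f_6_11 H +
    (1 : ℝ) * f_11_20 H +
    (-1 : ℝ) * f_2_13 H +
    (1 : ℝ) * f_6_13 H +
    (1 : ℝ) * f_13_20 H

theorem f_6_7 (H : Hyp D U ρ) : D 6 7 = ((-1 : ℤ) : ℝ) * D 0 14 := by
  linear_combination (-1 : ℝ) * rel D U ρ H.hD 3 8 4 7 1 6 17 0 0 0 (by decide +kernel) +
    (1 : ℝ) * H.hs 8 6 +
    (-1 : ℝ) * H.hs 7 6 +
    (1 : ℝ) * f_3_6 H +
    (1 : ℝ) * f_3_17 H +
    (1 : ℝ) * f_6_8 H +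
    (1 : ℝ) * f_8_17 H +
    (-1 : ℝ) * f_4_6 H +
    (-1 : ℝ) * f_4_17 H +
    (-1 : ℝ) * f_7_17 H

theorem f_10_19 (H : Hyp D U ρ) : D 10 19 = ((1 : ℤ) : ℝ) * D 0 14 := by
  linear_combination (-1 : ℝ) * rel D U ρ H.hD 3 11 5 10 1 4 19 0 0 0 (by decide +kernel) +
    (1 : ℝ) * H.hs 11 4 +
    (-1 : ℝ) * H.hs 5 4 +
    (-1 : ℝ) * H.hs 10 4 +
    (1 : ℝ) * f_3_4 H +
    (1 : ℝ) * f_3_19 H +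
    (1 : ℝ) * f_4_11 H +
    (1 : ℝ) * f_11_19 H +
    (-1 : ℝ) * f_4_5 H +
    (-1 : ℝ) * f_5_19 H +
    (-1 : ℝ) * f_4_10 H

theorem f_7_23 (H : Hyp D U ρ) : D 7 23 = ((-1 : ℤ) : ℝ) * D 0 14 := by
  linear_combination (1 : ℝ) * rel D U ρ H.hD 3 23 6 21 1 7 16 0 0 0 (by decide +kernel) +
    (-1 : ℝ) * H.hs 23 7 +
    (-1 : ℝ) * H.hs 23 16 +
    (1 : ℝ) * H.hs 21 7 +
    (1 : ℝ) * H.hs 21 16 +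
    (-1 : ℝ) * f_3_7 H +
    (-1 : ℝ) * f_3_16 H +
    (-1 : ℝ) * f_16_23 H +
    (1 : ℝ) * f_6_7 H +
    (1 : ℝ) * f_6_16 H +
    (1 : ℝ) * f_7_21 H +
    (1 : ℝ) * f_16_21 H

theorem f_1_10 (H : Hyp D U ρ) : D 1 10 = ((1 : ℤ) : ℝ) * D 0 14 := by
  linear_combination (1 : ℝ) * rel D U ρ H.hD 0 5 1 4 1 0 11 2 10 1 (by decide +kernel) +
    (-1 : ℝ) * H.hs 5 0 +
    (1 : ℝ) * H.hs 5 2 +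
    (1 : ℝ) * H.hs 1 0 +
    (1 : ℝ) * H.hs 4 0 +
    (-1 : ℝ) * H.hs 4 2 +
    (-1 : ℝ) * H.hd 0 +
    (-1 : ℝ) * f_0_11 H +
    (1 : ℝ) * f_0_2 H +
    (1 : ℝ) * f_0_10 H +
    (-1 : ℝ) * f_0_5 H +
    (-1 : ℝ) * f_5_11 H +
    (1 : ℝ) * f_2_5 H +
    (1 : ℝ) * f_5_10 H +
    (1 : ℝ) * f_0_1 H +
    (1 : ℝ) * f_1_11 H +
    (-1 : ℝ) * f_1_2 H +
    (1 : ℝ) * f_0_4 H +
    (1 : ℝ) * f_4_11 H +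
    (-1 : ℝ) * f_2_4 H +
    (-1 : ℝ) * f_4_10 H

theorem f_1_16 (H : Hyp D U ρ) : D 1 16 = ((-1 : ℤ) : ℝ) * D 0 14 := by
  linear_combination (-1 : ℝ) * rel D U ρ H.hD 0 5 1 4 1 0 16 2 15 1 (by decide +kernel) +
    (1 : ℝ) * H.hs 5 0 +
    (-1 : ℝ) * H.hs 5 2 +
    (-1 : ℝ) * H.hs 1 0 +
    (-1 : ℝ) * H.hs 4 0 +
    (1 : ℝ) * H.hs 4 2 +
    (1 : ℝ) * H.hd 0 +
    (1 : ℝ) * f_0_16 H +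
    (-1 : ℝ) * f_0_2 H +
    (-1 : ℝ) * f_0_15 H +
    (1 : ℝ) * f_0_5 H +
    (1 : ℝ) * f_5_16 H +
    (-1 : ℝ) * f_2_5 H +
    (-1 : ℝ) * f_5_15 H +
    (-1 : ℝ) * f_0_1 H +
    (1 : ℝ) * f_1_2 H +
    (1 : ℝ) * f_1_15 H +
    (-1 : ℝ) * f_0_4 H +
    (-1 : ℝ) * f_4_16 H +
    (1 : ℝ) * f_2_4 H +
    (1 : ℝ) * f_4_15 H

theorem f_8_14 (H : Hyp D U ρ) : D 8 14 = ((0 : ℤ) : ℝ) * D 0 14 := by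
  linear_combination (1 : ℝ) * rel D U ρ H.hD 0 14 4 12 1 3 8 4 7 1 (by decide +kernel) +
    (-1 : ℝ) * H.hs 14 3 +
    (-1 : ℝ) * H.hs 14 8 +
    (1 : ℝ) * H.hs 14 4 +
    (1 : ℝ) * H.hs 14 7 +
    (1 : ℝ) * H.hs 4 3 +
    (1 : ℝ) * H.hs 12 3 +
    (1 : ℝ) * H.hs 12 8 +
    (-1 : ℝ) * H.hs 12 4 +
    (-1 : ℝ) * H.hs 12 7 +
    (-1 : ℝ) * f_0_3 H +
    (-1 : ℝ) * f_0_8 H +
    (1 : ℝ) * f_0_4 H +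
    (1 : ℝ) * f_0_7 H +
    (-1 : ℝ) * f_3_14 H +
    (1 : ℝ) * f_4_14 H +
    (1 : ℝ) * f_7_14 H +
    (1 : ℝ) * f_3_4 H +
    (1 : ℝ) * f_4_8 H +
    (-1 : ℝ) * H.hd 4 +
    (-1 : ℝ) * f_4_7 H +
    (1 : ℝ) * f_3_12 H +
    (1 : ℝ) * f_8_12 H +
    (-1 : ℝ) * f_4_12 H +
    (-1 : ℝ) * f_7_12 H

theorem f_1_23 (H : Hyp D U ρ) : D 1 23 = ((0 : ℤ) : ℝ) * D 0 14 := by
  linear_combination (-1 : ℝ) * rel D U ρ H.hD 0 19 1 18 1 7 23 10 19 1 (by decide +kernel) +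
    (1 : ℝ) * H.hs 19 7 +
    (-1 : ℝ) * H.hs 19 10 +
    (-1 : ℝ) * H.hs 18 7 +
    (1 : ℝ) * H.hs 18 10 +
    (1 : ℝ) * f_0_7 H +
    (1 : ℝ) * f_0_23 H +
    (-1 : ℝ) * f_0_10 H +
    (-1 : ℝ) * f_0_19 H +
    (1 : ℝ) * f_7_19 H +
    (1 : ℝ) * f_19_23 H +
    (-1 : ℝ) * f_10_19 H +
    (-1 : ℝ) * H.hd 19 +
    (-1 : ℝ) * f_1_7 H +
    (1 : ℝ) * f_1_10 H +
    (1 : ℝ) * f_1_19 H +
    (-1 : ℝ) * f_7_18 H +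
    (-1 : ℝ) * f_18_23 H +
    (1 : ℝ) * f_10_18 H +
    (1 : ℝ) * f_18_19 H

theorem r_0 (H : Hyp D U ρ) : ∀ j, D 0 j = (d0 0 j : ℝ) * D 0 14 :=
  fin24 (fun j => D 0 j = (d0 0 j : ℝ) * D 0 14)
    (H.hd 0)
    (f_0_1 H)
    (f_0_2 H)
    (f_0_3 H)
    (f_0_4 H)
    (f_0_5 H)
    (f_0_6 H)
    (f_0_7 H)
    (f_0_8 H)
    (f_0_9 H)
    (f_0_10 H)
    (f_0_11 H)
    (f_0_12 H)
    (f_0_13 H)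
    (f_0_14 H)
    (f_0_15 H)
    (f_0_16 H)
    (f_0_17 H)
    (f_0_18 H)
    (f_0_19 H)
    (f_0_20 H)
    (f_0_21 H)
    (f_0_22 H)
    (f_0_23 H)

theorem r_1 (H : Hyp D U ρ) : ∀ j, D 1 j = (d0 1 j : ℝ) * D 0 14 :=
  fin24 (fun j => D 1 j = (d0 1 j : ℝ) * D 0 14)
    ((H.hs 1 0).trans (f_0_1 H))
    (H.hd 1)
    (f_1_2 H)
    (f_1_3 H)
    (f_1_4 H)
    (f_1_5 H)
    (f_1_6 H)
    (f_1_7 H)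
    (f_1_8 H)
    (f_1_9 H)
    (f_1_10 H)
    (f_1_11 H)
    (f_1_12 H)
    (f_1_13 H)
    (f_1_14 H)
    (f_1_15 H)
    (f_1_16 H)
    (f_1_17 H)
    (f_1_18 H)
    (f_1_19 H)
    (f_1_20 H)
    (f_1_21 H)
    (f_1_22 H)
    (f_1_23 H)

theorem r_2 (H : Hyp D U ρ) : ∀ j, D 2 j = (d0 2 j : ℝ) * D 0 14 :=
  fin24 (fun j => D 2 j = (d0 2 j : ℝ) * D 0 14)
    ((H.hs 2 0).trans (f_0_2 H))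
    ((H.hs 2 1).trans (f_1_2 H))
    (H.hd 2)
    (f_2_3 H)
    (f_2_4 H)
    (f_2_5 H)
    (f_2_6 H)
    (f_2_7 H)
    (f_2_8 H)
    (f_2_9 H)
    (f_2_10 H)
    (f_2_11 H)
    (f_2_12 H)
    (f_2_13 H)
    (f_2_14 H)
    (f_2_15 H)
    (f_2_16 H)
    (f_2_17 H)
    (f_2_18 H)
    (f_2_19 H)
    (f_2_20 H)
    (f_2_21 H)
    (f_2_22 H)
    (f_2_23 H)

theorem r_3 (H : Hyp D U ρ) : ∀ j, D 3 j = (d0 3 j : ℝ) * D 0 14 :=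
  fin24 (fun j => D 3 j = (d0 3 j : ℝ) * D 0 14)
    ((H.hs 3 0).trans (f_0_3 H))
    ((H.hs 3 1).trans (f_1_3 H))
    ((H.hs 3 2).trans (f_2_3 H))
    (H.hd 3)
    (f_3_4 H)
    (f_3_5 H)
    (f_3_6 H)
    (f_3_7 H)
    (f_3_8 H)
    (f_3_9 H)
    (f_3_10 H)
    (f_3_11 H)
    (f_3_12 H)
    (f_3_13 H)
    (f_3_14 H)
    (f_3_15 H)
    (f_3_16 H)
    (f_3_17 H)
    (f_3_18 H)
    (f_3_19 H)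
    (f_3_20 H)
    (f_3_21 H)
    (f_3_22 H)
    (f_3_23 H)

theorem r_4 (H : Hyp D U ρ) : ∀ j, D 4 j = (d0 4 j : ℝ) * D 0 14 :=
  fin24 (fun j => D 4 j = (d0 4 j : ℝ) * D 0 14)
    ((H.hs 4 0).trans (f_0_4 H))
    ((H.hs 4 1).trans (f_1_4 H))
    ((H.hs 4 2).trans (f_2_4 H))
    ((H.hs 4 3).trans (f_3_4 H))
    (H.hd 4)
    (f_4_5 H)
    (f_4_6 H)
    (f_4_7 H)
    (f_4_8 H)
    (f_4_9 H)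
    (f_4_10 H)
    (f_4_11 H)
    (f_4_12 H)
    (f_4_13 H)
    (f_4_14 H)
    (f_4_15 H)
    (f_4_16 H)
    (f_4_17 H)
    (f_4_18 H)
    (f_4_19 H)
    (f_4_20 H)
    (f_4_21 H)
    (f_4_22 H)
    (f_4_23 H)

theorem r_5 (H : Hyp D U ρ) : ∀ j, D 5 j = (d0 5 j : ℝ) * D 0 14 :=
  fin24 (fun j => D 5 j = (d0 5 j : ℝ) * D 0 14)
    ((H.hs 5 0).trans (f_0_5 H))
    ((H.hs 5 1).trans (f_1_5 H))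
    ((H.hs 5 2).trans (f_2_5 H))
    ((H.hs 5 3).trans (f_3_5 H))
    ((H.hs 5 4).trans (f_4_5 H))
    (H.hd 5)
    (f_5_6 H)
    (f_5_7 H)
    (f_5_8 H)
    (f_5_9 H)
    (f_5_10 H)
    (f_5_11 H)
    (f_5_12 H)
    (f_5_13 H)
    (f_5_14 H)
    (f_5_15 H)
    (f_5_16 H)
    (f_5_17 H)
    (f_5_18 H)
    (f_5_19 H)
    (f_5_20 H)
    (f_5_21 H)
    (f_5_22 H)
    (f_5_23 H)

theorem r_6 (H : Hyp D U ρ) : ∀ j, D 6 j = (d0 6 j : ℝ) * D 0 14 :=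
  fin24 (fun j => D 6 j = (d0 6 j : ℝ) * D 0 14)
    ((H.hs 6 0).trans (f_0_6 H))
    ((H.hs 6 1).trans (f_1_6 H))
    ((H.hs 6 2).trans (f_2_6 H))
    ((H.hs 6 3).trans (f_3_6 H))
    ((H.hs 6 4).trans (f_4_6 H))
    ((H.hs 6 5).trans (f_5_6 H))
    (H.hd 6)
    (f_6_7 H)
    (f_6_8 H)
    (f_6_9 H)
    (f_6_10 H)
    (f_6_11 H)
    (f_6_12 H)
    (f_6_13 H)
    (f_6_14 H)
    (f_6_15 H)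
    (f_6_16 H)
    (f_6_17 H)
    (f_6_18 H)
    (f_6_19 H)
    (f_6_20 H)
    (f_6_21 H)
    (f_6_22 H)
    (f_6_23 H)

theorem r_7 (H : Hyp D U ρ) : ∀ j, D 7 j = (d0 7 j : ℝ) * D 0 14 :=
  fin24 (fun j => D 7 j = (d0 7 j : ℝ) * D 0 14)
    ((H.hs 7 0).trans (f_0_7 H))
    ((H.hs 7 1).trans (f_1_7 H))
    ((H.hs 7 2).trans (f_2_7 H))
    ((H.hs 7 3).trans (f_3_7 H))
    ((H.hs 7 4).trans (f_4_7 H))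
    ((H.hs 7 5).trans (f_5_7 H))
    ((H.hs 7 6).trans (f_6_7 H))
    (H.hd 7)
    (f_7_8 H)
    (f_7_9 H)
    (f_7_10 H)
    (f_7_11 H)
    (f_7_12 H)
    (f_7_13 H)
    (f_7_14 H)
    (f_7_15 H)
    (f_7_16 H)
    (f_7_17 H)
    (f_7_18 H)
    (f_7_19 H)
    (f_7_20 H)
    (f_7_21 H)
    (f_7_22 H)
    (f_7_23 H)

theorem r_8 (H : Hyp D U ρ) : ∀ j, D 8 j = (d0 8 j : ℝ) * D 0 14 :=
  fin24 (fun j => D 8 j = (d0 8 j : ℝ) * D 0 14)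
    ((H.hs 8 0).trans (f_0_8 H))
    ((H.hs 8 1).trans (f_1_8 H))
    ((H.hs 8 2).trans (f_2_8 H))
    ((H.hs 8 3).trans (f_3_8 H))
    ((H.hs 8 4).trans (f_4_8 H))
    ((H.hs 8 5).trans (f_5_8 H))
    ((H.hs 8 6).trans (f_6_8 H))
    ((H.hs 8 7).trans (f_7_8 H))
    (H.hd 8)
    (f_8_9 H)
    (f_8_10 H)
    (f_8_11 H)
    (f_8_12 H)
    (f_8_13 H)
    (f_8_14 H)
    (f_8_15 H)
    (f_8_16 H)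
    (f_8_17 H)
    (f_8_18 H)
    (f_8_19 H)
    (f_8_20 H)
    (f_8_21 H)
    (f_8_22 H)
    (f_8_23 H)

theorem r_9 (H : Hyp D U ρ) : ∀ j, D 9 j = (d0 9 j : ℝ) * D 0 14 :=
  fin24 (fun j => D 9 j = (d0 9 j : ℝ) * D 0 14)
    ((H.hs 9 0).trans (f_0_9 H))
    ((H.hs 9 1).trans (f_1_9 H))
    ((H.hs 9 2).trans (f_2_9 H))
    ((H.hs 9 3).trans (f_3_9 H))
    ((H.hs 9 4).trans (f_4_9 H))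
    ((H.hs 9 5).trans (f_5_9 H))
    ((H.hs 9 6).trans (f_6_9 H))
    ((H.hs 9 7).trans (f_7_9 H))
    ((H.hs 9 8).trans (f_8_9 H))
    (H.hd 9)
    (f_9_10 H)
    (f_9_11 H)
    (f_9_12 H)
    (f_9_13 H)
    (f_9_14 H)
    (f_9_15 H)
    (f_9_16 H)
    (f_9_17 H)
    (f_9_18 H)
    (f_9_19 H)
    (f_9_20 H)
    (f_9_21 H)
    (f_9_22 H)
    (f_9_23 H)

theorem r_10 (H : Hyp D U ρ) : ∀ j, D 10 j = (d0 10 j : ℝ) * D 0 14 :=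
  fin24 (fun j => D 10 j = (d0 10 j : ℝ) * D 0 14)
    ((H.hs 10 0).trans (f_0_10 H))
    ((H.hs 10 1).trans (f_1_10 H))
    ((H.hs 10 2).trans (f_2_10 H))
    ((H.hs 10 3).trans (f_3_10 H))
    ((H.hs 10 4).trans (f_4_10 H))
    ((H.hs 10 5).trans (f_5_10 H))
    ((H.hs 10 6).trans (f_6_10 H))
    ((H.hs 10 7).trans (f_7_10 H))
    ((H.hs 10 8).trans (f_8_10 H))
    ((H.hs 10 9).trans (f_9_10 H))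
    (H.hd 10)
    (f_10_11 H)
    (f_10_12 H)
    (f_10_13 H)
    (f_10_14 H)
    (f_10_15 H)
    (f_10_16 H)
    (f_10_17 H)
    (f_10_18 H)
    (f_10_19 H)
    (f_10_20 H)
    (f_10_21 H)
    (f_10_22 H)
    (f_10_23 H)

theorem r_11 (H : Hyp D U ρ) : ∀ j, D 11 j = (d0 11 j : ℝ) * D 0 14 :=
  fin24 (fun j => D 11 j = (d0 11 j : ℝ) * D 0 14)
    ((H.hs 11 0).trans (f_0_11 H))
    ((H.hs 11 1).trans (f_1_11 H))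
    ((H.hs 11 2).trans (f_2_11 H))
    ((H.hs 11 3).trans (f_3_11 H))
    ((H.hs 11 4).trans (f_4_11 H))
    ((H.hs 11 5).trans (f_5_11 H))
    ((H.hs 11 6).trans (f_6_11 H))
    ((H.hs 11 7).trans (f_7_11 H))
    ((H.hs 11 8).trans (f_8_11 H))
    ((H.hs 11 9).trans (f_9_11 H))
    ((H.hs 11 10).trans (f_10_11 H))
    (H.hd 11)
    (f_11_12 H)
    (f_11_13 H)
    (f_11_14 H)
    (f_11_15 H)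
    (f_11_16 H)
    (f_11_17 H)
    (f_11_18 H)
    (f_11_19 H)
    (f_11_20 H)
    (f_11_21 H)
    (f_11_22 H)
    (f_11_23 H)

theorem r_12 (H : Hyp D U ρ) : ∀ j, D 12 j = (d0 12 j : ℝ) * D 0 14 :=
  fin24 (fun j => D 12 j = (d0 12 j : ℝ) * D 0 14)
    ((H.hs 12 0).trans (f_0_12 H))
    ((H.hs 12 1).trans (f_1_12 H))
    ((H.hs 12 2).trans (f_2_12 H))
    ((H.hs 12 3).trans (f_3_12 H))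
    ((H.hs 12 4).trans (f_4_12 H))
    ((H.hs 12 5).trans (f_5_12 H))
    ((H.hs 12 6).trans (f_6_12 H))
    ((H.hs 12 7).trans (f_7_12 H))
    ((H.hs 12 8).trans (f_8_12 H))
    ((H.hs 12 9).trans (f_9_12 H))
    ((H.hs 12 10).trans (f_10_12 H))
    ((H.hs 12 11).trans (f_11_12 H))
    (H.hd 12)
    (f_12_13 H)
    (f_12_14 H)
    (f_12_15 H)
    (f_12_16 H)
    (f_12_17 H)
    (f_12_18 H)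
    (f_12_19 H)
    (f_12_20 H)
    (f_12_21 H)
    (f_12_22 H)
    (f_12_23 H)

theorem r_13 (H : Hyp D U ρ) : ∀ j, D 13 j = (d0 13 j : ℝ) * D 0 14 :=
  fin24 (fun j => D 13 j = (d0 13 j : ℝ) * D 0 14)
    ((H.hs 13 0).trans (f_0_13 H))
    ((H.hs 13 1).trans (f_1_13 H))
    ((H.hs 13 2).trans (f_2_13 H))
    ((H.hs 13 3).trans (f_3_13 H))
    ((H.hs 13 4).trans (f_4_13 H))
    ((H.hs 13 5).trans (f_5_13 H))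
    ((H.hs 13 6).trans (f_6_13 H))
    ((H.hs 13 7).trans (f_7_13 H))
    ((H.hs 13 8).trans (f_8_13 H))
    ((H.hs 13 9).trans (f_9_13 H))
    ((H.hs 13 10).trans (f_10_13 H))
    ((H.hs 13 11).trans (f_11_13 H))
    ((H.hs 13 12).trans (f_12_13 H))
    (H.hd 13)
    (f_13_14 H)
    (f_13_15 H)
    (f_13_16 H)
    (f_13_17 H)
    (f_13_18 H)
    (f_13_19 H)
    (f_13_20 H)
    (f_13_21 H)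
    (f_13_22 H)
    (f_13_23 H)

theorem r_14 (H : Hyp D U ρ) : ∀ j, D 14 j = (d0 14 j : ℝ) * D 0 14 :=
  fin24 (fun j => D 14 j = (d0 14 j : ℝ) * D 0 14)
    ((H.hs 14 0).trans (f_0_14 H))
    ((H.hs 14 1).trans (f_1_14 H))
    ((H.hs 14 2).trans (f_2_14 H))
    ((H.hs 14 3).trans (f_3_14 H))
    ((H.hs 14 4).trans (f_4_14 H))
    ((H.hs 14 5).trans (f_5_14 H))
    ((H.hs 14 6).trans (f_6_14 H))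
    ((H.hs 14 7).trans (f_7_14 H))
    ((H.hs 14 8).trans (f_8_14 H))
    ((H.hs 14 9).trans (f_9_14 H))
    ((H.hs 14 10).trans (f_10_14 H))
    ((H.hs 14 11).trans (f_11_14 H))
    ((H.hs 14 12).trans (f_12_14 H))
    ((H.hs 14 13).trans (f_13_14 H))
    (H.hd 14)
    (f_14_15 H)
    (f_14_16 H)
    (f_14_17 H)
    (f_14_18 H)
    (f_14_19 H)
    (f_14_20 H)
    (f_14_21 H)
    (f_14_22 H)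
    (f_14_23 H)

theorem r_15 (H : Hyp D U ρ) : ∀ j, D 15 j = (d0 15 j : ℝ) * D 0 14 :=
  fin24 (fun j => D 15 j = (d0 15 j : ℝ) * D 0 14)
    ((H.hs 15 0).trans (f_0_15 H))
    ((H.hs 15 1).trans (f_1_15 H))
    ((H.hs 15 2).trans (f_2_15 H))
    ((H.hs 15 3).trans (f_3_15 H))
    ((H.hs 15 4).trans (f_4_15 H))
    ((H.hs 15 5).trans (f_5_15 H))
    ((H.hs 15 6).trans (f_6_15 H))
    ((H.hs 15 7).trans (f_7_15 H))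
    ((H.hs 15 8).trans (f_8_15 H))
    ((H.hs 15 9).trans (f_9_15 H))
    ((H.hs 15 10).trans (f_10_15 H))
    ((H.hs 15 11).trans (f_11_15 H))
    ((H.hs 15 12).trans (f_12_15 H))
    ((H.hs 15 13).trans (f_13_15 H))
    ((H.hs 15 14).trans (f_14_15 H))
    (H.hd 15)
    (f_15_16 H)
    (f_15_17 H)
    (f_15_18 H)
    (f_15_19 H)
    (f_15_20 H)
    (f_15_21 H)
    (f_15_22 H)
    (f_15_23 H)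

theorem r_16 (H : Hyp D U ρ) : ∀ j, D 16 j = (d0 16 j : ℝ) * D 0 14 :=
  fin24 (fun j => D 16 j = (d0 16 j : ℝ) * D 0 14)
    ((H.hs 16 0).trans (f_0_16 H))
    ((H.hs 16 1).trans (f_1_16 H))
    ((H.hs 16 2).trans (f_2_16 H))
    ((H.hs 16 3).trans (f_3_16 H))
    ((H.hs 16 4).trans (f_4_16 H))
    ((H.hs 16 5).trans (f_5_16 H))
    ((H.hs 16 6).trans (f_6_16 H))
    ((H.hs 16 7).trans (f_7_16 H))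
    ((H.hs 16 8).trans (f_8_16 H))
    ((H.hs 16 9).trans (f_9_16 H))
    ((H.hs 16 10).trans (f_10_16 H))
    ((H.hs 16 11).trans (f_11_16 H))
    ((H.hs 16 12).trans (f_12_16 H))
    ((H.hs 16 13).trans (f_13_16 H))
    ((H.hs 16 14).trans (f_14_16 H))
    ((H.hs 16 15).trans (f_15_16 H))
    (H.hd 16)
    (f_16_17 H)
    (f_16_18 H)
    (f_16_19 H)
    (f_16_20 H)
    (f_16_21 H)
    (f_16_22 H)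
    (f_16_23 H)

theorem r_17 (H : Hyp D U ρ) : ∀ j, D 17 j = (d0 17 j : ℝ) * D 0 14 :=
  fin24 (fun j => D 17 j = (d0 17 j : ℝ) * D 0 14)
    ((H.hs 17 0).trans (f_0_17 H))
    ((H.hs 17 1).trans (f_1_17 H))
    ((H.hs 17 2).trans (f_2_17 H))
    ((H.hs 17 3).trans (f_3_17 H))
    ((H.hs 17 4).trans (f_4_17 H))
    ((H.hs 17 5).trans (f_5_17 H))
    ((H.hs 17 6).trans (f_6_17 H))
    ((H.hs 17 7).trans (f_7_17 H))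
    ((H.hs 17 8).trans (f_8_17 H))
    ((H.hs 17 9).trans (f_9_17 H))
    ((H.hs 17 10).trans (f_10_17 H))
    ((H.hs 17 11).trans (f_11_17 H))
    ((H.hs 17 12).trans (f_12_17 H))
    ((H.hs 17 13).trans (f_13_17 H))
    ((H.hs 17 14).trans (f_14_17 H))
    ((H.hs 17 15).trans (f_15_17 H))
    ((H.hs 17 16).trans (f_16_17 H))
    (H.hd 17)
    (f_17_18 H)
    (f_17_19 H)
    (f_17_20 H)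
    (f_17_21 H)
    (f_17_22 H)
    (f_17_23 H)

theorem r_18 (H : Hyp D U ρ) : ∀ j, D 18 j = (d0 18 j : ℝ) * D 0 14 :=
  fin24 (fun j => D 18 j = (d0 18 j : ℝ) * D 0 14)
    ((H.hs 18 0).trans (f_0_18 H))
    ((H.hs 18 1).trans (f_1_18 H))
    ((H.hs 18 2).trans (f_2_18 H))
    ((H.hs 18 3).trans (f_3_18 H))
    ((H.hs 18 4).trans (f_4_18 H))
    ((H.hs 18 5).trans (f_5_18 H))
    ((H.hs 18 6).trans (f_6_18 H))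
    ((H.hs 18 7).trans (f_7_18 H))
    ((H.hs 18 8).trans (f_8_18 H))
    ((H.hs 18 9).trans (f_9_18 H))
    ((H.hs 18 10).trans (f_10_18 H))
    ((H.hs 18 11).trans (f_11_18 H))
    ((H.hs 18 12).trans (f_12_18 H))
    ((H.hs 18 13).trans (f_13_18 H))
    ((H.hs 18 14).trans (f_14_18 H))
    ((H.hs 18 15).trans (f_15_18 H))
    ((H.hs 18 16).trans (f_16_18 H))
    ((H.hs 18 17).trans (f_17_18 H))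
    (H.hd 18)
    (f_18_19 H)
    (f_18_20 H)
    (f_18_21 H)
    (f_18_22 H)
    (f_18_23 H)

theorem r_19 (H : Hyp D U ρ) : ∀ j, D 19 j = (d0 19 j : ℝ) * D 0 14 :=
  fin24 (fun j => D 19 j = (d0 19 j : ℝ) * D 0 14)
    ((H.hs 19 0).trans (f_0_19 H))
    ((H.hs 19 1).trans (f_1_19 H))
    ((H.hs 19 2).trans (f_2_19 H))
    ((H.hs 19 3).trans (f_3_19 H))
    ((H.hs 19 4).trans (f_4_19 H))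
    ((H.hs 19 5).trans (f_5_19 H))
    ((H.hs 19 6).trans (f_6_19 H))
    ((H.hs 19 7).trans (f_7_19 H))
    ((H.hs 19 8).trans (f_8_19 H))
    ((H.hs 19 9).trans (f_9_19 H))
    ((H.hs 19 10).trans (f_10_19 H))
    ((H.hs 19 11).trans (f_11_19 H))
    ((H.hs 19 12).trans (f_12_19 H))
    ((H.hs 19 13).trans (f_13_19 H))
    ((H.hs 19 14).trans (f_14_19 H))
    ((H.hs 19 15).trans (f_15_19 H))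
    ((H.hs 19 16).trans (f_16_19 H))
    ((H.hs 19 17).trans (f_17_19 H))
    ((H.hs 19 18).trans (f_18_19 H))
    (H.hd 19)
    (f_19_20 H)
    (f_19_21 H)
    (f_19_22 H)
    (f_19_23 H)

theorem r_20 (H : Hyp D U ρ) : ∀ j, D 20 j = (d0 20 j : ℝ) * D 0 14 :=
  fin24 (fun j => D 20 j = (d0 20 j : ℝ) * D 0 14)
    ((H.hs 20 0).trans (f_0_20 H))
    ((H.hs 20 1).trans (f_1_20 H))
    ((H.hs 20 2).trans (f_2_20 H))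
    ((H.hs 20 3).trans (f_3_20 H))
    ((H.hs 20 4).trans (f_4_20 H))
    ((H.hs 20 5).trans (f_5_20 H))
    ((H.hs 20 6).trans (f_6_20 H))
    ((H.hs 20 7).trans (f_7_20 H))
    ((H.hs 20 8).trans (f_8_20 H))
    ((H.hs 20 9).trans (f_9_20 H))
    ((H.hs 20 10).trans (f_10_20 H))
    ((H.hs 20 11).trans (f_11_20 H))
    ((H.hs 20 12).trans (f_12_20 H))
    ((H.hs 20 13).trans (f_13_20 H))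
    ((H.hs 20 14).trans (f_14_20 H))
    ((H.hs 20 15).trans (f_15_20 H))
    ((H.hs 20 16).trans (f_16_20 H))
    ((H.hs 20 17).trans (f_17_20 H))
    ((H.hs 20 18).trans (f_18_20 H))
    ((H.hs 20 19).trans (f_19_20 H))
    (H.hd 20)
    (f_20_21 H)
    (f_20_22 H)
    (f_20_23 H)

theorem r_21 (H : Hyp D U ρ) : ∀ j, D 21 j = (d0 21 j : ℝ) * D 0 14 :=
  fin24 (fun j => D 21 j = (d0 21 j : ℝ) * D 0 14)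
    ((H.hs 21 0).trans (f_0_21 H))
    ((H.hs 21 1).trans (f_1_21 H))
    ((H.hs 21 2).trans (f_2_21 H))
    ((H.hs 21 3).trans (f_3_21 H))
    ((H.hs 21 4).trans (f_4_21 H))
    ((H.hs 21 5).trans (f_5_21 H))
    ((H.hs 21 6).trans (f_6_21 H))
    ((H.hs 21 7).trans (f_7_21 H))
    ((H.hs 21 8).trans (f_8_21 H))
    ((H.hs 21 9).trans (f_9_21 H))
    ((H.hs 21 10).trans (f_10_21 H))
    ((H.hs 21 11).trans (f_11_21 H))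
    ((H.hs 21 12).trans (f_12_21 H))
    ((H.hs 21 13).trans (f_13_21 H))
    ((H.hs 21 14).trans (f_14_21 H))
    ((H.hs 21 15).trans (f_15_21 H))
    ((H.hs 21 16).trans (f_16_21 H))
    ((H.hs 21 17).trans (f_17_21 H))
    ((H.hs 21 18).trans (f_18_21 H))
    ((H.hs 21 19).trans (f_19_21 H))
    ((H.hs 21 20).trans (f_20_21 H))
    (H.hd 21)
    (f_21_22 H)
    (f_21_23 H)

theorem r_22 (H : Hyp D U ρ) : ∀ j, D 22 j = (d0 22 j : ℝ) * D 0 14 :=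
  fin24 (fun j => D 22 j = (d0 22 j : ℝ) * D 0 14)
    ((H.hs 22 0).trans (f_0_22 H))
    ((H.hs 22 1).trans (f_1_22 H))
    ((H.hs 22 2).trans (f_2_22 H))
    ((H.hs 22 3).trans (f_3_22 H))
    ((H.hs 22 4).trans (f_4_22 H))
    ((H.hs 22 5).trans (f_5_22 H))
    ((H.hs 22 6).trans (f_6_22 H))
    ((H.hs 22 7).trans (f_7_22 H))
    ((H.hs 22 8).trans (f_8_22 H))
    ((H.hs 22 9).trans (f_9_22 H))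
    ((H.hs 22 10).trans (f_10_22 H))
    ((H.hs 22 11).trans (f_11_22 H))
    ((H.hs 22 12).trans (f_12_22 H))
    ((H.hs 22 13).trans (f_13_22 H))
    ((H.hs 22 14).trans (f_14_22 H))
    ((H.hs 22 15).trans (f_15_22 H))
    ((H.hs 22 16).trans (f_16_22 H))
    ((H.hs 22 17).trans (f_17_22 H))
    ((H.hs 22 18).trans (f_18_22 H))
    ((H.hs 22 19).trans (f_19_22 H))
    ((H.hs 22 20).trans (f_20_22 H))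
    ((H.hs 22 21).trans (f_21_22 H))
    (H.hd 22)
    (f_22_23 H)

theorem r_23 (H : Hyp D U ρ) : ∀ j, D 23 j = (d0 23 j : ℝ) * D 0 14 :=
  fin24 (fun j => D 23 j = (d0 23 j : ℝ) * D 0 14)
    ((H.hs 23 0).trans (f_0_23 H))
    ((H.hs 23 1).trans (f_1_23 H))
    ((H.hs 23 2).trans (f_2_23 H))
    ((H.hs 23 3).trans (f_3_23 H))
    ((H.hs 23 4).trans (f_4_23 H))
    ((H.hs 23 5).trans (f_5_23 H))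
    ((H.hs 23 6).trans (f_6_23 H))
    ((H.hs 23 7).trans (f_7_23 H))
    ((H.hs 23 8).trans (f_8_23 H))
    ((H.hs 23 9).trans (f_9_23 H))
    ((H.hs 23 10).trans (f_10_23 H))
    ((H.hs 23 11).trans (f_11_23 H))
    ((H.hs 23 12).trans (f_12_23 H))
    ((H.hs 23 13).trans (f_13_23 H))
    ((H.hs 23 14).trans (f_14_23 H))
    ((H.hs 23 15).trans (f_15_23 H))
    ((H.hs 23 16).trans (f_16_23 H))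
    ((H.hs 23 17).trans (f_17_23 H))
    ((H.hs 23 18).trans (f_18_23 H))
    ((H.hs 23 19).trans (f_19_23 H))
    ((H.hs 23 20).trans (f_20_23 H))
    ((H.hs 23 21).trans (f_21_23 H))
    ((H.hs 23 22).trans (f_22_23 H))
    (H.hd 23)

end

theorem elim (D : Fin 24 → Fin 24 → ℝ) (U ρ : Fin 24 → Fin 6 → ℝ)
    (hD : ∀ i j, D i j = ∑ k, (s i k : ℝ) * U j k + ∑ k, ρ i k * (s j k : ℝ))
    (hs : ∀ i j, D i j = D j i) (hd : ∀ i, D i i = 0) (hc : ∀ i j, ip i j = 2 → D i j = 0) :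
    ∀ i j, D i j = (d0 i j : ℝ) * D 0 14 := by
  have H : Hyp D U ρ := ⟨hD, hs, fun i => by rw [hd]; simp, fun i j h => by rw [hc i j h]; simp⟩
  exact fin24 (fun i => ∀ j, D i j = (d0 i j : ℝ) * D 0 14)
    (r_0 H) (r_1 H) (r_2 H) (r_3 H) (r_4 H) (r_5 H) (r_6 H) (r_7 H) (r_8 H) (r_9 H) (r_10 H) (r_11 H) (r_12 H) (r_13 H) (r_14 H) (r_15 H) (r_16 H) (r_17 H) (r_18 H) (r_19 H) (r_20 H) (r_21 H) (r_22 H) (r_23 H)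

end Pool.Agent.H29Z.SJ
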