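import Pool.Agent.H29Z.SJ.Elim

/-!
# Second order analysis and local rigidity in coordinates
-/

set_option autoImplicit false

namespace Pool.Agent.H29Z.SJ

/-- a left inverse of the configuration applied to `Y` -/
noncomputable def Tm (Y : Fin 24 → Fin 6 → ℝ) (k a : Fin 6) : ℝ :=
  (![Y 0 a - Y 12 a - Y 15 a + Y 3 a, Y 0 a - Y 7 a - Y 10 a + Y 3 a,
     Y 0 a - Y 3 a - Y 6 a + Y 1 a, Y 0 a - Y 1 a - Y 6 a + Y 3 a,
     Y 1 a - Y 0 a - Y 6 a + Y 3 a, Y 2 a - Y 0 a - Y 6 a + Y 4 a] k) / 4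

/-- the configuration with real coordinates -/
def S (i : Fin 24) (k : Fin 6) : ℝ := (s i k : ℝ)

/-- Fourier coefficients on the cube `0, 2, 7, 9, 15, 16, 21, 22` -/
def W0 (f : Fin 24 → ℝ) : ℝ := f 0 + f 2 + f 7 + f 9 + f 15 + f 16 + f 21 + f 22
/-- Fourier coefficient -/
def W3 (f : Fin 24 → ℝ) : ℝ := f 0 - f 2 - f 7 + f 9 + f 15 - f 16 - f 21 + f 22
/-- Fourier coefficient -/
def W5 (f : Fin 24 → ℝ) : ℝ := f 0 - f 2 + f 7 - f 9 - f 15 + f 16 - f 21 + f 22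
/-- Fourier coefficient -/
def W6 (f : Fin 24 → ℝ) : ℝ := f 0 + f 2 - f 7 - f 9 - f 15 - f 16 + f 21 + f 22
/-- Fourier coefficient -/
def W7 (f : Fin 24 → ℝ) : ℝ := f 0 - f 2 - f 7 + f 9 - f 15 + f 16 + f 21 - f 22

/-- the stress energy of the cube -/
def En (Y : Fin 24 → Fin 6 → ℝ) : ℝ :=
  ∑ a, (W0 (fun i => Y i a) ^ 2 - W3 (fun i => Y i a) ^ 2 - W5 (fun i => Y i a) ^ 2 -
    W6 (fun i => Y i a) ^ 2 - 2 * W7 (fun i => Y i a) ^ 2)

theorem s_cube : ∀ k, s 0 k + s 2 k + s 7 k + s 9 k + s 15 k + s 16 k + s 21 k + s 22 k = 0 ∧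
    s 0 k - s 2 k - s 7 k + s 9 k + s 15 k - s 16 k - s 21 k + s 22 k = 0 ∧
    s 0 k - s 2 k + s 7 k - s 9 k - s 15 k + s 16 k - s 21 k + s 22 k = 0 ∧
    s 0 k + s 2 k - s 7 k - s 9 k - s 15 k - s 16 k + s 21 k + s 22 k = 0 ∧
    s 0 k - s 2 k - s 7 k + s 9 k - s 15 k + s 16 k + s 21 k - s 22 k = 0 := by decide +kernel

theorem d_cube : ∀ k,
    d0 0 k - d0 2 k - d0 7 k + d0 9 k + d0 15 k - d0 16 k - d0 21 k + d0 22 k = 0 ∧
    d0 0 k - d0 2 k + d0 7 k - d0 9 k - d0 15 k + d0 16 k - d0 21 k + d0 22 k = 0 ∧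
    d0 0 k + d0 2 k - d0 7 k - d0 9 k - d0 15 k - d0 16 k + d0 21 k + d0 22 k = 0 ∧
    d0 0 k - d0 2 k - d0 7 k + d0 9 k - d0 15 k + d0 16 k + d0 21 k - d0 22 k = 0 := by
  decide +kernel

theorem d_cube0 :
    d0 0 14 + d0 2 14 + d0 7 14 + d0 9 14 + d0 15 14 + d0 16 14 + d0 21 14 + d0 22 14 = 4 := by
  decide +kernel

theorem s_dual : ∀ k a : Fin 6,
    (![s 0 a - s 12 a - s 15 a + s 3 a, s 0 a - s 7 a - s 10 a + s 3 a,
     s 0 a - s 3 a - s 6 a + s 1 a, s 0 a - s 1 a - s 6 a + s 3 a,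
     s 1 a - s 0 a - s 6 a + s 3 a, s 2 a - s 0 a - s 6 a + s 4 a] k) =
      if k = a then 4 else 0 := by decide +kernel

theorem S_cube (k : Fin 6) : W0 (fun i => S i k) = 0 ∧ W3 (fun i => S i k) = 0 ∧
    W5 (fun i => S i k) = 0 ∧ W6 (fun i => S i k) = 0 ∧ W7 (fun i => S i k) = 0 := by
  obtain ⟨h0, h3, h5, h6, h7⟩ := s_cube k
  simp only [W0, W3, W5, W6, W7, S]
  exact ⟨by exact_mod_cast h0, by exact_mod_cast h3, by exact_mod_cast h5, by exact_mod_cast h6,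
    by exact_mod_cast h7⟩

theorem Tm_S (k a : Fin 6) : Tm S k a = if k = a then 1 else 0 := by
  have h := congrArg (fun z : ℤ => (z : ℝ)) (s_dual k a)
  unfold Tm S
  rw [div_eq_iff (by norm_num)]
  fin_cases k <;> simp at h ⊢ <;> rw [h]

/-- `Tm` is linear and acts on the point index only -/
theorem Tm_sum (c : Fin 6 → Fin 6 → ℝ) (Y : Fin 24 → Fin 6 → ℝ) (k a : Fin 6) :
    Tm (fun i a => ∑ l, c l a * Y i l) k a = ∑ l, c l a * Tm Y k l := by
  fin_cases k <;> simp [Tm, Fin.sum_univ_six] <;> ring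

theorem Tm_sub (Y Z : Fin 24 → Fin 6 → ℝ) (k a : Fin 6) :
    Tm (fun i a => Y i a - Z i a) k a = Tm Y k a - Tm Z k a := by
  fin_cases k <;> simp [Tm] <;> ring

theorem Tm_smul (c : ℝ) (Y : Fin 24 → Fin 6 → ℝ) (k a : Fin 6) :
    Tm (c • Y) k a = c * Tm Y k a := by
  fin_cases k <;> simp [Tm] <;> ring

theorem Tm_zero (k a : Fin 6) : Tm (fun _ _ => 0) k a = 0 := by
  fin_cases k <;> simp [Tm]

theorem Tm_cont (k a : Fin 6) : Continuous fun Y => Tm Y k a := by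
  fin_cases k <;> simp [Tm] <;> fun_prop

/-- a vector orthogonal to all points vanishes -/
theorem zero_of_orth (w : Fin 6 → ℝ) (h : ∀ q, ∑ l, w l * S q l = 0) (k : Fin 6) : w k = 0 := by
  have h1 := Tm_sum (fun l _ => w l) S k k
  simp only [h, Tm_zero, Tm_S] at h1
  simpa using h1.symm

/-- the normalised Gram variation -/
noncomputable def F (Y : Fin 24 → Fin 6 → ℝ) (δ : Fin 6 → Fin 6 → ℝ) (ρ : Fin 24 → Fin 6 → ℝ)
    (i j : Fin 24) : ℝ :=
  ∑ k, S i k * ∑ l, δ k l * S j l + ∑ a, Y i a * ρ j a + ∑ a, ρ i a * ∑ k, Tm Y k a * S j k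

theorem lin (δ : Fin 6 → Fin 6 → ℝ) (ρ : Fin 24 → Fin 6 → ℝ) (hδ : ∀ k l, δ k l = δ l k)
    (hρ : ∀ k a, Tm ρ k a = 0) (hd : ∀ i, F S δ ρ i i = 0)
    (hc : ∀ i j, i ≠ j → ip i j = 2 → F S δ ρ i j ≤ 0) (hE : En ρ ≤ 0) : δ = 0 ∧ ρ = 0 := by
  have hF : ∀ i j, F S δ ρ i j =
      ∑ k, (s i k : ℝ) * (∑ l, δ k l * S j l + ρ j k) + ∑ k, ρ i k * (s j k : ℝ) := by
    intro i j
    simp only [F, Tm_S, mul_add, Finset.sum_add_distrib, ite_mul, one_mul, zero_mul,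
      Finset.sum_ite_eq', Finset.mem_univ, if_true, S]
  have hs : ∀ i j, F S δ ρ i j = F S δ ρ j i := by
    intro i j
    rw [hF, hF]
    simp only [S, Fin.sum_univ_six]
    rw [hδ 1 0, hδ 2 0, hδ 3 0, hδ 4 0, hδ 5 0, hδ 2 1, hδ 3 1, hδ 4 1, hδ 5 1, hδ 3 2, hδ 4 2,
      hδ 5 2, hδ 4 3, hδ 5 3, hδ 5 4]
    ring
  have hz := stress_zero (F S δ ρ) (fun j k => ∑ l, δ k l * S j l + ρ j k) ρ hF hd hc
  have he := elim (F S δ ρ) (fun j k => ∑ l, δ k l * S j l + ρ j k) ρ hF hs hd hz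
  generalize F S δ ρ 0 14 = τ at he
  have hF' : ∀ i j, ∑ k, S i k * (∑ l, δ k l * S j l + ρ j k) + ∑ k, ρ i k * S j k =
      (d0 i j : ℝ) * τ := fun i j => by rw [← he, hF]; rfl
  have key : ∀ (W : (Fin 24 → ℝ) → ℝ) (q : Fin 24),
      (∀ (c c' : Fin 6 → ℝ) (Y Z : Fin 24 → Fin 6 → ℝ),
        W (fun i => ∑ k, Y i k * c k + ∑ k, Z i k * c' k) =
          ∑ k, W (fun i => Y i k) * c k + ∑ k, W (fun i => Z i k) * c' k) →
      (∀ k, W (fun i => S i k) = 0) →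
      ∑ k, W (fun i => ρ i k) * S q k = W (fun i => (d0 i q : ℝ) * τ) := by
    intro W q h1 h2
    have h3 := h1 (fun k => ∑ l, δ k l * S q l + ρ q k) (S q) S ρ
    simp only [hF', h2, zero_mul, Finset.sum_const_zero, zero_add] at h3
    exact h3.symm
  have w3 : ∀ a, W3 (fun i => ρ i a) = 0 := by
    refine zero_of_orth _ fun q => ?_
    rw [key W3 q (fun c c' Y Z => by simp only [W3, Fin.sum_univ_six]; ring)
      (fun k => (S_cube k).2.1)]
    have h : (d0 0 q : ℝ) - d0 2 q - d0 7 q + d0 9 q + d0 15 q - d0 16 q - d0 21 q + d0 22 q = 0 := by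
      exact_mod_cast (d_cube q).1
    simp only [W3]
    linear_combination τ * h
  have w5 : ∀ a, W5 (fun i => ρ i a) = 0 := by
    refine zero_of_orth _ fun q => ?_
    rw [key W5 q (fun c c' Y Z => by simp only [W5, Fin.sum_univ_six]; ring)
      (fun k => (S_cube k).2.2.1)]
    have h : (d0 0 q : ℝ) - d0 2 q + d0 7 q - d0 9 q - d0 15 q + d0 16 q - d0 21 q + d0 22 q = 0 := by
      exact_mod_cast (d_cube q).2.1
    simp only [W5]
    linear_combination τ * h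
  have w6 : ∀ a, W6 (fun i => ρ i a) = 0 := by
    refine zero_of_orth _ fun q => ?_
    rw [key W6 q (fun c c' Y Z => by simp only [W6, Fin.sum_univ_six]; ring)
      (fun k => (S_cube k).2.2.2.1)]
    have h : (d0 0 q : ℝ) + d0 2 q - d0 7 q - d0 9 q - d0 15 q - d0 16 q + d0 21 q + d0 22 q = 0 := by
      exact_mod_cast (d_cube q).2.2.1
    simp only [W6]
    linear_combination τ * h
  have w7 : ∀ a, W7 (fun i => ρ i a) = 0 := by
    refine zero_of_orth _ fun q => ?_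
    rw [key W7 q (fun c c' Y Z => by simp only [W7, Fin.sum_univ_six]; ring)
      (fun k => (S_cube k).2.2.2.2)]
    have h : (d0 0 q : ℝ) - d0 2 q - d0 7 q + d0 9 q - d0 15 q + d0 16 q + d0 21 q - d0 22 q = 0 := by
      exact_mod_cast (d_cube q).2.2.2
    simp only [W7]
    linear_combination τ * h
  have w0 : ∀ a, W0 (fun i => ρ i a) = 0 := by
    intro a
    have h1 : ∑ a, W0 (fun i => ρ i a) ^ 2 ≤ 0 := by simpa [En, w3, w5, w6, w7] using hE
    have h2 : W0 (fun i => ρ i a) ^ 2 ≤ ∑ a, W0 (fun i => ρ i a) ^ 2 :=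
      Finset.single_le_sum (f := fun a => W0 (fun i => ρ i a) ^ 2) (fun _ _ => sq_nonneg _)
        (Finset.mem_univ a)
    exact pow_eq_zero_iff (two_ne_zero) |>.mp (le_antisymm (h2.trans h1) (sq_nonneg _))
  have hτ : τ = 0 := by
    have h1 := key W0 14 (fun c c' Y Z => by simp only [W0, Fin.sum_univ_six]; ring)
      (fun k => (S_cube k).1)
    simp only [w0, zero_mul, Finset.sum_const_zero] at h1
    have h : (d0 0 14 : ℝ) + d0 2 14 + d0 7 14 + d0 9 14 + d0 15 14 + d0 16 14 + d0 21 14 +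
        d0 22 14 = 4 := by exact_mod_cast d_cube0
    simp only [W0] at h1
    linear_combination (-1 / 4 : ℝ) * h1 - τ / 4 * h
  subst hτ
  have h1 : ∀ j k, ∑ l, δ k l * S j l + ρ j k = 0 := by
    intro j k
    have e1 := Tm_sum (fun l _ => ∑ l', δ l l' * S j l' + ρ j l) S k k
    have e2 := Tm_sum (fun l _ => S j l) ρ k k
    have e3 := Tm_sub (fun _ _ => 0) (fun i _ => ∑ l, S j l * ρ i l) k k
    have e4 : (fun (i : Fin 24) (_ : Fin 6) => ∑ l, (∑ l', δ l l' * S j l' + ρ j l) * S i l) =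
        fun i _ => 0 - ∑ l, S j l * ρ i l := by
      funext i _
      have := hF' i j
      simp only [mul_zero] at this
      simp only [mul_comm (S j _), mul_comm _ (S i _)]
      linarith
    rw [e4, e3, e2, Tm_zero] at e1
    simpa [hρ, Tm_S] using e1.symm
  have h2 : ∀ k l, δ k l = 0 := by
    intro k l
    have e1 := Tm_sum (fun l' _ => δ k l') S l k
    have e3 := Tm_sub (fun _ _ => 0) (fun i _ => ρ i k) l k
    have e4 : (fun (i : Fin 24) (_ : Fin 6) => ∑ l', δ k l' * S i l') =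
        fun i _ => 0 - ρ i k := by
      funext i _
      linarith [h1 i k]
    have e5 : Tm (fun i _ => ρ i k) l k = Tm ρ l k := rfl
    rw [e4, e3, e5, Tm_zero, hρ] at e1
    simpa [Tm_S] using e1.symm
  refine ⟨by funext k l; exact h2 k l, ?_⟩
  funext j k
  simpa [h2] using h1 j k

end Pool.Agent.H29Z.SJ
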