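import Pool.Agent.H29Z.SJ.Lin

/-!
# Local rigidity by compactness
-/

set_option autoImplicit false

namespace Pool.Agent.H29Z.SJ

open Filter Topology

/-- the conditions satisfied by a normalised deformation -/
def Bad (Y : Fin 24 → Fin 6 → ℝ) (w : (Fin 6 → Fin 6 → ℝ) × (Fin 24 → Fin 6 → ℝ)) : Prop :=
  (∀ k l, w.1 k l = w.1 l k) ∧ (∀ k a, Tm w.2 k a = 0) ∧ (∀ i, F Y w.1 w.2 i i = 0) ∧
    (∀ i j, i ≠ j → ip i j = 2 → F Y w.1 w.2 i j ≤ 0) ∧ En w.2 ≤ 0

theorem bad_closed : IsClosed {z : (Fin 24 → Fin 6 → ℝ) ×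
    ((Fin 6 → Fin 6 → ℝ) × (Fin 24 → Fin 6 → ℝ)) | Bad z.1 z.2} := by
  have hT : ∀ k a, Continuous fun Y => Tm Y k a := Tm_cont
  have hF : ∀ i j, Continuous fun z : (Fin 24 → Fin 6 → ℝ) ×
      ((Fin 6 → Fin 6 → ℝ) × (Fin 24 → Fin 6 → ℝ)) => F z.1 z.2.1 z.2.2 i j := by
    intro i j
    unfold F
    refine Continuous.add (Continuous.add (by fun_prop) (by fun_prop)) ?_
    refine continuous_finset_sum _ fun a _ => Continuous.mul (by fun_prop) ?_
    exact continuous_finset_sum _ fun k _ =>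
      Continuous.mul ((hT k a).comp continuous_fst) continuous_const
  have hE : Continuous fun z : (Fin 24 → Fin 6 → ℝ) ×
      ((Fin 6 → Fin 6 → ℝ) × (Fin 24 → Fin 6 → ℝ)) => En z.2.2 := by
    unfold En W0 W3 W5 W6 W7
    fun_prop
  simp only [Bad, Set.setOf_and, Set.setOf_forall]
  refine IsClosed.inter ?_ (IsClosed.inter ?_ (IsClosed.inter ?_ (IsClosed.inter ?_ ?_)))
  · exact isClosed_iInter fun k => isClosed_iInter fun l => isClosed_eq (by fun_prop) (by fun_prop)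
  · exact isClosed_iInter fun k => isClosed_iInter fun a =>
      isClosed_eq ((hT k a).comp (continuous_snd.comp continuous_snd)) continuous_const
  · exact isClosed_iInter fun i => isClosed_eq (hF i i) continuous_const
  · exact isClosed_iInter fun i => isClosed_iInter fun j => isClosed_iInter fun _ =>
      isClosed_iInter fun _ => isClosed_le (hF i j) continuous_const
  · exact isClosed_le hE continuous_const

theorem tube : ∃ ε : ℝ, 0 < ε ∧ ∀ Y, dist Y S < ε → ∀ w, ‖w‖ = 1 → ¬ Bad Y w := by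
  have h := IsCompact.eventually_forall_of_forall_eventually (x₀ := S)
    (isCompact_sphere (0 : (Fin 6 → Fin 6 → ℝ) × (Fin 24 → Fin 6 → ℝ)) 1)
    (P := fun Y w => ¬ Bad Y w) (by
      intro w hw
      refine bad_closed.isOpen_compl.mem_nhds ?_
      rintro ⟨h1, h2, h3, h4, h5⟩
      obtain ⟨e1, e2⟩ := lin w.1 w.2 h1 h2 h3 h4 h5
      have : w = 0 := Prod.ext e1 e2
      simp [this] at hw)
  obtain ⟨ε, hε, h⟩ := Metric.eventually_nhds_iff.mp h
  exact ⟨ε, hε, fun Y hY w hw => h hY w (by simpa using hw)⟩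

theorem bad_smul {Y : Fin 24 → Fin 6 → ℝ} {w : (Fin 6 → Fin 6 → ℝ) × (Fin 24 → Fin 6 → ℝ)}
    (h : Bad Y w) {c : ℝ} (hc : 0 ≤ c) : Bad Y (c • w) := by
  obtain ⟨h1, h2, h3, h4, h5⟩ := h
  have hF : ∀ i j, F Y (c • w).1 (c • w).2 i j = c * F Y w.1 w.2 i j := by
    intro i j
    simp only [F, Prod.smul_fst, Prod.smul_snd, Pi.smul_apply, smul_eq_mul, Fin.sum_univ_six]
    ring
  have hE : En (c • w).2 = c ^ 2 * En w.2 := by
    simp only [En, W0, W3, W5, W6, W7, Prod.smul_snd, Pi.smul_apply, smul_eq_mul, Finset.mul_sum]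
    exact Finset.sum_congr rfl fun _ _ => by ring
  refine ⟨fun k l => by simp [h1 k l], fun k a => ?_, fun i => by rw [hF, h3, mul_zero],
    fun i j hij h => ?_, ?_⟩
  · rw [Prod.smul_snd, Tm_smul, h2, mul_zero]
  · rw [hF]; exact mul_nonpos_of_nonneg_of_nonpos hc (h4 i j hij h)
  · rw [hE]; exact mul_nonpos_of_nonneg_of_nonpos (sq_nonneg _) h5

theorem ip_cast (i j : Fin 24) : (ip i j : ℝ) = ∑ k, S i k * S j k := by
  simp [ip, S, Fin.sum_univ_six]

theorem local_rigid : ∃ ε : ℝ, 0 < ε ∧ ∀ Y : Fin 24 → Fin 6 → ℝ, dist Y S < ε →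
    (∀ i, ∑ a, Y i a * Y i a = 6) → (∀ i j, i ≠ j → ∑ a, Y i a * Y j a ≤ 2) →
    (∀ k l, ∑ a, Tm Y k a * Tm Y l a = if k = l then 1 else 0) ∧
      ∀ i a, Y i a = ∑ k, Tm Y k a * S i k := by
  obtain ⟨ε, hε, h⟩ := tube
  refine ⟨ε, hε, fun Y hY h1 h2 => ?_⟩
  let w : (Fin 6 → Fin 6 → ℝ) × (Fin 24 → Fin 6 → ℝ) :=
    (fun k l => ∑ a, Tm Y k a * Tm Y l a - (if k = l then 1 else 0),
      fun i a => Y i a - ∑ k, Tm Y k a * S i k)
  have hF : ∀ i j, F Y w.1 w.2 i j = ∑ a, Y i a * Y j a - ip i j := by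
    intro i j
    rw [ip_cast]
    simp only [F, w]
    generalize Tm Y = T
    simp [Fin.sum_univ_six]
    ring
  have hW : ∀ (W : (Fin 24 → ℝ) → ℝ) (a : Fin 6),
      (∀ (c : Fin 6 → ℝ) (f : Fin 24 → ℝ) (Z : Fin 24 → Fin 6 → ℝ),
        W (fun i => f i - ∑ k, c k * Z i k) = W f - ∑ k, c k * W (fun i => Z i k)) →
      (∀ k, W (fun i => S i k) = 0) → W (fun i => w.2 i a) = W (fun i => Y i a) := by
    intro W a e1 e2
    have := e1 (fun k => Tm Y k a) (fun i => Y i a) S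
    simpa [e2] using this
  have hE : En w.2 = En Y := by
    unfold En
    refine Finset.sum_congr rfl fun a _ => ?_
    rw [hW W0 a (fun c f Z => by simp only [W0, Fin.sum_univ_six]; ring) (fun k => (S_cube k).1),
      hW W3 a (fun c f Z => by simp only [W3, Fin.sum_univ_six]; ring) (fun k => (S_cube k).2.1),
      hW W5 a (fun c f Z => by simp only [W5, Fin.sum_univ_six]; ring) (fun k => (S_cube k).2.2.1),
      hW W6 a (fun c f Z => by simp only [W6, Fin.sum_univ_six]; ring)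
        (fun k => (S_cube k).2.2.2.1),
      hW W7 a (fun c f Z => by simp only [W7, Fin.sum_univ_six]; ring)
        (fun k => (S_cube k).2.2.2.2)]
  have hEY : En Y ≤ 0 := by
    have e : En Y = 8 * (∑ a, Y 0 a * Y 2 a + ∑ a, Y 0 a * Y 7 a + ∑ a, Y 0 a * Y 15 a +
        ∑ a, Y 2 a * Y 9 a + ∑ a, Y 2 a * Y 16 a + ∑ a, Y 7 a * Y 9 a + ∑ a, Y 7 a * Y 21 a +
        ∑ a, Y 9 a * Y 22 a + ∑ a, Y 15 a * Y 16 a + ∑ a, Y 15 a * Y 21 a +
        ∑ a, Y 16 a * Y 22 a + ∑ a, Y 21 a * Y 22 a) -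
        4 * (∑ a, Y 0 a * Y 0 a + ∑ a, Y 2 a * Y 2 a + ∑ a, Y 7 a * Y 7 a + ∑ a, Y 9 a * Y 9 a +
        ∑ a, Y 15 a * Y 15 a + ∑ a, Y 16 a * Y 16 a + ∑ a, Y 21 a * Y 21 a +
        ∑ a, Y 22 a * Y 22 a) := by
      simp only [En, ← Finset.sum_add_distrib, Finset.mul_sum, ← Finset.sum_sub_distrib]
      refine Finset.sum_congr rfl fun a _ => ?_
      simp only [W0, W3, W5, W6, W7]
      ring
    rw [e]
    simp only [h1]
    linarith [h2 0 2 (by decide), h2 0 7 (by decide), h2 0 15 (by decide), h2 2 9 (by decide),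
      h2 2 16 (by decide), h2 7 9 (by decide), h2 7 21 (by decide), h2 9 22 (by decide),
      h2 15 16 (by decide), h2 15 21 (by decide), h2 16 22 (by decide), h2 21 22 (by decide)]
  have hB : Bad Y w := by
    refine ⟨fun k l => ?_, fun k a => ?_, fun i => ?_, fun i j hij h => ?_, hE ▸ hEY⟩
    · simp only [w, mul_comm (Tm Y k _), eq_comm (a := k)]
    · have e1 := Tm_sub Y (fun i a => ∑ l, Tm Y l a * S i l) k a
      have e2 := Tm_sum (fun l a => Tm Y l a) S k a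
      simp only [w]
      rw [e1, e2]
      simp [Tm_S]
    · rw [hF, h1, ip_self]; norm_num
    · rw [hF, h]
      have := h2 i j hij
      push_cast
      linarith
  have hw : w = 0 := by
    by_contra hw
    have hn : 0 < ‖w‖ := norm_pos_iff.mpr hw
    refine h Y hY (‖w‖⁻¹ • w) ?_ (bad_smul hB (inv_nonneg.mpr hn.le))
    rw [norm_smul, norm_inv, norm_norm, inv_mul_cancel₀ hn.ne']
  refine ⟨fun k l => ?_, fun i a => ?_⟩
  · have := congrFun (congrFun (congrArg Prod.fst hw) k) l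
    simp only [w, Prod.fst_zero, Pi.zero_apply] at this
    linarith
  · have := congrFun (congrFun (congrArg Prod.snd hw) i) a
    simp only [w, Prod.snd_zero, Pi.zero_apply] at this
    linarith

end Pool.Agent.H29Z.SJ
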