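import Pool.Agent.H29Z.SJ.Loc

/-!
# The code on the unit sphere
-/

set_option autoImplicit false

namespace Pool.Agent.H29Z.SJ

theorem inner_eq (u w : EuclideanSpace ℝ (Fin 6)) : inner ℝ u w = ∑ k, u k * w k := by
  simp [PiLp.inner_apply, mul_comm]

theorem dist_sq {u w : EuclideanSpace ℝ (Fin 6)} (hu : ‖u‖ = 1) (hw : ‖w‖ = 1) :
    dist u w = Real.sqrt (2 - 2 * inner ℝ u w) := by
  have h : dist u w ^ 2 = 2 - 2 * inner ℝ u w := by
    rw [dist_eq_norm, norm_sub_sq_real, hu, hw]; ring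
  rw [← h, Real.sqrt_sq dist_nonneg]

theorem le_dist_iff {u w : EuclideanSpace ℝ (Fin 6)} (hu : ‖u‖ = 1) (hw : ‖w‖ = 1) :
    Real.sqrt (4 / 3) ≤ dist u w ↔ inner ℝ u w ≤ (1 / 3 : ℝ) := by
  rw [Real.sqrt_le_left dist_nonneg, dist_eq_norm, norm_sub_sq_real, hu, hw]
  constructor <;> intro h <;> linarith

theorem dist_eq_iff {u w : EuclideanSpace ℝ (Fin 6)} (hu : ‖u‖ = 1) (hw : ‖w‖ = 1) :
    dist u w = Real.sqrt (4 / 3) ↔ inner ℝ u w = (1 / 3 : ℝ) := by
  constructor
  · intro h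
    have h1 : dist u w ^ 2 = 4 / 3 := by rw [h, Real.sq_sqrt (by norm_num)]
    rw [dist_eq_norm, norm_sub_sq_real, hu, hw] at h1
    linarith
  · intro h
    rw [dist_sq hu hw, h]; norm_num

theorem r_pos : 0 < Real.sqrt 6 := by positivity

theorem r_mul : Real.sqrt 6 * Real.sqrt 6 = 6 := Real.mul_self_sqrt (by norm_num)

theorem r_lt : Real.sqrt 6 < 3 := by
  rw [Real.sqrt_lt' (by norm_num)]; norm_num

/-- the code -/
noncomputable def x (i : Fin 24) : EuclideanSpace ℝ (Fin 6) :=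
  WithLp.toLp 2 fun k => S i k / Real.sqrt 6

/-- the flex -/
noncomputable def v (i : Fin 24) : EuclideanSpace ℝ (Fin 6) :=
  WithLp.toLp 2 fun k => (v0 i k : ℝ)

theorem inner_x (i j : Fin 24) : inner ℝ (x i) (x j) = (ip i j : ℝ) / 6 := by
  rw [inner_eq, ip_cast, Finset.sum_div]
  refine Finset.sum_congr rfl fun k _ => ?_
  simp only [x]
  rw [div_mul_div_comm, r_mul]

theorem norm_x (i : Fin 24) : ‖x i‖ = 1 := by
  have h := inner_x i i
  rw [real_inner_self_eq_norm_sq, ip_self] at h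
  have h2 : ‖x i‖ ^ 2 = 1 := by rw [h]; norm_num
  exact (pow_eq_one_iff_of_nonneg (norm_nonneg _) two_ne_zero).mp h2

theorem inner_xv (i j : Fin 24) :
    inner ℝ (x i) (v j) = ((∑ k, s i k * v0 j k : ℤ) : ℝ) / Real.sqrt 6 := by
  rw [inner_eq]
  push_cast
  rw [Finset.sum_div]
  refine Finset.sum_congr rfl fun k _ => ?_
  simp only [x, v, S]
  ring

theorem sep (i j : Fin 24) (h : i ≠ j) : Real.sqrt (4 / 3) ≤ dist (x i) (x j) := by
  rw [le_dist_iff (norm_x i) (norm_x j), inner_x]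
  have : (ip i j : ℝ) ≤ 2 := by exact_mod_cast ip_le i j h
  linarith

theorem contact_iff (i j : Fin 24) : dist (x i) (x j) = Real.sqrt (4 / 3) ↔ ip i j = 2 := by
  rw [dist_eq_iff (norm_x i) (norm_x j), inner_x]
  constructor
  · intro h
    have : (ip i j : ℝ) = 2 := by linarith
    exact_mod_cast this
  · intro h
    rw [h]; norm_num

theorem x_inj : Function.Injective x := by
  intro i j h
  by_contra hij
  have := sep i j hij
  rw [h, dist_self] at this
  have h2 : 0 < Real.sqrt (4 / 3) := by positivity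
  linarith

theorem x_span : Submodule.span ℝ (Set.range x) = ⊤ := by
  rw [← Submodule.orthogonal_eq_bot_iff, eq_bot_iff]
  intro w hw
  have h1 : ∀ q, ∑ l, w l * S q l = 0 := by
    intro q
    have := (Submodule.mem_orthogonal _ _).mp hw (x q) (Submodule.subset_span ⟨q, rfl⟩)
    rw [inner_eq] at this
    have e : ∑ l, w l * S q l = Real.sqrt 6 * ∑ k, x q k * w k := by
      rw [Finset.mul_sum]
      refine Finset.sum_congr rfl fun k _ => ?_
      simp only [x]
      field_simp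
    rw [e, this, mul_zero]
  rw [Submodule.mem_bot]
  ext k
  exact zero_of_orth (fun l => w l) h1 k

theorem jammed : ∃ ε : ℝ, 0 < ε ∧
    ∀ y : Fin 24 → EuclideanSpace ℝ (Fin 6),
      (∀ i, ‖y i‖ = 1) →
      (∀ i, dist (y i) (x i) < ε) →
      (∀ i j, i ≠ j → Real.sqrt (4 / 3) ≤ dist (y i) (y j)) →
      ∃ g : EuclideanSpace ℝ (Fin 6) ≃ₗᵢ[ℝ] EuclideanSpace ℝ (Fin 6),
        ∀ i, y i = g (x i) := by
  obtain ⟨ε, hε, h⟩ := local_rigid
  refine ⟨ε / 3, by positivity, fun y h1 h2 h3 => ?_⟩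
  have hin : ∀ i j, ∑ a, (Real.sqrt 6 * y i a) * (Real.sqrt 6 * y j a) =
      6 * inner ℝ (y i) (y j) := by
    intro i j
    rw [inner_eq, Finset.mul_sum]
    refine Finset.sum_congr rfl fun k _ => ?_
    linear_combination (y i k * y j k) * r_mul
  obtain ⟨hT, hY⟩ := h (fun i k => Real.sqrt 6 * y i k) (by
      rw [dist_pi_lt_iff hε]
      intro i
      rw [dist_pi_lt_iff hε]
      intro k
      have e1 : dist (y i k) (x i k) ≤ dist (y i) (x i) := PiLp.dist_apply_le _ _ _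
      have e2 : Real.sqrt 6 * y i k - S i k = Real.sqrt 6 * (y i k - x i k) := by
        simp only [x]
        field_simp
      rw [Real.dist_eq] at e1 ⊢
      rw [e2, abs_mul, abs_of_pos r_pos]
      nlinarith [r_lt, r_pos, abs_nonneg (y i k - x i k), h2 i])
    (fun i => by rw [hin, real_inner_self_eq_norm_sq, h1]; norm_num)
    (fun i j hij => by
      rw [hin]
      have := (le_dist_iff (h1 i) (h1 j)).mp (h3 i j hij)
      linarith)
  generalize Tm (fun i k => Real.sqrt 6 * y i k) = T at hT hY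
  let L : EuclideanSpace ℝ (Fin 6) →ₗ[ℝ] EuclideanSpace ℝ (Fin 6) :=
    Matrix.toLpLin 2 2 (Matrix.of fun a k => T k a)
  have hL : ∀ u a, L u a = ∑ k, T k a * u k := by
    intro u a
    simp [L, Matrix.toLpLin_apply, Matrix.mulVec, dotProduct]
  have hI : ∀ u w, inner ℝ (L u) (L w) = inner ℝ u w := by
    intro u w
    rw [inner_eq, inner_eq]
    have e : ∑ a, L u a * L w a = ∑ k, ∑ l, u k * w l * ∑ a, T k a * T l a := by
      simp only [hL, Fin.sum_univ_six]
      ring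
    rw [e]
    simp [hT]
  refine ⟨(L.isometryOfInner hI).toLinearIsometryEquiv rfl, fun i => ?_⟩
  ext a
  have e1 : ((L.isometryOfInner hI).toLinearIsometryEquiv rfl) (x i) = L (x i) := rfl
  rw [e1, hL]
  have e2 := hY i a
  have e3 : ∑ k, T k a * x i k = (∑ k, T k a * S i k) / Real.sqrt 6 := by
    rw [Finset.sum_div]
    refine Finset.sum_congr rfl fun k _ => ?_
    simp only [x]
    ring
  rw [e3, ← e2]
  field_simp

theorem not_inf : ¬ (∀ v : Fin 24 → EuclideanSpace ℝ (Fin 6),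
    (∀ i, inner ℝ (x i) (v i) = 0) →
    (∀ i j, i ≠ j → dist (x i) (x j) = Real.sqrt (4 / 3) →
      0 ≤ inner ℝ (x i - x j) (v i - v j)) →
    ∃ A : EuclideanSpace ℝ (Fin 6) →ₗ[ℝ] EuclideanSpace ℝ (Fin 6),
      (∀ u w, inner ℝ (A u) w = - inner ℝ u (A w)) ∧
      ∀ i, v i = A (x i)) := by
  intro h
  have ht : ∀ i, inner ℝ (x i) (v i) = 0 := fun i => by rw [inner_xv, v0_tan]; simp
  obtain ⟨A, hA, hv⟩ := h v ht (by
    intro i j _ hij
    have h1 := v0_con i j ((contact_iff i j).mp hij)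
    have h2 : inner ℝ (x i) (v j) + inner ℝ (x j) (v i) = 0 := by
      rw [inner_xv, inner_xv, ← add_div, ← Int.cast_add, h1]; simp
    rw [inner_sub_left, inner_sub_right, inner_sub_right, ht, ht]
    linarith)
  have h2 : inner ℝ (x 0) (v 14) + inner ℝ (x 14) (v 0) = 12 / Real.sqrt 6 := by
    rw [inner_xv, inner_xv, ← add_div, ← Int.cast_add, v0_ne]; simp
  have h3 := hA (x 0) (x 14)
  rw [← hv, ← hv, real_inner_comm] at h3
  have h4 : (0 : ℝ) < 12 / Real.sqrt 6 := by positivity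
  linarith

end Pool.Agent.H29Z.SJ
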